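import Pool.Agent.H655Z.TD.Walk

/-! Local structure of subdivided frames. -/

set_option autoImplicit false

namespace Pool.Agent.H655Z.TD

open Pool.Agent.H431Z.LD

variable {N Col U : Type} {F : Frame N Col} {L : ℕ}

lemma opp_opp (d : Fin 8) : opp (opp d) = d := by revert d; decide

lemma opp_ne (d : Fin 8) : opp d ≠ d := by revert d; decide

lemma isV_opp (d : Fin 8) : isV (opp d) ↔ isV d := by revert d; decide

lemma opp_par (d : Fin 8) : (opp d).val % 2 = 0 ↔ ¬ d.val % 2 = 0 := by revert d; decide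

lemma opp_inj {d d' : Fin 8} (h : opp d = opp d') : d = d' := by
  rw [← opp_opp d, h, opp_opp]

lemma len_opp (L : ℕ) (d : Fin 8) : len L (opp d) = len L d := by
  unfold len
  by_cases h : isV d
  · rw [if_pos h, if_pos ((isV_opp d).2 h)]
  · rw [if_neg h, if_neg (fun a => h ((isV_opp d).1 a))]

lemma len_bd (L : ℕ) (d : Fin 8) : L - 1 ≤ len L d ∧ len L d ≤ L := by
  unfold len; split_ifs <;> omega

lemma len_sq {d d' : Fin 8} (hL : 1 ≤ L) (h : isV d ↔ ¬ isV d') :
    len L d + len L d' = 2 * L - 1 := by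
  unfold len
  by_cases a : isV d
  · rw [if_pos a, if_neg (h.1 a)]; omega
  · have b : isV d' := by by_contra c; exact a (h.2 c)
    rw [if_neg a, if_pos b]; omega

lemma lab_rev (hL : 16 ≤ L) (a : Col) (d : Fin 8) (b : Col) {s : ℕ} (hs : s ≤ len L d) :
    lab L b (opp d) a (len L d - s) = lab L a d b s := by
  have hb := len_bd L d
  unfold lab
  simp only [len_opp, opp_opp]
  by_cases h0 : s = 0
  · subst h0
    rw [if_neg (by omega), if_pos (by omega), if_pos rfl]
  by_cases h1 : s = len L d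
  · rw [if_pos (by omega), if_neg h0, if_pos h1]
  by_cases h2 : s = 1
  · rw [if_neg (by omega), if_neg (by omega), if_neg (by omega), if_pos (by omega), if_neg h0,
      if_neg h1, if_pos h2]
  by_cases h3 : s + 1 = len L d
  · rw [if_neg (by omega), if_neg (by omega), if_pos (by omega), if_neg h0,
      if_neg h1, if_neg h2, if_pos h3]
  rw [if_neg (by omega), if_neg (by omega), if_neg (by omega), if_neg (by omega), if_neg h0,
    if_neg h1, if_neg h2, if_neg h3]
  by_cases h4 : d.val % 2 = 0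
  · rw [if_neg (fun c => (opp_par d).1 c h4), if_pos h4]
    have : len L d - (len L d - s) = s := by omega
    simp only [this]
  · rw [if_pos ((opp_par d).2 h4), if_neg h4]

lemma mdl_lab (a : Col) (d : Fin 8) (b : Col) (s : ℕ) :
    mdl0 (lab L a d b s) ↔ s = 0 ∨ s = len L d := by
  unfold lab mdl0
  split_ifs with h0 h1 h2 h3 h4
  · simp [h0]
  · simp [h1]
  all_goals simp [h0, h1]

/-- labels of interior points, same orientation class -/
lemma lab_eq (hL : 16 ≤ L) {a b a' b' : Col} {d d' : Fin 8} {s s' : ℕ} (h0 : 0 < s)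
    (h1 : s < len L d) (h1' : s' ≤ len L d') (h : lab L a d b s = lab L a' d' b' s') :
    (d' = d ∧ s' = s ∧ (s + 1 ≠ len L d → a' = a) ∧ (s ≠ 1 → b' = b)) ∨
      (d' = opp d ∧ s' = len L d - s ∧ (s + 1 ≠ len L d → b' = a) ∧ (s ≠ 1 → a' = b)) := by
  have hb := len_bd L d
  have hb' := len_bd L d'
  have hm : ¬ (s' = 0 ∨ s' = len L d') := by
    rw [← mdl_lab a' d' b', ← h, mdl_lab]; omega
  unfold lab at h
  rw [if_neg (by omega), if_neg (by omega), if_neg (show ¬ s' = 0 by omega),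
    if_neg (show ¬ s' = len L d' by omega)] at h
  split_ifs at h with c1 c2 c3 c4 c5 c6 c7 c8 c9 c10 c11 c12 c13 c14 c15 <;>
    simp only [Sum.inr.injEq, Sum.inl.injEq, Prod.mk.injEq, Fin.mk.injEq, reduceCtorEq] at h
  · obtain ⟨rfl, rfl⟩ := h
    exact Or.inl ⟨rfl, by omega, fun _ => rfl, fun c => absurd c1 c⟩
  · obtain ⟨rfl, rfl⟩ := h
    rw [len_opp] at *
    exact Or.inr ⟨(opp_opp _).symm, by omega, fun _ => rfl, fun c => absurd c1 c⟩
  · obtain ⟨rfl, rfl⟩ := h
    exact Or.inr ⟨rfl, by omega, fun c => absurd c5 c, fun _ => rfl⟩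
  · obtain ⟨rfl, e⟩ := h
    obtain rfl := opp_inj e
    exact Or.inl ⟨rfl, by omega, fun c => absurd c5 c, fun _ => rfl⟩
  · obtain ⟨rfl, rfl, rfl, e⟩ := h
    exact Or.inl ⟨rfl, by omega, fun _ => rfl, fun _ => rfl⟩
  · obtain ⟨rfl, rfl, rfl, e⟩ := h
    rw [len_opp] at *
    exact Or.inr ⟨(opp_opp _).symm, by omega, fun _ => rfl, fun _ => rfl⟩
  · obtain ⟨rfl, rfl, rfl, e⟩ := h
    rw [len_opp] at *
    exact Or.inr ⟨rfl, by omega, fun _ => rfl, fun _ => rfl⟩
  · obtain ⟨rfl, e0, rfl, e⟩ := h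
    obtain rfl := opp_inj e0
    exact Or.inl ⟨rfl, by omega, fun _ => rfl, fun _ => rfl⟩

/-! ### existence -/

/-- raw points -/
def rawpt (F : Frame N Col) (L : ℕ) (n : N) (d : Fin 8) (s : ℕ) : N ⊕ (N × Fin 8 × ℕ) :=
  if s = 0 then Sum.inl n else
    match F.nb n d with
    | none => Sum.inl n
    | some m => if len L d ≤ s then Sum.inl m
        else if d.val % 2 = 0 then Sum.inr (n, d, s) else Sum.inr (m, opp d, len L d - s)

lemma rawpt_zero (n : N) (d : Fin 8) : rawpt F L n d 0 = Sum.inl n := by simp [rawpt]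

lemma rawpt_none {n : N} {d : Fin 8} (h : F.nb n d = none) (s : ℕ) :
    rawpt F L n d s = Sum.inl n := by simp [rawpt, h]

lemma rawpt_ge {n m : N} {d : Fin 8} (h : F.nb n d = some m) {s : ℕ} (h0 : s ≠ 0)
    (h1 : len L d ≤ s) : rawpt F L n d s = Sum.inl m := by simp [rawpt, h, h0, h1]

lemma rawpt_ev {n m : N} {d : Fin 8} (h : F.nb n d = some m) {s : ℕ} (h0 : s ≠ 0)
    (h1 : s < len L d) (h2 : d.val % 2 = 0) : rawpt F L n d s = Sum.inr (n, d, s) := by
  simp [rawpt, h, h0, not_le.2 h1, h2]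

lemma rawpt_od {n m : N} {d : Fin 8} (h : F.nb n d = some m) {s : ℕ} (h0 : s ≠ 0)
    (h1 : s < len L d) (h2 : ¬ d.val % 2 = 0) :
    rawpt F L n d s = Sum.inr (m, opp d, len L d - s) := by
  unfold rawpt
  rw [if_neg h0, h]
  simp only
  rw [if_neg (not_le.2 h1), if_neg h2]

lemma rawpt_min (hL : 16 ≤ L) (n : N) (d : Fin 8) (s : ℕ) :
    rawpt F L n d (min s L) = rawpt F L n d s := by
  by_cases c : s ≤ L
  · rw [min_eq_left c]
  · have hb := len_bd L d
    rw [min_eq_right (by omega)]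
    rcases h : F.nb n d with _ | m
    · rw [rawpt_none h, rawpt_none h]
    · rw [rawpt_ge h (by omega) hb.2, rawpt_ge h (by omega) (by omega)]

lemma rawpt_rev (hL : 16 ≤ L) {n m : N} {d : Fin 8} (h : F.nb n d = some m) {s : ℕ}
    (hs : s ≤ len L d) : rawpt F L n d s = rawpt F L m (opp d) (len L d - s) := by
  have hb := len_bd L d
  have h' := F.nb_opp _ _ _ h
  by_cases h0 : s = 0
  · subst h0
    rw [rawpt_zero, rawpt_ge h' (by omega) (by rw [len_opp]; omega)]
  by_cases h1 : s = len L d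
  · rw [rawpt_ge h h0 (by omega), show len L d - s = 0 by omega, rawpt_zero]
  by_cases h2 : d.val % 2 = 0
  · rw [rawpt_ev h h0 (by omega) h2, rawpt_od h' (by omega) (by rw [len_opp]; omega)
      (fun c => (opp_par d).1 c h2), opp_opp, len_opp, show len L d - (len L d - s) = s by omega]
  · rw [rawpt_od h h0 (by omega) h2, rawpt_ev h' (by omega) (by rw [len_opp]; omega)
      ((opp_par d).2 h2)]

lemma rawpt_inj (hL : 16 ≤ L) {n m n' m' : N} {d d' : Fin 8} {s s' : ℕ} (h : F.nb n d = some m)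
    (h' : F.nb n' d' = some m') (h0 : 0 < s) (h1 : s < len L d) (h1' : s' ≤ len L d')
    (e : rawpt F L n d s = rawpt F L n' d' s') :
    (n' = n ∧ d' = d ∧ s' = s) ∨ (n' = m ∧ d' = opp d ∧ s' = len L d - s) := by
  have key : ∀ x, rawpt F L n d s ≠ Sum.inl x := by
    intro x
    by_cases h2 : d.val % 2 = 0
    · rw [rawpt_ev h (by omega) h1 h2]; simp
    · rw [rawpt_od h (by omega) h1 h2]; simp
  have a0 : s' ≠ 0 := by
    rintro rfl
    exact key _ (e.trans (rawpt_zero _ _))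
  have a1 : s' < len L d' := by
    by_contra c
    exact key _ (e.trans (rawpt_ge h' a0 (by omega)))
  by_cases h2 : d.val % 2 = 0 <;> by_cases h2' : d'.val % 2 = 0
  · rw [rawpt_ev h (by omega) h1 h2, rawpt_ev h' a0 a1 h2'] at e
    simp only [Sum.inr.injEq, Prod.mk.injEq] at e
    exact Or.inl ⟨e.1.symm, e.2.1.symm, e.2.2.symm⟩
  · rw [rawpt_ev h (by omega) h1 h2, rawpt_od h' a0 a1 h2'] at e
    simp only [Sum.inr.injEq, Prod.mk.injEq] at e
    obtain ⟨rfl, rfl, e⟩ := e
    have h3 := F.nb_opp _ _ _ h'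
    rw [h3] at h
    rw [len_opp] at *
    exact Or.inr ⟨Option.some.inj h, (opp_opp _).symm, by omega⟩
  · rw [rawpt_od h (by omega) h1 h2, rawpt_ev h' a0 a1 h2'] at e
    simp only [Sum.inr.injEq, Prod.mk.injEq] at e
    exact Or.inr ⟨e.1.symm, e.2.1.symm, e.2.2.symm⟩
  · rw [rawpt_od h (by omega) h1 h2, rawpt_od h' a0 a1 h2'] at e
    simp only [Sum.inr.injEq, Prod.mk.injEq] at e
    obtain ⟨rfl, e1, e⟩ := e
    obtain rfl := opp_inj e1
    have h3 := F.nb_opp _ _ _ h'
    have h4 := F.nb_opp _ _ _ h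
    rw [h3] at h4
    exact Or.inl ⟨Option.some.inj h4, rfl, by omega⟩

/-- label of a raw point -/
def rawfc (F : Frame N Col) (L : ℕ) : N ⊕ (N × Fin 8 × ℕ) → Lab0 Col L
  | Sum.inl n => Sum.inl (F.col n)
  | Sum.inr (n, d, s) => lab L (F.col n) d (F.col ((F.nb n d).getD n)) s

lemma rawfc_pt (hL : 16 ≤ L) {n m : N} {d : Fin 8} (h : F.nb n d = some m) {s : ℕ}
    (hs : s ≤ len L d) : rawfc F L (rawpt F L n d s) = lab L (F.col n) d (F.col m) s := by
  have hb := len_bd L d
  by_cases h0 : s = 0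
  · subst h0
    rw [rawpt_zero]; simp [rawfc, lab]
  by_cases h1 : s = len L d
  · rw [rawpt_ge h h0 (by omega)]
    unfold lab
    rw [if_neg h0, if_pos h1]; rfl
  by_cases h2 : d.val % 2 = 0
  · rw [rawpt_ev h h0 (by omega) h2]
    simp [rawfc, h]
  · rw [rawpt_od h h0 (by omega) h2, ← lab_rev hL _ _ _ hs]
    simp [rawfc, F.nb_opp _ _ _ h]

theorem exists_sub' [Finite N] (hF : F.Good) (hL : 16 ≤ L) :
    ∃ (U : Type) (_ : Finite U), Nonempty (Sub F L U) := by
  let φ : N × Fin 8 × Fin (L + 1) → N ⊕ (N × Fin 8 × ℕ) := fun q => rawpt F L q.1 q.2.1 q.2.2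
  let pt : N → Fin 8 → ℕ → Set.range φ := fun n d s =>
    ⟨rawpt F L n d s, (n, d, ⟨min s L, by omega⟩), rawpt_min hL n d s⟩
  have hrev : ∀ n d m s, F.nb n d = some m → s ≤ len L d →
      pt n d s = pt m (opp d) (len L d - s) := fun n d m s h hs => Subtype.ext (rawpt_rev hL h hs)
  refine ⟨Set.range φ, (Set.finite_range φ).to_subtype, ⟨{
    G := {
      Adj := fun x y => ∃ n d m s, F.nb n d = some m ∧ s < len L d ∧ x = pt n d s ∧ y = pt n d (s + 1)
      symm := ⟨?_⟩
      loopless := ⟨?_⟩ }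
    pt := pt
    fc := fun x => rawfc F L x.1
    pt_zero := fun n d d' => Subtype.ext
      ((rawpt_zero (F := F) (L := L) n d).trans (rawpt_zero (F := F) (L := L) n d').symm)
    pt_rev := hrev
    adj_iff := fun x y => Iff.rfl
    surj := ?_
    inj0 := fun n d n' d' e => ?_
    inj := fun n d m s n' d' m' s' h h' h0 h1 h1' e =>
      rawpt_inj hL h h' h0 h1 h1' (congrArg Subtype.val e)
    fc_pt := fun n d m s h hs => rawfc_pt hL h hs }⟩⟩
  · rintro x y ⟨n, d, m, s, h, hs, rfl, rfl⟩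
    refine ⟨m, opp d, n, len L d - (s + 1), F.nb_opp _ _ _ h, by rw [len_opp]; omega,
      hrev _ _ _ _ h (by omega), ?_⟩
    rw [hrev n d m s h hs.le]
    congr 1
    omega
  · rintro x ⟨n, d, m, s, h, hs, rfl, e⟩
    have hb := len_bd L d
    have e' : rawpt F L n d s = rawpt F L n d (s + 1) := congrArg Subtype.val e
    by_cases h0 : s = 0
    · subst h0
      rcases rawpt_inj hL h h (s := 0 + 1) (s' := 0) (by omega) (by omega) (by omega) e'.symm with
        a | a
      · omega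
      · exact opp_ne d a.2.1.symm
    · rcases rawpt_inj hL h h (s := s) (s' := s + 1) (by omega) hs (by omega) e' with a | a
      · omega
      · exact opp_ne d a.2.1.symm
  · rintro ⟨x, ⟨n, d, s⟩, rfl⟩
    have node : ∀ k : N, φ (n, d, s) = Sum.inl k → ∃ n' d' m s', F.nb n' d' = some m ∧
        s' < len L d' ∧ (⟨φ (n, d, s), (n, d, s), rfl⟩ : Set.range φ) = pt n' d' s' := by
      intro k hk
      obtain ⟨d', hd'⟩ := hF.ex k
      obtain ⟨m, hm⟩ := Option.isSome_iff_exists.1 hd'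
      have hb := len_bd L d'
      exact ⟨k, d', m, 0, hm, by omega, Subtype.ext (hk.trans (rawpt_zero (F := F) (L := L) k d').symm)⟩
    rcases h : F.nb n d with _ | m
    · exact node n (rawpt_none h _)
    · by_cases c : s.val < len L d
      · exact ⟨n, d, m, s, h, c, rfl⟩
      · have hb := len_bd L d
        exact node m (rawpt_ge (s := s.val) h (by omega) (by omega))
  · have e' : rawpt F L n d 0 = rawpt F L n' d' 0 := congrArg Subtype.val e
    rw [rawpt_zero, rawpt_zero] at e'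
    exact Sum.inl.inj e'

end Pool.Agent.H655Z.TD
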