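import Pool.Agent.H655Z.TD.CoreA1

/-! Walks in subdivided frames follow paths in the frame. -/

set_option autoImplicit false

namespace Pool.Agent.H655Z.TD

open Pool.Agent.H431Z.LD

variable {N Col U : Type} {F : Frame N Col} {L : ℕ}

namespace Sub

variable (S : Sub F L U)

lemma pt_len {n m : N} {d : Fin 8} (h : F.nb n d = some m) (d' : Fin 8) :
    S.pt n d (len L d) = S.pt m d' 0 := by
  rw [S.pt_rev n d m _ h le_rfl, Nat.sub_self, S.pt_zero m (opp d) d']

lemma adj_pt {n m : N} {d : Fin 8} (h : F.nb n d = some m) {s : ℕ} (hs : s < len L d) :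
    S.G.Adj (S.pt n d s) (S.pt n d (s + 1)) := (S.adj_iff _ _).2 ⟨n, d, m, s, h, hs, rfl, rfl⟩

lemma node_ne (hF : F.Good) {n m n' : N} {d d' : Fin 8} (h : F.nb n d = some m) {s : ℕ}
    (h0 : 0 < s) (h1 : s < len L d) : S.pt n d s ≠ S.pt n' d' 0 := by
  intro e
  obtain ⟨d'', hd⟩ := hF.ex n'
  obtain ⟨m', hm⟩ := Option.isSome_iff_exists.1 hd
  rw [S.pt_zero n' d' d''] at e
  rcases S.inj n d m s n' d'' m' 0 h hm h0 h1 (Nat.zero_le _) e with a | a <;> omega

lemma pt_inj {n m : N} {d : Fin 8} (h : F.nb n d = some m) {s s' : ℕ}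
    (h0 : 0 < s) (h1 : s < len L d) (h2 : s' ≤ len L d) (e : S.pt n d s = S.pt n d s') : s' = s := by
  rcases S.inj n d m s n d m s' h h h0 h1 h2 e with a | a
  · exact a.2.2
  · exact absurd a.2.1.symm (opp_ne d)

lemma mdl_pt {n m : N} {d : Fin 8} (h : F.nb n d = some m) {s : ℕ} (hs : s ≤ len L d) :
    mdl0 (S.fc (S.pt n d s)) ↔ s = 0 ∨ s = len L d := by
  rw [S.fc_pt n d m s h hs, mdl_lab]

lemma fc_node (hF : F.Good) (n : N) (d : Fin 8) : S.fc (S.pt n d 0) = Sum.inl (F.col n) := by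
  obtain ⟨d'', hd⟩ := hF.ex n
  obtain ⟨m', hm⟩ := Option.isSome_iff_exists.1 hd
  rw [S.pt_zero n d d'', S.fc_pt n d'' m' 0 hm (Nat.zero_le _)]
  simp [lab]

/-- neighbours of an interior point -/
lemma nbr_int {n m : N} {d : Fin 8} (h : F.nb n d = some m) {s : ℕ}
    (h1 : s + 1 < len L d) {y : U} (ha : S.G.Adj (S.pt n d (s + 1)) y) :
    y = S.pt n d (s + 2) ∨ y = S.pt n d s := by
  obtain ⟨n', d', m', s', h', hs', e, rfl⟩ := (S.adj_iff _ _).1 ha
  rcases S.inj n d m (s + 1) n' d' m' s' h h' (by omega) h1 hs'.le e with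
    ⟨rfl, rfl, rfl⟩ | ⟨rfl, rfl, rfl⟩
  · exact Or.inl rfl
  · right
    rw [S.pt_rev n d n' s h (by omega)]
    congr 1
    omega

/-- neighbours of a node -/
lemma nbr_node (hF : F.Good) {n : N} {d : Fin 8} {y : U} (ha : S.G.Adj (S.pt n d 0) y) :
    ∃ d' m', F.nb n d' = some m' ∧ y = S.pt n d' 1 := by
  obtain ⟨n', d', m', s', h', hs', e, rfl⟩ := (S.adj_iff _ _).1 ha
  rcases Nat.eq_zero_or_pos s' with rfl | c
  · obtain rfl := S.inj0 _ _ _ _ e
    exact ⟨d', m', h', rfl⟩
  · exact absurd e.symm (S.node_ne hF h' c hs')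

/-- a point with the label of a node -/
lemma fc_eq_node (hF : F.Good) {n : N} {d : Fin 8} {y : U} (e : S.fc y = S.fc (S.pt n d 0))
    (d' : Fin 8) : ∃ n', y = S.pt n' d' 0 ∧ F.col n' = F.col n := by
  obtain ⟨n', d'', m', s', h', hs', rfl⟩ := S.surj y
  have a : mdl0 (S.fc (S.pt n' d'' s')) := by rw [e, S.fc_node hF]; exact ⟨_, rfl⟩
  rw [S.mdl_pt h' hs'.le] at a
  obtain rfl : s' = 0 := by omega
  rw [S.fc_node hF, S.fc_node hF] at e
  exact ⟨n', S.pt_zero _ _ _, Sum.inl.inj e⟩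

/-- a point with the label of an interior point -/
lemma fc_eq_int (hL : 16 ≤ L) {n m : N} {d : Fin 8} (h : F.nb n d = some m) {s : ℕ} (h0 : 0 < s)
    (h1 : s < len L d) {y : U} (e : S.fc y = S.fc (S.pt n d s)) :
    ∃ n' m', F.nb n' d = some m' ∧ y = S.pt n' d s ∧ (s + 1 ≠ len L d → F.col n' = F.col n) ∧
      (s ≠ 1 → F.col m' = F.col m) := by
  obtain ⟨n', d', m', s', h', hs', rfl⟩ := S.surj y
  rw [S.fc_pt _ _ _ _ h' hs'.le, S.fc_pt _ _ _ _ h h1.le] at e
  rcases lab_eq hL h0 h1 hs'.le e.symm with ⟨rfl, rfl, a, b⟩ | ⟨rfl, rfl, a, b⟩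
  · exact ⟨n', m', h', rfl, a, b⟩
  · have h2 := F.nb_opp _ _ _ h'
    rw [opp_opp] at h2
    refine ⟨m', n', h2, ?_, a, b⟩
    rw [S.pt_rev m' d n' s h2 h1.le]

/-- labels of two points on edges of the same direction -/
lemma fc_same (hL : 16 ≤ L) {n m n' m' : N} {d d' : Fin 8} (h : F.nb n d = some m)
    (h' : F.nb n' d' = some m') {s s' : ℕ} (h0 : 0 < s) (h1 : s < len L d) (h1' : s' ≤ len L d')
    (e : S.fc (S.pt n' d' s') = S.fc (S.pt n d s)) :
    (d' = d ∧ s' = s ∧ (s + 1 ≠ len L d → F.col n' = F.col n) ∧ (s ≠ 1 → F.col m' = F.col m)) ∨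
      (d' = opp d ∧ s' = len L d - s) := by
  rw [S.fc_pt _ _ _ _ h' h1', S.fc_pt _ _ _ _ h h1.le] at e
  rcases lab_eq hL h0 h1 h1' e.symm with a | a
  · exact Or.inl a
  · exact Or.inr ⟨a.1, a.2.1⟩

/-- an oriented edge is determined by its labels -/
lemma edge_tr (hF : F.Good) (hL : 16 ≤ L) {n m : N} {d : Fin 8} (h : F.nb n d = some m) {s : ℕ}
    (h1 : s < len L d) {u v : U} (ha : S.G.Adj u v) (eu : S.fc u = S.fc (S.pt n d s))
    (ev : S.fc v = S.fc (S.pt n d (s + 1))) :
    ∃ n' m', F.nb n' d = some m' ∧ u = S.pt n' d s ∧ v = S.pt n' d (s + 1) ∧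
      (s + 1 ≠ len L d → F.col n' = F.col n) ∧ (s ≠ 0 → F.col m' = F.col m) := by
  have hb := len_bd L d
  rcases s with _ | s
  · obtain ⟨n', rfl, c⟩ := S.fc_eq_node hF eu d
    obtain ⟨d', m', h', rfl⟩ := S.nbr_node hF ha
    have hb' := len_bd L d'
    rcases S.fc_same hL h h' (by omega) (by omega) (by omega) ev with a | a
    · obtain rfl := a.1
      exact ⟨n', m', h', rfl, rfl, fun _ => c, fun a => absurd rfl a⟩
    · omega
  · obtain ⟨n', m', h', rfl, c1, c2⟩ := S.fc_eq_int hL h (by omega) h1 eu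
    have hv : v = S.pt n' d (s + 2) := by
      rcases S.nbr_int h' h1 ha with a | rfl
      · exact a
      · exfalso
        by_cases c : s + 2 = len L d
        · have a1 := (S.mdl_pt h (s := s + 1 + 1) (by omega)).2 (Or.inr c)
          rw [← ev, S.mdl_pt h' (by omega)] at a1
          omega
        · rcases S.fc_same hL h h' (s := s + 1 + 1) (by omega) (by omega) (by omega) ev with a | a
          · omega
          · exact opp_ne d a.1.symm
    subst hv
    refine ⟨n', m', h', rfl, rfl, fun c => c1 (by omega), fun _ => ?_⟩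
    by_cases c : s + 1 = 1
    · rcases S.fc_same hL h h' (s := s + 1 + 1) (by omega) (by omega) (by omega) ev with a | a
      · exact a.2.2.2 (by omega)
      · exact absurd a.1.symm (opp_ne d)
    · exact c2 c

lemma two' (hF : F.Good) (hL : 16 ≤ L) (v a : U) (ha : S.G.Adj v a) : ∃ b, S.G.Adj v b ∧ b ≠ a := by
  obtain ⟨n, d, m, s, h, hs, rfl, rfl⟩ := (S.adj_iff _ _).1 ha
  have hb := len_bd L d
  rcases s with _ | s
  · obtain ⟨d', hv, m1, m2, z, -, h2, -⟩ := hF.part n d (by simp [h])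
    have hb' := len_bd L d'
    refine ⟨S.pt n d' (0 + 1), ?_, fun e => ?_⟩
    · rw [S.pt_zero n d d']
      exact S.adj_pt h2 (by omega)
    · rcases S.inj n d' m2 (0 + 1) n d m (0 + 1) h2 h (by omega) (by omega) (by omega) e with a | a
      · rw [a.2.1] at hv; tauto
      · omega
  · refine ⟨S.pt n d s, (S.adj_pt h (by omega)).symm, fun e => ?_⟩
    rcases Nat.eq_zero_or_pos s with rfl | c
    · have := S.pt_inj h (s := 0 + 1 + 1) (s' := 0) (by omega) (by omega) (by omega) e.symm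
      omega
    · have := S.pt_inj h c (by omega) (by omega) e
      omega

end Sub

/-- a non-backtracking path in the frame, with cumulative lengths -/
structure FP (F : Frame N Col) (L : ℕ) where
  nn : ℕ → N
  dd : ℕ → Fin 8
  T : ℕ → ℕ
  nb : ∀ j, F.nb (nn j) (dd j) = some (nn (j + 1))
  nbt : ∀ j, dd (j + 1) ≠ opp (dd j)
  T0 : T 0 = 0
  Ts : ∀ j, T (j + 1) = T j + len L (dd j)

namespace FP

variable (P : FP F L)

lemma T_ge (hL : 16 ≤ L) (j : ℕ) : j ≤ P.T j := by
  induction j with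
  | zero => omega
  | succ j ih => have := len_bd L (P.dd j); have := P.Ts j; omega

lemma T_mono {a b : ℕ} (h : a ≤ b) : P.T a + (b - a) * (L - 1) ≤ P.T b := by
  induction b, h using Nat.le_induction with
  | base => simp
  | succ b h ih =>
    have := len_bd L (P.dd b); have := P.Ts b
    rw [show b + 1 - a = b - a + 1 by omega, add_mul]
    omega

lemma exists_idx (hL : 16 ≤ L) (i : ℕ) : ∃ j, P.T j ≤ i ∧ i < P.T (j + 1) := by
  induction i with
  | zero =>
    have := len_bd L (P.dd 0); have := P.Ts 0; have := P.T0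
    exact ⟨0, by omega, by omega⟩
  | succ i ih =>
    obtain ⟨j, a, b⟩ := ih
    by_cases c : i + 1 < P.T (j + 1)
    · exact ⟨j, by omega, c⟩
    · have := len_bd L (P.dd (j + 1)); have := P.Ts (j + 1)
      exact ⟨j + 1, by omega, by omega⟩

/-- closed paths in the frame -/
lemma closed (hF : F.Good) {a b : ℕ} (hab : a < b) (hb : b ≤ a + 4) (e : P.nn a = P.nn b) :
    b = a + 4 ∧ P.dd (a + 2) = opp (P.dd a) ∧ P.dd (a + 3) = opp (P.dd (a + 1)) ∧
      (isV (P.dd a) ↔ ¬ isV (P.dd (a + 1))) := by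
  have h0 := P.nb a
  have h1 := P.nb (a + 1)
  have h2 := P.nb (a + 2)
  have h3 := P.nb (a + 3)
  obtain rfl | rfl | rfl | rfl : b = a + 1 ∨ b = a + 2 ∨ b = a + 3 ∨ b = a + 4 := by omega
  · rw [← e] at h0
    exact absurd h0 (hF.c1 _ _)
  · rw [show a + 1 + 1 = a + 2 from rfl, ← e] at h1
    have h4 := F.nb_opp _ _ _ h1
    have := hF.dbl _ _ _ _ ⟨_, _, rfl, rfl, h0⟩ ⟨_, _, rfl, rfl, h4⟩
    exact absurd (by rw [this, opp_opp]) (P.nbt a)
  · rw [show a + 2 + 1 = a + 3 from rfl, ← e] at h2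
    exact absurd h2 (hF.c3 _ _ _ _ _ _ h0 h1)
  · rw [show a + 3 + 1 = a + 4 from rfl, ← e] at h3
    exact ⟨rfl, hF.c4 _ _ _ _ _ _ _ _ h0 h1 h2 h3 (P.nbt a) (P.nbt (a + 1)) (P.nbt (a + 2))⟩

lemma closed' (hF : F.Good) (hL : 16 ≤ L) {a b : ℕ} (hab : a < b) (hb : P.T b ≤ P.T a + (4 * L - 2))
    (e : P.nn a = P.nn b) :
    b = a + 4 ∧ P.T b = P.T a + (4 * L - 2) ∧ P.dd (a + 2) = opp (P.dd a) ∧
      P.dd (a + 3) = opp (P.dd (a + 1)) ∧ (isV (P.dd a) ↔ ¬ isV (P.dd (a + 1))) := by
  have h5 : b ≤ a + 4 := by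
    by_contra c
    have h1 := P.T_mono (show a + 5 ≤ b by omega)
    have h2 := P.T_mono (show a ≤ a + 5 by omega)
    rw [show a + 5 - a = 5 by omega] at h2
    omega
  obtain ⟨rfl, h1, h2, h3⟩ := P.closed hF hab h5 e
  refine ⟨rfl, ?_, h1, h2, h3⟩
  have a0 := P.Ts a
  have a1 := P.Ts (a + 1)
  have a2 := P.Ts (a + 2)
  have a3 := P.Ts (a + 3)
  rw [h1, len_opp] at a2
  rw [h2, len_opp] at a3
  have := len_sq (L := L) (by omega) h3
  simp only [show a + 1 + 1 = a + 2 from rfl, show a + 2 + 1 = a + 3 from rfl,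
    show a + 3 + 1 = a + 4 from rfl] at *
  omega

lemma near (a k : ℕ) : Near F.adj k (P.nn a) (P.nn (a + k)) := by
  induction k with
  | zero => rfl
  | succ k ih => exact ih.step ⟨_, P.nb (a + k)⟩

end FP

namespace Sub

variable (S : Sub F L U)

/-- the walk `u` follows the path `P` from offset `s0` for `M` steps -/
def Fol (P : FP F L) (s0 : ℕ) (u : ℕ → U) (M : ℕ) : Prop :=
  ∀ j i, i ≤ M → P.T j ≤ s0 + i → s0 + i ≤ P.T (j + 1) →
    u i = S.pt (P.nn j) (P.dd j) (s0 + i - P.T j)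

/-- every path is followed by a non-backtracking walk -/
lemma exists_walk (hF : F.Good) (hL : 16 ≤ L) (P : FP F L) :
    ∃ w : ℕ → U, (∀ M, NBW S.G w M) ∧ ∀ M, S.Fol P 0 w M := by
  choose J hJ using P.exists_idx hL
  have key : ∀ j i, P.T j ≤ i → i ≤ P.T (j + 1) →
      S.pt (P.nn (J i)) (P.dd (J i)) (i - P.T (J i)) = S.pt (P.nn j) (P.dd j) (i - P.T j) := by
    intro j i a b
    obtain ⟨c, d⟩ := hJ i
    have m1 : ∀ x y, x ≤ y → P.T x ≤ P.T y := fun x y h => le_trans (by omega) (P.T_mono h)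
    have hj : j ≤ J i := by
      by_contra e
      have := m1 (J i + 1) j (by omega)
      omega
    rcases hj.eq_or_lt with e | e
    · rw [← e]
    · have h1 := m1 (j + 1) (J i) e
      have h2 : J i = j + 1 := by
        by_contra e'
        have := m1 (j + 1 + 1) (J i) (by omega)
        have := P.Ts (j + 1)
        have := len_bd L (P.dd (j + 1))
        omega
      have := P.Ts j
      rw [h2, show i - P.T (j + 1) = 0 by omega, show i - P.T j = len L (P.dd j) by omega,
        S.pt_len (P.nb j) (P.dd (j + 1))]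
  refine ⟨fun i => S.pt (P.nn (J i)) (P.dd (J i)) (i - P.T (J i)), fun M => ⟨fun i _ => ?_,
    fun i _ => ?_⟩, fun M j i _ a b => by simpa using key j i (by omega) (by omega)⟩
  · obtain ⟨c, d⟩ := hJ i
    have := P.Ts (J i)
    simp only
    rw [key (J i) (i + 1) (by omega) (by omega), show i + 1 - P.T (J i) = i - P.T (J i) + 1 by omega]
    exact S.adj_pt (P.nb _) (by omega)
  · obtain ⟨c, d⟩ := hJ i
    have h0 := P.Ts (J i)
    have hb := len_bd L (P.dd (J i))
    simp only
    by_cases e : i + 2 ≤ P.T (J i + 1)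
    · rw [key (J i) (i + 2) (by omega) e]
      intro e'
      rcases Nat.eq_zero_or_pos (i - P.T (J i)) with z | z
      · have := S.pt_inj (P.nb (J i)) (s := i + 2 - P.T (J i)) (by omega) (by omega) (by omega) e'
        omega
      · have := S.pt_inj (P.nb (J i)) z (by omega) (by omega) e'.symm
        omega
    · have h1 := P.Ts (J i + 1)
      have hb' := len_bd L (P.dd (J i + 1))
      rw [key (J i + 1) (i + 2) (by omega) (by omega)]
      intro e'
      rcases S.inj _ _ _ _ _ _ _ _ (P.nb (J i)) (P.nb (J i + 1)) (by omega) (by omega) (by omega)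
        e'.symm with a | a
      · omega
      · exact P.nbt _ a.2.1

/-- extension of a frame edge to a path -/
lemma exists_path (hF : F.Good) (L : ℕ) {n m : N} {d : Fin 8} (h : F.nb n d = some m) :
    ∃ P : FP F L, P.nn 0 = n ∧ P.dd 0 = d := by
  have step : ∀ p : {q : N × Fin 8 × N // F.nb q.1 q.2.1 = some q.2.2},
      ∃ q : {q : N × Fin 8 × N // F.nb q.1 q.2.1 = some q.2.2},
        q.1.1 = p.1.2.2 ∧ q.1.2.1 ≠ opp p.1.2.1 := by
    rintro ⟨⟨n, d, m⟩, h⟩
    have h' := F.nb_opp _ _ _ h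
    obtain ⟨d', hv, m1, m2, z, -, h2, -⟩ := hF.part m (opp d) (by simp [h'])
    refine ⟨⟨(m, d', m2), h2⟩, rfl, fun e => ?_⟩
    simp only at e
    rw [e] at hv
    tauto
  choose f hf using step
  let q : ℕ → {q : N × Fin 8 × N // F.nb q.1 q.2.1 = some q.2.2} := fun j => f^[j] ⟨(n, d, m), h⟩
  have hq : ∀ j, q (j + 1) = f (q j) := fun j => Function.iterate_succ_apply' f j _
  refine ⟨⟨fun j => (q j).1.1, fun j => (q j).1.2.1,
    fun j => ∑ k ∈ Finset.range j, len L (q k).1.2.1, fun j => ?_, fun j => ?_, by simp,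
    fun j => Finset.sum_range_succ _ _⟩, rfl, rfl⟩
  · rw [hq, (hf _).1]; exact (q j).2
  · rw [hq]; exact (hf _).2

/-- prepending an edge to a path -/
def _root_.Pool.Agent.H655Z.TD.FP.cons (P : FP F L) (n : N) (d : Fin 8) (h : F.nb n d = some (P.nn 0))
    (h' : P.dd 0 ≠ opp d) : FP F L where
  nn := fun j => match j with
    | 0 => n
    | j + 1 => P.nn j
  dd := fun j => match j with
    | 0 => d
    | j + 1 => P.dd j
  T := fun j => match j with
    | 0 => 0
    | j + 1 => len L d + P.T j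
  nb := fun j => match j with
    | 0 => h
    | j + 1 => P.nb j
  nbt := fun j => match j with
    | 0 => h'
    | j + 1 => P.nbt j
  T0 := rfl
  Ts := fun j => match j with
    | 0 => by simp [P.T0]
    | j + 1 => by simp only [P.Ts j]; omega

lemma along {n m : N} {d : Fin 8} (h : F.nb n d = some m) {s M : ℕ} {u : ℕ → U}
    (hu : NBW S.G u M) (hM : 1 ≤ M) (e0 : u 0 = S.pt n d s) (e1 : u 1 = S.pt n d (s + 1)) :
    ∀ k, s + k ≤ len L d → k ≤ M → u k = S.pt n d (s + k) := by
  have key : ∀ k, s + (k + 1) ≤ len L d → k + 1 ≤ M →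
      u k = S.pt n d (s + k) ∧ u (k + 1) = S.pt n d (s + (k + 1)) := by
    intro k
    induction k with
    | zero => exact fun _ _ => ⟨e0, e1⟩
    | succ k ih =>
      intro a b
      obtain ⟨c1, c2⟩ := ih (by omega) (by omega)
      refine ⟨c2, ?_⟩
      have ha := hu.1 (k + 1) (by omega)
      rw [c2] at ha
      rcases S.nbr_int h (s := s + k) (by omega) ha with z | z
      · exact z
      · exact absurd (z.trans c1.symm) (hu.2 k (by omega))
  intro k a b
  rcases k with _ | k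
  · exact e0
  · exact (key k a b).2

/-- every non-backtracking walk follows a path -/
lemma exists_fol (hF : F.Good) (hL : 16 ≤ L) : ∀ (M : ℕ) {n m : N} {d : Fin 8} {s : ℕ} {u : ℕ → U},
    F.nb n d = some m → s < len L d → NBW S.G u M → 1 ≤ M → u 0 = S.pt n d s →
      u 1 = S.pt n d (s + 1) → ∃ P : FP F L, P.nn 0 = n ∧ P.dd 0 = d ∧ S.Fol P s u M := by
  intro M
  induction M using Nat.strong_induction_on with
  | _ M ih =>
  intro n m d s u h hs hu hM e0 e1
  have hal := S.along h hu hM e0 e1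
  by_cases c : s + M ≤ len L d
  · obtain ⟨P, rfl, rfl⟩ := exists_path hF L h
    refine ⟨P, rfl, rfl, fun j i hi a b => ?_⟩
    have t0 := P.T0
    have t1 := P.Ts 0
    rcases j with _ | j
    · rw [t0]; exact hal i (by omega) hi
    · have h1 := P.T_mono (show 1 ≤ j + 1 by omega)
      simp only [zero_add] at t1
      obtain rfl : j = 0 := by
        by_contra e
        have h2 := P.T_mono (show 1 ≤ 2 by omega)
        have h3 := P.T_mono (show 2 ≤ j + 1 by omega)
        omega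
      simp only [zero_add] at *
      rw [hal i (by omega) hi, show s + i = len L (P.dd 0) by omega,
        show len L (P.dd 0) - P.T 1 = 0 by omega]
      exact S.pt_len (P.nb 0) _
  · have r0 : u (len L d - s) = S.pt m d 0 := by
      rw [hal _ (by omega) (by omega), show s + (len L d - s) = len L d by omega]
      exact S.pt_len h _
    have ha := hu.1 (len L d - s) (by omega)
    rw [r0] at ha
    obtain ⟨d', m', h', r1⟩ := S.nbr_node hF ha
    have hb' := len_bd L d'
    have hne : d' ≠ opp d := by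
      rintro rfl
      refine hu.2 (len L d - s - 1) (by omega) ?_
      rw [show len L d - s - 1 + 2 = len L d - s + 1 by omega, r1, hal _ (by omega) (by omega),
        S.pt_rev n d m _ h (by omega)]
      congr 1
      omega
    obtain ⟨P, p1, p2, p3⟩ := ih (M - (len L d - s)) (by omega) (s := 0) h' (by omega)
      (hu.shift (len L d - s)) (by omega) (by simpa [S.pt_zero m d d'] using r0)
      (by simpa using r1)
    refine ⟨P.cons n d (by rw [p1]; exact h) (by rw [p2]; exact hne), rfl, rfl,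
      fun j i hi a b => ?_⟩
    rcases j with _ | j
    · simp only [FP.cons, P.T0] at a b ⊢
      exact hal i (by omega) hi
    · simp only [FP.cons] at a b ⊢
      have := p3 j (i - (len L d - s)) (by omega) (by omega) (by omega)
      simp only at this
      rw [show len L d - s + (i - (len L d - s)) = i by omega] at this
      rw [this]
      congr 1
      omega

lemma exists_fol' (hF : F.Good) (hL : 16 ≤ L) {M : ℕ} {u : ℕ → U} (hu : NBW S.G u M) (hM : 1 ≤ M) :
    ∃ (P : FP F L) (s : ℕ), s < len L (P.dd 0) ∧ S.Fol P s u M := by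
  obtain ⟨n, d, m, s, h, hs, e0, e1⟩ := (S.adj_iff _ _).1 (hu.1 0 (by omega))
  obtain ⟨P, -, rfl, p⟩ := S.exists_fol hF hL M h hs hu hM e0 e1
  exact ⟨P, s, hs, p⟩

/-- closed walks of length at most `4 L - 2` go around a square -/
lemma closed_sq (hF : F.Good) (hL : 16 ≤ L) {M s : ℕ} {u : ℕ → U} {P : FP F L}
    (hs : s < len L (P.dd 0)) (hf : S.Fol P s u M) (h0 : 0 < M) (hM : M ≤ 4 * L - 2)
    (e : u 0 = u M) : M = 4 * L - 2 ∧ P.nn 0 = P.nn 4 ∧ P.dd 2 = opp (P.dd 0) ∧
      P.dd 3 = opp (P.dd 1) ∧ (isV (P.dd 0) ↔ ¬ isV (P.dd 1)) := by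
  obtain ⟨j, a, b⟩ := P.exists_idx hL (s + M)
  have t0 := P.T0
  have t1 := P.Ts 0
  have tj := P.Ts j
  simp only [zero_add] at t1
  have e0 := hf 0 0 (by omega) (by omega) (by simp only [zero_add]; omega)
  have e1 := hf j M le_rfl a b.le
  rw [e0, e1, t0, add_zero, Nat.sub_zero] at e
  have main : P.nn j = P.nn 0 → P.T j = M → M = 4 * L - 2 ∧ P.nn 0 = P.nn 4 ∧
      P.dd 2 = opp (P.dd 0) ∧ P.dd 3 = opp (P.dd 1) ∧ (isV (P.dd 0) ↔ ¬ isV (P.dd 1)) := by
    intro c1 c2
    have hj : 0 < j := by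
      rcases j with _ | j
      · omega
      · omega
    obtain ⟨rfl, d2, d3⟩ := P.closed' hF hL hj (by omega) c1.symm
    exact ⟨by omega, c1.symm, d3⟩
  rcases Nat.eq_zero_or_pos s with rfl | hs0
  · rcases Nat.eq_zero_or_pos (0 + M - P.T j) with z | z
    · rw [z] at e
      exact main (S.inj0 _ _ _ _ e).symm (by omega)
    · exact absurd e.symm (S.node_ne hF (P.nb j) z (by omega))
  · rcases S.inj _ _ _ _ _ _ _ _ (P.nb 0) (P.nb j) hs0 hs (by omega) e with c | c
    · exact main c.1 (by omega)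
    · exfalso
      rcases j with _ | _ | j
      · exact opp_ne _ c.2.1.symm
      · exact P.nbt 0 c.2.1
      · have := (P.closed' hF hL (a := 1) (b := j + 1 + 1) (by omega) (by omega) c.1.symm).2.1
        omega

theorem girth' (hF : F.Good) (hL : 16 ≤ L) : NoClosed S.G (4 * L - 2) := by
  intro u M hu h0 hM e
  obtain ⟨P, s, hs, hf⟩ := S.exists_fol' hF hL hu h0
  have := (S.closed_sq hF hL hs hf h0 hM.le e).1
  omega

end Sub

end Pool.Agent.H655Z.TD
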