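import Pool.Agent.H655Z.TD.CoreA2

/-! Squares, labels and the core system of a subdivided frame. -/

set_option autoImplicit false

namespace Pool.Agent.H655Z.TD

open Pool.Agent.H431Z.LD

variable {N Col U : Type} {F : Frame N Col} {L : ℕ}

/-- the path around a square -/
lemma exists_sq_path (hF : F.Good) (L : ℕ) {n0 n1 : N} {d0 d1 : Fin 8} (h0 : F.nb n0 d0 = some n1)
    (h1 : F.Sq n1 (opp d0) d1) : ∃ P : FP F L, P.nn 0 = n0 ∧ P.nn 1 = n1 ∧ P.dd 0 = d0 ∧
      P.dd 1 = d1 ∧ P.dd 2 = opp d0 ∧ P.dd 3 = opp d1 ∧ P.nn 4 = n0 ∧ P.dd 4 = d0 := by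
  obtain ⟨hv, m1, n2, z, a1, a2, a3, a4⟩ := h1
  have e := F.nb_opp _ _ _ h0
  rw [a1] at e
  obtain rfl := Option.some.inj e
  rw [isV_opp] at hv
  obtain ⟨P, p1, p2⟩ := Sub.exists_path hF L h0
  have b1 : d0 ≠ d1 := fun c => by rw [c] at hv; tauto
  have b2 : d1 ≠ opp d0 := fun c => by rw [c, isV_opp] at hv; tauto
  let P3 := P.cons z (opp d1) (by rw [p1]; exact F.nb_opp _ _ _ a3) (by rw [p2, opp_opp]; exact b1)
  let P2 := P3.cons n2 (opp d0) a4 (by
    show opp d1 ≠ opp (opp d0)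
    exact fun c => b2 (opp_inj c))
  let P1 := P2.cons n1 d1 a2 (by
    show opp d0 ≠ opp d1
    exact fun c => b1 (opp_inj c))
  exact ⟨P1.cons m1 d0 h0 b2, rfl, rfl, rfl, rfl, rfl, rfl, p1, p2⟩

namespace Sub

variable (S : Sub F L U)

/-- walking along a square -/
lemma arc' (hF : F.Good) (hL : 16 ≤ L) {n0 n1 : N} {d0 d1 : Fin 8} {s0 : ℕ}
    (h0 : F.nb n0 d0 = some n1) (h1 : F.Sq n1 (opp d0) d1) (hs : s0 < len L d0) :
    ∃ (P : FP F L) (u : ℕ → U), P.nn 0 = n0 ∧ P.nn 1 = n1 ∧ P.dd 0 = d0 ∧ P.dd 1 = d1 ∧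
      P.dd 2 = opp d0 ∧ NBW S.G u (2 * L - 2) ∧ S.Fol P s0 u (2 * L - 2) ∧
      ∃ z, Ex S.G L (u 0) z ∧ Ex S.G L (u (2 * L - 2)) z := by
  obtain ⟨P, p0, p1, q0, q1, q2, q3, p4, q4⟩ := exists_sq_path hF L h0 h1
  obtain ⟨w, hw, hf⟩ := S.exists_walk hF hL P
  have hg := S.girth' hF hL
  have hl := len_sq (L := L) (by omega) h1.1
  rw [len_opp] at hl
  have t0 := P.T0
  have t1 := P.Ts 0
  have t2 := P.Ts 1
  have t3 := P.Ts 2
  have t4 := P.Ts 3
  have t5 := P.Ts 4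
  rw [q0] at t1
  rw [q1] at t2
  rw [q2, len_opp] at t3
  rw [q3, len_opp] at t4
  rw [q4] at t5
  simp only [Nat.reduceAdd] at t1 t2 t3 t4 t5
  have cl : w (s0 + (4 * L - 2)) = w s0 := by
    rw [hf _ 4 _ le_rfl (by omega) (by simp only [Nat.reduceAdd]; omega),
      hf _ 0 _ le_rfl (by omega) (by simp only [Nat.reduceAdd]; omega), p4, q4, p0, q0]
    congr 1
    omega
  refine ⟨P, fun i => w (s0 + i), p0, p1, q0, q1, q2, ?_, fun j i hi a b => ?_,
    w (s0 + (2 * L - 2) + L), ?_, ?_⟩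
  · simpa using (hw (s0 + (2 * L - 2))).shift s0
  · simpa using hf _ j (s0 + i) le_rfl (by omega) (by omega)
  · have a := (hw (s0 + (2 * L - 2) + L + L)).shift (s0 + (2 * L - 2) + L)
    rw [show s0 + (2 * L - 2) + L + L - (s0 + (2 * L - 2) + L) = L by omega] at a
    have b := (a.ex hg (by omega)).symm
    simp only [add_zero] at b ⊢
    rwa [show s0 + (2 * L - 2) + L + L = s0 + (4 * L - 2) by omega, cl] at b
  · have a := (hw (s0 + (2 * L - 2) + L)).shift (s0 + (2 * L - 2))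
    rw [show s0 + (2 * L - 2) + L - (s0 + (2 * L - 2)) = L by omega] at a
    simpa using a.ex hg (by omega)

/-- `x` lies on an edge at the node `a` -/
def On (x : U) (a : N) : Prop := ∃ d m s, F.nb a d = some m ∧ s ≤ len L d ∧ x = S.pt a d s

lemma fsymm {k : ℕ} {a b : N} (h : Near F.adj k a b) : Near F.adj k b a :=
  h.symm fun _ _ ⟨_, c⟩ => ⟨_, F.nb_opp _ _ _ c⟩

lemma fone {a b : N} {d : Fin 8} (h : F.nb a d = some b) : Near F.adj 1 a b :=
  (Near.refl 0 a).step ⟨d, h⟩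

lemma on_near (hF : F.Good) {x : U} {a b : N} (ha : S.On x a) (hb : S.On x b) :
    Near F.adj 2 a b := by
  have key : ∀ {x : U} {a c : N} {e : Fin 8}, S.On x a → x = S.pt c e 0 → Near F.adj 1 a c := by
    rintro x a c e ⟨d, m, s, h, hs, rfl⟩ h2
    rcases Nat.eq_zero_or_pos s with rfl | c0
    · obtain rfl := S.inj0 _ _ _ _ h2
      exact Near.refl _ _
    · rcases hs.eq_or_lt with rfl | c1
      · rw [S.pt_len h e] at h2
        obtain rfl := S.inj0 _ _ _ _ h2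
        exact fone h
      · exact absurd h2 (S.node_ne hF h c0 c1)
  obtain ⟨d, m, s, h, hs, rfl⟩ := ha
  rcases Nat.eq_zero_or_pos s with rfl | c0
  · exact (fsymm (key hb rfl)).succ
  · rcases hs.eq_or_lt with rfl | c1
    · exact (fone h).trans (fsymm (key hb (S.pt_len h d)))
    · obtain ⟨d', m', s', h', hs', e⟩ := hb
      rcases S.inj _ _ _ _ _ _ _ _ h h' c0 c1 hs' e with c | c
      · rw [c.1]; exact Near.refl _ _
      · rw [c.1]; exact (fone h).succ

lemma on_rev {n m : N} {d : Fin 8} (h : F.nb n d = some m) {s : ℕ} (hs : s ≤ len L d) :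
    S.On (S.pt n d s) m :=
  ⟨opp d, n, len L d - s, F.nb_opp _ _ _ h, by rw [len_opp]; omega, S.pt_rev _ _ _ _ h hs⟩

lemma on_zero (hF : F.Good) (n : N) (d : Fin 8) : S.On (S.pt n d 0) n := by
  obtain ⟨d'', hd⟩ := hF.ex n
  obtain ⟨m', hm⟩ := Option.isSome_iff_exists.1 hd
  exact ⟨d'', m', 0, hm, Nat.zero_le _, S.pt_zero _ _ _⟩

lemma near_nodes (hF : F.Good) (hL : 16 ≤ L) {x y : U} {a b : N} (h : Near S.G.Adj (4 * L) x y)
    (ha : S.On x a) (hb : S.On y b) : Near F.adj 8 a b := by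
  obtain ⟨k, hk, e⟩ := exists_ex h
  obtain ⟨u, hu, rfl, rfl, -⟩ := e.walk
  rcases Nat.eq_zero_or_pos k with rfl | k0
  · exact (S.on_near hF ha hb).mono (by omega)
  obtain ⟨P, s, hs, hf⟩ := S.exists_fol' hF hL hu k0
  obtain ⟨j, c1, c2⟩ := P.exists_idx hL (s + k)
  have t0 := P.T0
  have t1 := P.Ts 0
  have tj := P.Ts j
  simp only [zero_add] at t1
  have e0 := hf 0 0 (by omega) (by omega) (by simp only [zero_add]; omega)
  have e1 := hf j k le_rfl c1 c2.le
  have o0 : S.On (u 0) (P.nn 1) := by rw [e0]; exact S.on_rev (P.nb 0) (by omega)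
  have o1 : S.On (u k) (P.nn j) := ⟨_, _, _, P.nb j, by omega, e1⟩
  have n1 : Near F.adj 4 (P.nn 1) (P.nn j) := by
    rcases j with _ | j
    · exact (fsymm (fone (P.nb 0))).mono (by omega)
    · have hj : j ≤ 4 := by
        by_contra c
        have h1 := P.T_mono (show 1 + 5 ≤ j + 1 by omega)
        have h2 := P.T_mono (show 1 ≤ 1 + 5 by omega)
        rw [show 1 + 5 - 1 = 5 by omega] at h2
        omega
      have := P.near 1 j
      rw [add_comm 1 j] at this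
      exact this.mono hj
  exact ((S.on_near hF ha o0).trans n1).trans (S.on_near hF o1 hb)

lemma node_eq (hF : F.Good) (hL : 16 ≤ L) {x y : U} {a b : N} (h : Near S.G.Adj (4 * L) x y)
    (ha : S.On x a) (hb : S.On y b) (e : F.col a = F.col b) : a = b :=
  hF.inj _ _ (S.near_nodes hF hL h ha hb) e

lemma nb_inj {n n' m : N} {d : Fin 8} (h : F.nb n d = some m) (h' : F.nb n' d = some m) : n = n' := by
  have a := F.nb_opp _ _ _ h
  rw [F.nb_opp _ _ _ h'] at a
  exact (Option.some.inj a).symm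

lemma inj' (hF : F.Good) (hL : 16 ≤ L) (u v : U) (h : Near S.G.Adj (4 * L) u v)
    (e : S.fc u = S.fc v) : u = v := by
  obtain ⟨n, d, m, s, h0, hs, rfl⟩ := S.surj v
  have hb := len_bd L d
  rcases Nat.eq_zero_or_pos s with rfl | c0
  · obtain ⟨n', rfl, c⟩ := S.fc_eq_node hF e d
    rw [S.node_eq hF hL h (S.on_zero hF _ _) (S.on_zero hF _ _) c]
  · obtain ⟨n', m', h', rfl, c1, c2⟩ := S.fc_eq_int hL h0 c0 hs e
    by_cases c : s = 1
    · rw [S.node_eq hF hL h ⟨_, _, _, h', hs.le, rfl⟩ ⟨_, _, _, h0, hs.le, rfl⟩ (c1 (by omega))]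
    · obtain rfl := S.node_eq hF hL h (S.on_rev h' hs.le) (S.on_rev h0 hs.le) (c2 c)
      rw [nb_inj h' h0]

lemma adj' (hF : F.Good) (hL : 16 ≤ L) (u v u1 v1 : U) (ha : S.G.Adj u1 v1) (eu : S.fc u = S.fc u1)
    (ev : S.fc v = S.fc v1) (h : Near S.G.Adj (4 * L) u v) : S.G.Adj u v := by
  have key : ∀ {u v : U} {n m : N} {d : Fin 8} {s : ℕ}, F.nb n d = some m → s + 2 < len L d →
      S.fc u = S.fc (S.pt n d s) → S.fc v = S.fc (S.pt n d (s + 1)) → Near S.G.Adj (4 * L) u v →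
      S.G.Adj u v := by
    intro u v n m d s h0 hs eu ev h
    obtain ⟨n2, m2, h2, rfl, c2, -⟩ := S.fc_eq_int hL h0 (by omega) (by omega) ev
    rcases Nat.eq_zero_or_pos s with rfl | c0
    · obtain ⟨n1, rfl, c1⟩ := S.fc_eq_node hF eu d
      obtain rfl := S.node_eq hF hL h (S.on_zero hF _ _) ⟨_, _, _, h2, by omega, rfl⟩
        (c1.trans (c2 (by omega)).symm)
      exact S.adj_pt h2 (by omega)
    · obtain ⟨n1, m1, h1, rfl, c1, -⟩ := S.fc_eq_int hL h0 c0 (by omega) eu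
      obtain rfl := S.node_eq hF hL h ⟨_, _, _, h1, by omega, rfl⟩ ⟨_, _, _, h2, by omega, rfl⟩
        ((c1 (by omega)).trans (c2 (by omega)).symm)
      exact S.adj_pt h2 (by omega)
  obtain ⟨n, d, m, s, h0, hs, rfl, rfl⟩ := (S.adj_iff _ _).1 ha
  have hb := len_bd L d
  by_cases c : s + 2 < len L d
  · exact key h0 c eu ev h
  · rw [S.pt_rev _ _ _ _ h0 hs.le, show len L d - s = len L d - (s + 1) + 1 by omega] at eu
    rw [S.pt_rev _ _ _ _ h0 (show s + 1 ≤ _ by omega)] at ev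
    exact (key (F.nb_opp _ _ _ h0) (by rw [len_opp]; omega) ev eu (nsymm h)).symm

lemma det' (hF : F.Good) (hL : 16 ≤ L) (u v u' v' x : U) (ha : S.G.Adj u v) (ha' : S.G.Adj u' v')
    (eu : S.fc u = S.fc u') (ev : S.fc v = S.fc v') (hm : ¬ mdl0 (S.fc u)) (hx : S.G.Adj v x) :
    ∃ x', S.G.Adj v' x' ∧ S.fc x' = S.fc x := by
  obtain ⟨n, d, m, s, h0, hs, rfl, rfl⟩ := (S.adj_iff _ _).1 ha
  rw [S.mdl_pt h0 hs.le] at hm
  obtain ⟨n', m', h', rfl, rfl, c1, c2⟩ := S.edge_tr hF hL h0 hs ha' eu.symm ev.symm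
  have c2' := c2 (by omega)
  by_cases c : s + 1 = len L d
  · rw [c, S.pt_len h0 d] at hx
    obtain ⟨e, k, he, rfl⟩ := S.nbr_node hF hx
    obtain ⟨k', hk'⟩ := Option.isSome_iff_exists.1 (hF.pres m m' e c2'.symm (by simp [he]))
    have hb := len_bd L e
    refine ⟨S.pt m' e (0 + 1), ?_, ?_⟩
    · rw [c, S.pt_len h' e]
      exact S.adj_pt hk' (by omega)
    · rw [S.fc_pt _ _ _ _ hk' (by omega), S.fc_pt _ _ _ _ he (by omega), c2']
      unfold lab
      rw [if_neg (by omega), if_neg (by omega), if_pos rfl, if_neg (by omega), if_neg (by omega),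
        if_pos rfl]
  · rcases S.nbr_int h0 (by omega) hx with rfl | rfl
    · refine ⟨S.pt n' d (s + 1 + 1), S.adj_pt h' (by omega), ?_⟩
      rw [S.fc_pt _ _ _ _ h' (by omega), S.fc_pt _ _ _ _ h0 (by omega), c1 c, c2']
    · exact ⟨_, ha'.symm, eu.symm⟩

lemma two'' (v a b c : U) (hm : ¬ mdl0 (S.fc v)) (ha : S.G.Adj v a) (hb : S.G.Adj v b)
    (hc : S.G.Adj v c) : a = b ∨ a = c ∨ b = c := by
  obtain ⟨n, d, m, s, h0, hs, rfl⟩ := S.surj v
  rw [S.mdl_pt h0 hs.le] at hm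
  obtain ⟨s, rfl⟩ : ∃ t, s = t + 1 := ⟨s - 1, by omega⟩
  rcases S.nbr_int h0 hs ha with rfl | rfl <;> rcases S.nbr_int h0 hs hb with rfl | rfl <;>
    rcases S.nbr_int h0 hs hc with rfl | rfl <;> simp

lemma mm' (hL : 16 ≤ L) (u v : U) (ha : S.G.Adj u v) (hu : mdl0 (S.fc u)) : ¬ mdl0 (S.fc v) := by
  obtain ⟨n, d, m, s, h0, hs, rfl, rfl⟩ := (S.adj_iff _ _).1 ha
  have hb := len_bd L d
  rw [S.mdl_pt h0 hs.le] at hu
  rw [S.mdl_pt h0 (by omega)]
  omega

lemma det_of (hF : F.Good) (hL : 16 ≤ L) {n m : N} {d : Fin 8} (h : F.nb n d = some m) {s : ℕ}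
    (hs : s < len L d) (hr : len L d - s ≤ L - 6 ∨ L - 2 ≤ len L d - s) :
    Det S.G S.fc mdl0 L (S.pt n d s) (S.pt n d (s + 1)) := by
  intro u M hu e0 e1 i hi hi2 hm
  obtain ⟨P, rfl, rfl, hf⟩ := S.exists_fol hF hL M h hs hu (by omega) e0 e1
  obtain ⟨j, c1, c2⟩ := P.exists_idx hL (s + i)
  have tj := P.Ts j
  rw [hf j i hi c1 c2.le, S.mdl_pt (P.nb j) (by omega)] at hm
  have t0 := P.T0
  have t1 := P.Ts 0
  have t2 := P.Ts 1
  have b0 := len_bd L (P.dd 0)
  have b1 := len_bd L (P.dd 1)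
  simp only [Nat.reduceAdd] at t1 t2
  rcases j with _ | _ | _ | j
  · omega
  · simp only [Nat.reduceAdd] at *; omega
  · simp only [Nat.reduceAdd] at *; omega
  · have h1 := P.T_mono (show 3 ≤ j + 1 + 1 + 1 by omega)
    have h2 := P.T_mono (show 1 ≤ 3 by omega)
    rw [show 3 - 1 = 2 by omega] at h2
    omega

lemma un_of (hF : F.Good) (hL : 16 ≤ L) {n m : N} {d : Fin 8} (h : F.nb n d = some m) {s : ℕ}
    (hs : s ≤ L - 6) : Un S.G S.fc mdl0 L (S.fc (S.pt n d s)) (S.fc (S.pt n d (s + 1))) := by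
  intro w p ha ew ep q hq hne
  have hb := len_bd L d
  obtain ⟨n', m', h', rfl, rfl, -⟩ := S.edge_tr hF hL h (by omega) ha ew ep
  rcases s with _ | s
  · obtain ⟨e, k, he, rfl⟩ := S.nbr_node hF hq
    have hb' := len_bd L e
    rw [S.pt_zero n' d e]
    exact S.det_of hF hL he (s := 0) (by omega) (by omega)
  · rcases S.nbr_int h' (by omega) hq with rfl | rfl
    · exact absurd rfl hne
    · rw [S.pt_rev _ _ _ _ h' (show s + 1 ≤ _ by omega), S.pt_rev _ _ _ _ h' (show s ≤ _ by omega),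
        show len L d - s = len L d - (s + 1) + 1 by omega]
      exact S.det_of hF hL (F.nb_opp _ _ _ h') (by rw [len_opp]; omega) (by rw [len_opp]; omega)

lemma un2' (hF : F.Good) (hL : 16 ≤ L) (w p : U) (ha : S.G.Adj w p) :
    Un S.G S.fc mdl0 L (S.fc w) (S.fc p) ∨ Un S.G S.fc mdl0 L (S.fc p) (S.fc w) := by
  obtain ⟨n, d, m, s, h0, hs, rfl, rfl⟩ := (S.adj_iff _ _).1 ha
  have hb := len_bd L d
  by_cases c : s ≤ L - 6
  · exact Or.inl (S.un_of hF hL h0 c)
  · right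
    rw [S.pt_rev _ _ _ _ h0 (show s + 1 ≤ _ by omega), S.pt_rev _ _ _ _ h0 hs.le,
      show len L d - s = len L d - (s + 1) + 1 by omega]
    exact S.un_of hF hL (F.nb_opp _ _ _ h0) (by omega)

lemma un1' (hF : F.Good) (hL : 16 ≤ L) (w : U) :
    ∃ p, S.G.Adj w p ∧ Un S.G S.fc mdl0 L (S.fc w) (S.fc p) := by
  obtain ⟨n, d, m, s, h0, hs, rfl⟩ := S.surj w
  have hb := len_bd L d
  by_cases c : s ≤ L - 6
  · exact ⟨_, S.adj_pt h0 hs, S.un_of hF hL h0 c⟩
  · rw [S.pt_rev _ _ _ _ h0 hs.le]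
    exact ⟨_, S.adj_pt (F.nb_opp _ _ _ h0) (by rw [len_opp]; omega),
      S.un_of hF hL (F.nb_opp _ _ _ h0) (by omega)⟩

/-- a point at distance `L - 1` from both ends of an arc is its midpoint -/
lemma mid (hF : F.Good) (hL : 16 ≤ L) {u : ℕ → U} (hu : NBW S.G u (2 * L - 2)) {μ : U}
    (h1 : Near S.G.Adj (L - 1) (u 0) μ) (h2 : Near S.G.Adj (L - 1) (u (2 * L - 2)) μ) :
    μ = u (L - 1) := by
  have hg := S.girth' hF hL
  have hx := hu.ex hg (by omega)
  have e1 : Ex S.G (L - 1) (u 0) μ :=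
    ⟨h1, fun m hm => by have := hx.2 _ (hm.trans (nsymm h2)); omega⟩
  have e2 : Ex S.G (L - 1) μ (u (2 * L - 2)) :=
    ⟨nsymm h2, fun m hm => by have := hx.2 _ (h1.trans hm); omega⟩
  obtain ⟨α, a1, a2, a3, a4⟩ := e1.walk
  obtain ⟨β, b1, b2, b3, b4⟩ := e2.walk
  have hw := a1.append b1 (a3.trans b2.symm) (fun _ _ e => by
    have c1 := (a4 (L - 1 - 1) (by omega)).1.1
    have c2 := (b4 1 (by omega)).2.1
    rw [e] at c2
    have := hx.2 _ (c1.trans c2)
    omega)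
  have := (nbu hg _ hu hw (by simp [a2]) (by
    rw [if_neg (by omega), ← b3]
    congr 1
    omega) (by omega)).2 (L - 1) (by omega)
  simp only [le_refl, if_true] at this
  rw [this, a3]

lemma zc' (hF : F.Good) (hL : 16 ≤ L) (u u' : ℕ → U) (hu : NBW S.G u (2 * L - 2))
    (hu' : NBW S.G u' (2 * L - 2))
    (hl : ∀ i, 1 ≤ i → i ≤ 2 * L - 2 → S.fc (u i) = S.fc (u' i))
    (h0 : S.fc (u 0) = S.fc (u' 0) ∨ mdl0 (S.fc (u 2)))
    (hz : Zc S.G S.fc mdl0 L (u 0) (u (2 * L - 2))) :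
    Zc S.G S.fc mdl0 L (u' 0) (u' (2 * L - 2)) := by
  have hg := S.girth' hF hL
  have caseB : mdl0 (S.fc (u (L - 1))) → Zc S.G S.fc mdl0 L (u' 0) (u' (2 * L - 2)) := by
    intro hm
    rw [hl _ (by omega) (by omega)] at hm
    refine Or.inr ⟨_, hm, by simpa using hu'.near (Nat.zero_le (L - 1)) (by omega), ?_⟩
    have := hu'.near (i := L - 1) (j := 2 * L - 2) (by omega) le_rfl
    rw [show 2 * L - 2 - (L - 1) = L - 1 by omega] at this
    exact nsymm this
  rcases hz with ⟨z, z1, z2⟩ | ⟨μ, m0, m1, m2⟩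
  swap
  · exact caseB (S.mid hF hL hu m1 m2 ▸ m0)
  obtain ⟨α, a1, a2, a3, a4⟩ := z2.walk
  obtain ⟨β, b1, b2, b3, b4⟩ := z1.symm.walk
  by_cases c : β 1 = α (L - 1)
  · have c1 := (a4 (L - 1) (by omega)).1.1
    have c2 := (b4 1 (by omega)).2.1
    rw [c] at c2
    have hm := S.mid hF hL hu (nsymm c2) c1
    apply caseB
    by_contra hn
    have d1 : S.G.Adj (u (L - 1)) z := by
      have := a1.1 (L - 1) (by omega)
      rwa [hm, show L - 1 + 1 = L by omega, a3] at this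
    have d2 : S.G.Adj (u (L - 1)) (u (L - 2)) := by
      have := (hu.1 (L - 2) (by omega)).symm
      rwa [show L - 2 + 1 = L - 1 by omega] at this
    have d3 : S.G.Adj (u (L - 1)) (u L) := by
      have := hu.1 (L - 1) (by omega)
      rwa [show L - 1 + 1 = L by omega] at this
    rcases S.two'' _ _ _ _ hn d1 d2 d3 with e | e | e
    · have := z1.2 _ (e ▸ hu.near (Nat.zero_le (L - 2)) (by omega))
      omega
    · have := z2.2 _ (e ▸ nsymm (hu.near (i := L) (j := 2 * L - 2) (by omega) le_rfl))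
      omega
    · have := hu.2 (L - 2) (by omega)
      rw [show L - 2 + 2 = L by omega] at this
      exact this e.symm
  have hγ := a1.append b1 (a3.trans b2.symm) (fun _ _ => c)
  set γ : ℕ → U := fun i => if i ≤ L then α i else β (i - L) with hγd
  have g0 : γ 0 = u (2 * L - 2) := by simp [hγd, a2]
  have g1 : γ (L + L) = u 0 := by
    simp only [hγd]
    rw [if_neg (by omega), ← b3]
    congr 1
    omega
  have g2 : γ 1 ≠ u (2 * L - 2 - 1) := by
    intro e
    have := (nbu hg _ (hγ.shift 1) (hu.rev.shift 1) (by simpa using e) (by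
      rw [show 1 + (L + L - 1) = L + L by omega, g1]
      congr 1
      omega) (by omega)).1
    omega
  have hc := hu.append hγ g0.symm (fun _ _ => g2)
  obtain ⟨P, s, hs, hf⟩ := S.exists_fol' hF hL hc (by omega)
  obtain ⟨-, q0, q2, q3, hv⟩ := S.closed_sq hF hL hs hf (by omega) (by omega) (by
    simp only [Nat.zero_le, if_true]
    rw [if_neg (by omega), ← g1]
    congr 1
    omega)
  have hf' : S.Fol P s u (2 * L - 2) := fun j i hi a b => by
    have := hf j i (by omega) a b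
    simp only [if_pos hi] at this
    exact this
  have hsq : F.Sq (P.nn 1) (opp (P.dd 0)) (P.dd 1) := by
    refine ⟨by rw [isV_opp]; exact hv, P.nn 0, P.nn 2, P.nn 3, F.nb_opp _ _ _ (P.nb 0), P.nb 1,
      ?_, q2 ▸ P.nb 2⟩
    have := F.nb_opp _ _ _ (P.nb 3)
    rwa [q3, opp_opp, show 3 + 1 = 4 from rfl, ← q0] at this
  obtain ⟨P', s', hs', hf2⟩ := S.exists_fol' hF hL hu' (by omega)
  have hlen := len_sq (L := L) (by omega) hv
  have t0 := P.T0
  have t1 := P.Ts 0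
  have t2 := P.Ts 1
  have t3 := P.Ts 2
  have t0' := P'.T0
  have t1' := P'.Ts 0
  have t2' := P'.Ts 1
  have t3' := P'.Ts 2
  have l0 := len_bd L (P.dd 0)
  have l1 := len_bd L (P.dd 1)
  have l0' := len_bd L (P'.dd 0)
  have l1' := len_bd L (P'.dd 1)
  have l2' := len_bd L (P'.dd 2)
  rw [q2, len_opp] at t3
  simp only [Nat.reduceAdd] at t1 t2 t3 t1' t2' t3'
  have f0 : ∀ i, s + i ≤ len L (P.dd 0) → u i = S.pt (P.nn 0) (P.dd 0) (s + i) := fun i hi => by
    rw [hf' 0 i (by omega) (by omega) (by simp only [Nat.reduceAdd]; omega), t0, Nat.sub_zero]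
  have f0' : ∀ i, s' + i ≤ len L (P'.dd 0) → u' i = S.pt (P'.nn 0) (P'.dd 0) (s' + i) :=
    fun i hi => by
      rw [hf2 0 i (by omega) (by omega) (by simp only [Nat.reduceAdd]; omega), t0', Nat.sub_zero]
  have hr : len L (P.dd 0) - s = len L (P'.dd 0) - s' := by
    rcases lt_trichotomy (len L (P.dd 0) - s) (len L (P'.dd 0) - s') with e | e | e
    · have a := hl (len L (P.dd 0) - s) (by omega) (by omega)
      have b : mdl0 (S.fc (u (len L (P.dd 0) - s))) := by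
        rw [f0 _ (by omega), S.mdl_pt (P.nb 0) (by omega)]; omega
      rw [a, f0' _ (by omega), S.mdl_pt (P'.nb 0) (by omega)] at b
      omega
    · exact e
    · have a := hl (len L (P'.dd 0) - s') (by omega) (by omega)
      have b : mdl0 (S.fc (u' (len L (P'.dd 0) - s'))) := by
        rw [f0' _ (by omega), S.mdl_pt (P'.nb 0) (by omega)]; omega
      rw [← a, f0 _ (by omega), S.mdl_pt (P.nb 0) (by omega)] at b
      omega
  have e0 : P'.dd 0 = P.dd 0 := by
    have a : S.fc (u (len L (P.dd 0) - s - 1)) = S.fc (u' (len L (P.dd 0) - s - 1)) := by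
      by_cases e : len L (P.dd 0) - s - 1 = 0
      · rw [e]
        refine h0.resolve_right fun b => ?_
        rw [hf' 1 2 (by omega) (by omega) (by simp only [Nat.reduceAdd]; omega),
          S.mdl_pt (P.nb 1) (by omega)] at b
        omega
      · exact hl _ (by omega) (by omega)
    rw [f0 _ (by omega), f0' _ (by omega)] at a
    rcases S.fc_same hL (P.nb 0) (P'.nb 0) (by omega) (by omega) (by omega) a.symm with b | b
    · exact b.1
    · omega
  rw [e0] at hs' hr t1'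
  obtain rfl : s' = s := by omega
  have e1 : P'.dd 1 = P.dd 1 ∧ F.col (P'.nn 1) = F.col (P.nn 1) := by
    have a := hl (len L (P.dd 0) - s' + 1) (by omega) (by omega)
    rw [hf' 1 _ (by omega) (by omega) (by simp only [Nat.reduceAdd]; omega),
      hf2 1 _ (by omega) (by omega) (by simp only [Nat.reduceAdd]; omega)] at a
    rcases S.fc_same hL (P.nb 1) (P'.nb 1) (by omega) (by omega) (by omega) a.symm with b | b
    · exact ⟨b.1, b.2.2.1 (by omega)⟩
    · omega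
  have hsq' := hF.sq _ _ _ _ e1.2.symm hsq
  obtain ⟨Q, v, p0, p1, r0, r1, r2, hv1, hv2, hv3⟩ :=
    S.arc' hF hL (n0 := P'.nn 0) (e0 ▸ P'.nb 0) hsq' hs'
  have s0 := Q.T0
  have s1 := Q.Ts 0
  have s2 := Q.Ts 1
  have s3 := Q.Ts 2
  rw [r0] at s1
  rw [r1] at s2
  rw [r2, len_opp] at s3
  rw [e1.1] at t2'
  simp only [Nat.reduceAdd] at s1 s2 s3
  have k0 : v 0 = u' 0 := by
    rw [hv2 0 0 (by omega) (by omega) (by simp only [Nat.reduceAdd]; omega), f0' 0 (by rw [e0]; omega),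
      p0, r0, e0, s0, Nat.sub_zero]
  have k1 : v (2 * L - 2) = u' (2 * L - 2) := by
    by_cases e : s' ≤ 1
    · rw [hv2 1 _ le_rfl (by omega) (by simp only [Nat.reduceAdd]; omega),
        hf2 1 _ le_rfl (by omega) (by simp only [Nat.reduceAdd]; omega), p1, r1, e1.1]
      congr 1
      omega
    · have e2 : P'.dd 2 = P.dd 2 := by
        have l2 := len_bd L (P.dd 2)
        have a := hl (2 * L - s') (by omega) (by omega)
        rw [hf' 2 _ (by omega) (by omega) (by simp only [Nat.reduceAdd]; omega),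
          hf2 2 _ (by omega) (by omega) (by simp only [Nat.reduceAdd]; omega)] at a
        rcases S.fc_same hL (P.nb 2) (P'.nb 2) (by omega) (by omega) (by omega) a.symm with b | b
        · exact b.1
        · omega
      have n2 : Q.nn 2 = P'.nn 2 := by
        have a := Q.nb 1
        rw [p1, r1, ← e1.1, P'.nb 1] at a
        exact (Option.some.inj a).symm
      rw [e2, q2, len_opp] at t3'
      rw [hv2 2 _ le_rfl (by omega) (by simp only [Nat.reduceAdd]; omega),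
        hf2 2 _ le_rfl (by omega) (by simp only [Nat.reduceAdd]; omega), n2, r2, e2, q2]
      congr 1
      omega
  rw [k0, k1] at hv3
  exact Or.inl hv3

end Sub

end Pool.Agent.H655Z.TD
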