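import Pool.Agent.H655Z.TD.Walk

set_option autoImplicit false

namespace Pool.Agent.H655Z.TD

open Pool.Agent.H431Z.LD

variable {U Lab : Type} {G : SimpleGraph U} {fc : U → Lab} {mdl : Lab → Prop} {L : ℕ}

/-- a walk with one more vertex -/
def snocW (u : ℕ → U) (n : ℕ) (x : U) : ℕ → U := fun i => if i ≤ n then u i else x

lemma snocW_le {u : ℕ → U} {n i : ℕ} (x : U) (hi : i ≤ n) : snocW u n x i = u i := if_pos hi

lemma snocW_top (u : ℕ → U) (n : ℕ) (x : U) : snocW u n x (n + 1) = x := if_neg (by omega)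

lemma NBW.snoc {u : ℕ → U} {n : ℕ} {x : U} (h : NBW G u (n + 1)) (a : G.Adj (u (n + 1)) x)
    (hne : x ≠ u n) : NBW G (snocW u (n + 1) x) (n + 2) := by
  refine ⟨fun i hi => ?_, fun i hi => ?_⟩
  · by_cases c : i < n + 1
    · rw [snocW_le x (show i ≤ n + 1 by omega), snocW_le x (show i + 1 ≤ n + 1 by omega)]
      exact h.1 i c
    · obtain rfl : i = n + 1 := by omega
      rw [snocW_le x le_rfl, snocW_top]
      exact a
  · by_cases c : i + 2 ≤ n + 1
    · rw [snocW_le x c, snocW_le x (show i ≤ n + 1 by omega)]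
      exact h.2 i c
    · obtain rfl : i = n := by omega
      rw [snocW_top, snocW_le x (show i ≤ i + 1 by omega)]
      exact hne

lemma nbw_one {w p : U} (a : G.Adj w p) : NBW G (snocW (fun _ => w) 0 p) 1 := by
  refine ⟨fun i hi => ?_, fun i hi => by omega⟩
  obtain rfl : i = 0 := by omega
  rw [snocW_le p le_rfl, snocW_top]
  exact a

lemma zc_symm {w v : U} (h : Zc G fc mdl L w v) : Zc G fc mdl L v w := by
  rcases h with ⟨z, a, b⟩ | ⟨z, a, b, c⟩
  · exact Or.inl ⟨z, b, a⟩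
  · exact Or.inr ⟨z, a, c, b⟩

lemma kept_near {w v : U} (hv : Kept G fc mdl L w v) : Near G.Adj (2 * L - 2) w v :=
  hv.elim (fun a => a.mono (by omega)) fun a => a.1.1

lemma kept_self (w : U) : Kept G fc mdl L w w := Or.inl (Near.refl _ _)

lemma kept_le {w v : U} {n : ℕ} (hv : Kept G fc mdl L w v) (e : Ex G n w v) : n ≤ 2 * L - 2 :=
  e.2 _ (kept_near hv)

lemma kept_of {w v : U} {n : ℕ} (e : Near G.Adj n w v) (hn : n ≤ 2 * L - 3) :
    Kept G fc mdl L w v := Or.inl (e.mono hn)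

lemma near_two {w a b : U} {n m : ℕ} (ha : Near G.Adj n w a) (hb : Near G.Adj m w b) {k : ℕ}
    (hk : n + m ≤ k) : Near G.Adj k a b := ((nsymm ha).trans hb).mono hk

lemma dir_walk {w p v : U} (h : Dir G w p v) : ∃ u n, NBW G u (n + 1) ∧ u 0 = w ∧ u 1 = p ∧
    u (n + 1) = v ∧ Ex G (n + 1) w v := by
  obtain ⟨a, n, h1, h2⟩ := h
  have h3 : Ex G n p v := ⟨h1, fun m hm => by have := h2.2 _ (near_cons a hm); omega⟩
  obtain ⟨u, b1, b2, b3, b4⟩ := h3.walk
  have hw := (nbw_one a).append b1 (by rw [snocW_top, b2]) (fun _ hn e => by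
    rw [snocW_le p le_rfl] at e
    have := (b4 1 hn).2
    rw [e] at this
    have := this.unique h2
    omega)
  refine ⟨_, n, by rw [add_comm] at hw; exact hw, ?_, ?_, ?_, h2⟩
  · show (if 0 ≤ 1 then _ else _) = _
    rw [if_pos (by omega), snocW_le p le_rfl]
  · show (if 1 ≤ 1 then _ else _) = _
    rw [if_pos le_rfl]
    exact snocW_top _ _ _
  · show (if n + 1 ≤ 1 then _ else _) = _
    split_ifs with c
    · obtain rfl : n = 0 := by omega
      rw [snocW_top, ← b3, b2]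
    · simpa using b3

namespace CoreSys

variable (h : CoreSys G fc mdl L) (hL : 16 ≤ L)
include h hL

lemma wex {u : ℕ → U} {n i : ℕ} (hu : NBW G u n) (hi : i ≤ n) (hn : i ≤ 2 * L - 1) :
    Ex G i (u 0) (u i) := (hu.mono hi).ex h.girth (by omega)

lemma walk_dir {u : ℕ → U} {n i : ℕ} (hu : NBW G u n) (h1 : 1 ≤ i) (hi : i ≤ n)
    (hn : i ≤ 2 * L - 1) : Dir G (u 0) (u 1) (u i) := by
  obtain ⟨i, rfl⟩ : ∃ j, i = j + 1 := ⟨i - 1, by omega⟩
  exact ⟨hu.1 0 (by omega), i, by simpa using hu.near (show 1 ≤ i + 1 by omega) hi,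
    h.wex hL hu hi hn⟩

lemma walk_kept {u : ℕ → U} {n i : ℕ} (hu : NBW G u n) (hn : n ≤ 2 * L - 2)
    (hk : Kept G fc mdl L (u 0) (u n)) (hi : i ≤ n) : Kept G fc mdl L (u 0) (u i) := by
  rcases hi.eq_or_lt with rfl | hi
  · exact hk
  · exact kept_of (h.wex hL hu hi.le (by omega)).1 (by omega)

lemma inj' {w a b : U} {n m : ℕ} (ha : Near G.Adj n w a) (hb : Near G.Adj m w b)
    (hk : n + m ≤ 4 * L) (e : fc a = fc b) : a = b := h.inj _ _ (near_two ha hb hk) e

/-- transfer of a labelled walk -/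
lemma tr1 {u : ℕ → U} {n : ℕ} {w' : U} (hu : NBW G u n) (e : fc (u 0) = fc w')
    (hv : ∀ i, 1 ≤ i → i ≤ n → ∃ v', Near G.Adj (2 * L - 2) w' v' ∧ fc v' = fc (u i)) :
    ∃ u', NBW G u' n ∧ u' 0 = w' ∧ ∀ i ≤ n, fc (u' i) = fc (u i) := by
  have hv' : ∀ i, ∃ v', i ≤ n → Near G.Adj (2 * L - 2) w' v' ∧ fc v' = fc (u i) := by
    intro i
    by_cases c : i ≤ n
    · rcases Nat.eq_zero_or_pos i with rfl | c'
      · exact ⟨w', fun _ => ⟨Near.refl _ _, e.symm⟩⟩
      · obtain ⟨v', a⟩ := hv i c' c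
        exact ⟨v', fun _ => a⟩
    · exact ⟨w', fun a => absurd a c⟩
  choose u' hu' using hv'
  refine ⟨u', ⟨fun i hi => ?_, fun i hi a => ?_⟩, ?_, fun i hi => (hu' i hi).2⟩
  · exact h.adj _ _ _ _ (hu.1 i hi) (hu' i hi.le).2 (hu' (i + 1) hi).2
      (near_two (hu' i hi.le).1 (hu' (i + 1) hi).1 (by omega))
  · refine hu.2 i hi (h.inj _ _ (nsymm ((hu.near (show i ≤ i + 2 by omega) hi).mono (by omega))) ?_)
    rw [← (hu' (i + 2) hi).2, ← (hu' i (by omega)).2, a]
  · exact h.inj' hL (hu' 0 (by omega)).1 (Near.refl 0 w') (by omega)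
      ((hu' 0 (by omega)).2.trans e)

lemma kept_tr {u u' : ℕ → U} {n : ℕ} (hu : NBW G u n) (hu' : NBW G u' n) (hn : n ≤ 2 * L - 2)
    (e : ∀ i ≤ n, fc (u' i) = fc (u i)) (hk : Kept G fc mdl L (u 0) (u n)) :
    Kept G fc mdl L (u' 0) (u' n) := by
  have a := h.wex hL hu le_rfl (by omega)
  have a' := h.wex hL hu' le_rfl (by omega)
  rcases hn.eq_or_lt with rfl | hn
  · refine Or.inr ⟨a', fun z => ?_⟩
    rcases hk with b | b
    · have := a.2 _ b
      omega
    · exact b.2 (h.zc u' u hu' hu (fun i _ hi => e i hi) (Or.inl (e 0 (by omega))) z)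
  · exact kept_of a'.1 (by omega)

lemma ext_lab {u u' : ℕ → U} {i : ℕ} {x : U} (hu : NBW G u (i + 2)) (hu' : NBW G u' (i + 1))
    (e : ∀ j ≤ i + 1, fc (u' j) = fc (u j)) (a : G.Adj (u' (i + 1)) x) (ex : fc x = fc (u (i + 2))) :
    NBW G (snocW u' (i + 1) x) (i + 2) ∧ ∀ j ≤ i + 2, fc (snocW u' (i + 1) x j) = fc (u j) := by
  refine ⟨hu'.snoc a (fun c => ?_), fun j hj => ?_⟩
  · refine hu.2 i le_rfl
      (h.inj _ _ (nsymm ((hu.near (show i ≤ i + 2 by omega) le_rfl).mono (by omega))) ?_)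
    rw [← ex, c, e i (by omega)]
  · by_cases c : j ≤ i + 1
    · rw [snocW_le x c]
      exact e j c
    · obtain rfl : j = i + 2 := by omega
      rw [snocW_top]
      exact ex

lemma ext_det {u u' : ℕ → U} {i : ℕ} (hu : NBW G u (i + 2)) (hu' : NBW G u' (i + 1))
    (e : ∀ j ≤ i + 1, fc (u' j) = fc (u j)) (hm : ¬ mdl (fc (u i))) :
    ∃ u'', NBW G u'' (i + 2) ∧ (∀ j ≤ i + 1, u'' j = u' j) ∧ ∀ j ≤ i + 2, fc (u'' j) = fc (u j) := by
  obtain ⟨x, a, b⟩ := h.det (u i) (u (i + 1)) (u' i) (u' (i + 1)) (u (i + 2)) (hu.1 i (by omega))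
    (hu'.1 i (by omega)) (e i (by omega)).symm (e (i + 1) le_rfl).symm hm (hu.1 (i + 1) (by omega))
  obtain ⟨c1, c2⟩ := h.ext_lab hL hu hu' e a b
  exact ⟨_, c1, fun j hj => snocW_le x hj, c2⟩

/-- transfer of a walk in direction `p` -/
lemma fwd {w w' p : U} (e : fc w = fc w')
    (hv : ∀ v, Kept G fc mdl L w v → Dir G w p v → ∃ v', Near G.Adj (2 * L - 2) w' v' ∧ fc v' = fc v)
    {u : ℕ → U} {n : ℕ} (hu : NBW G u n) (hn : n ≤ 2 * L - 2) (h0 : u 0 = w) (h1 : u 1 = p)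
    (hk : Kept G fc mdl L w (u n)) :
    ∃ u', NBW G u' n ∧ u' 0 = w' ∧ ∀ i ≤ n, fc (u' i) = fc (u i) := by
  subst h0 h1
  exact h.tr1 hL hu e fun i a b =>
    hv _ (h.walk_kept hL hu hn hk b) (h.walk_dir hL hu a b (by omega))

/-- transfer in the other direction -/
lemma back {w w' p p' : U} (e : fc w = fc w') (a : G.Adj w p) (ep : fc p = fc p')
    (hv : ∀ v, Kept G fc mdl L w v → Dir G w p v → ∃ v', Near G.Adj (2 * L - 2) w' v' ∧ fc v' = fc v)
    {u' : ℕ → U} (h0 : u' 0 = w') (h1 : u' 1 = p') : ∀ n, NBW G u' (n + 1) → n + 1 ≤ 2 * L - 2 →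
    Kept G fc mdl L w' (u' (n + 1)) →
    ∃ u, NBW G u (n + 1) ∧ u 0 = w ∧ u 1 = p ∧ ∀ i ≤ n + 1, fc (u i) = fc (u' i) := by
  intro n
  induction n with
  | zero =>
    intro _ _ _
    refine ⟨_, nbw_one a, snocW_le p le_rfl, snocW_top _ _ _, fun i hi => ?_⟩
    rcases Nat.eq_zero_or_pos i with rfl | c
    · rw [snocW_le p le_rfl, h0]
      exact e
    · obtain rfl : i = 0 + 1 := by omega
      rw [snocW_top, zero_add, h1]
      exact ep
  | succ n ih =>
    intro hu' hn hk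
    obtain ⟨u, b1, b2, b3, b4⟩ := ih (hu'.mono (by omega)) (by omega)
      (h0 ▸ h.walk_kept hL hu' hn (h0 ▸ hk) (by omega))
    by_cases hm : mdl (fc (u' n))
    · have hm1 : ¬ mdl (fc (u' (n + 1))) := h.mm _ _ (hu'.1 n (by omega)) hm
      obtain ⟨x, c1, c2⟩ := h.two' (u (n + 1)) (u n) (b1.1 n (by omega)).symm
      have hw := b1.snoc c1 c2
      have w0 : snocW u (n + 1) x 0 = w := (snocW_le x (by omega)).trans b2
      have w1 : snocW u (n + 1) x 1 = p := (snocW_le x (by omega)).trans b3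
      have hx := h.wex hL hw le_rfl (by omega)
      have hkx : Kept G fc mdl L w (snocW u (n + 1) x (n + 2)) := by
        rw [w0] at hx
        rcases hn.eq_or_lt with hn' | hn'
        · have hn2 : n + 2 = 2 * L - 2 := hn'
          refine Or.inr ⟨hn2 ▸ hx, fun z => ?_⟩
          have hw2 : NBW G (snocW u (n + 1) x) (2 * L - 2) := hn2 ▸ hw
          have hu2 : NBW G u' (2 * L - 2) := hn2 ▸ hu'
          have hz := h.zc _ _ hw2.rev hu2.rev (fun i i1 i2 => by
            show fc (snocW u (n + 1) x (2 * L - 2 - i)) = fc (u' (2 * L - 2 - i))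
            rw [snocW_le x (show 2 * L - 2 - i ≤ n + 1 by omega)]
            exact b4 _ (by omega)) (Or.inr (by
              show mdl (fc (snocW u (n + 1) x (2 * L - 2 - 2)))
              rw [show 2 * L - 2 - 2 = n by omega, snocW_le x (show n ≤ n + 1 by omega),
                b4 _ (by omega)]
              exact hm)) (by
              show Zc G fc mdl L (snocW u (n + 1) x (2 * L - 2 - 0))
                (snocW u (n + 1) x (2 * L - 2 - (2 * L - 2)))
              rw [show 2 * L - 2 - (2 * L - 2) = 0 by omega, w0,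
                show 2 * L - 2 - 0 = n + 2 by omega]
              exact zc_symm z)
          have hz' : Zc G fc mdl L (u' (2 * L - 2 - 0)) (u' (2 * L - 2 - (2 * L - 2))) := hz
          rw [show 2 * L - 2 - (2 * L - 2) = 0 by omega, h0,
            show 2 * L - 2 - 0 = n + 1 + 1 by omega] at hz'
          rcases hk with b | b
          · have := (h.wex hL hu' le_rfl (by omega)).2 _ (h0 ▸ b)
            omega
          · exact b.2 (zc_symm hz')
        · exact kept_of hx.1 (by omega)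
      obtain ⟨t, t1, t2, t3⟩ := h.fwd hL e hv hw hn w0 w1 hkx
      have same : ∀ i ≤ n + 1, t i = u' i := fun i hi =>
        h.inj' hL (t2 ▸ (h.wex hL t1 (show i ≤ n + 2 by omega) (by omega)).1)
          (h0 ▸ (h.wex hL hu' (show i ≤ n + 1 + 1 by omega) (by omega)).1) (by omega)
          (by rw [t3 i (by omega), snocW_le x hi, b4 i hi])
      have last : t (n + 2) = u' (n + 2) := by
        have q1 : G.Adj (u' (n + 1)) (t (n + 2)) := same (n + 1) le_rfl ▸ t1.1 (n + 1) (by omega)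
        rcases h.two _ _ _ _ hm1 (hu'.1 n (by omega)).symm q1 (hu'.1 (n + 1) (by omega)) with
          q | q | q
        · exact absurd (q.symm.trans (same n (by omega)).symm) (t1.2 n le_rfl)
        · exact absurd q.symm (hu'.2 n le_rfl)
        · exact q
      refine ⟨_, hw, w0, w1, fun i hi => ?_⟩
      by_cases c : i ≤ n + 1
      · rw [snocW_le x c]
        exact b4 i c
      · obtain rfl : i = n + 2 := by omega
        rw [← t3 _ le_rfl, last]
    · obtain ⟨t, t1, t2, t3⟩ := h.ext_det hL hu' b1 b4 hm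
      exact ⟨t, t1, (t2 0 (by omega)).trans b2, (t2 1 (by omega)).trans b3, t3⟩

lemma direq2' {w w' p p' : U} (e : fc w = fc w') (a : G.Adj w p) (a' : G.Adj w' p')
    (ep : fc p = fc p')
    (hv : ∀ v, Kept G fc mdl L w v → Dir G w p v → ∃ v', Near G.Adj (2 * L - 2) w' v' ∧ fc v' = fc v) :
    SD G fc mdl L w p = SD G fc mdl L w' p' := by
  ext l
  constructor
  · rintro ⟨v, kv, dv, rfl⟩
    obtain ⟨u, n, a1, a2, a3, a4, a5⟩ := dir_walk dv
    have ln := kept_le kv a5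
    obtain ⟨u', b1, b2, b3⟩ := h.fwd hL e hv a1 ln a2 a3 (a4 ▸ kv)
    have k1 := h.kept_tr hL a1 b1 ln b3 (by rw [a2, a4]; exact kv)
    have k2 := h.walk_dir hL b1 (show 1 ≤ n + 1 by omega) le_rfl (by omega)
    have k3 : u' 1 = p' := h.inj' hL (b2 ▸ near_adj (b1.1 0 (by omega))) (near_adj a') (by omega)
      (by rw [b3 1 (by omega), a3, ep])
    rw [b2] at k1
    rw [b2, k3] at k2
    exact ⟨u' (n + 1), k1, k2, by rw [b3 _ le_rfl, a4]⟩
  · rintro ⟨v, kv, dv, rfl⟩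
    obtain ⟨u', n, a1, a2, a3, a4, a5⟩ := dir_walk dv
    have ln := kept_le kv a5
    obtain ⟨u, b1, b2, b3, b4⟩ := h.back hL e a ep hv a2 a3 n a1 ln (a4 ▸ kv)
    have k1 := h.kept_tr hL a1 b1 ln b4 (by rw [a2, a4]; exact kv)
    have k2 := h.walk_dir hL b1 (show 1 ≤ n + 1 by omega) le_rfl (by omega)
    rw [b2] at k1
    rw [b2, b3] at k2
    exact ⟨u (n + 1), k1, k2, by rw [b4 _ le_rfl, a4]⟩

/-- points with the same view have isomorphic balls -/
theorem vt {w w' : U} (e : fc w = fc w') (eS : SK G fc mdl L w = SK G fc mdl L w') :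
    ∃ θ : U → U, θ w = w' ∧
      (∀ v, Kept G fc mdl L w v → Kept G fc mdl L w' (θ v) ∧ fc (θ v) = fc v) ∧
      (∀ v', Kept G fc mdl L w' v' → ∃ v, Kept G fc mdl L w v ∧ θ v = v') ∧
      (∀ a b, Kept G fc mdl L w a → Kept G fc mdl L w b → (G.Adj (θ a) (θ b) ↔ G.Adj a b)) ∧
      (∀ v n, Kept G fc mdl L w v → (Ex G n w' (θ v) ↔ Ex G n w v)) := by
  classical
  have ex1 : ∀ v, Kept G fc mdl L w v → ∃ v', Kept G fc mdl L w' v' ∧ fc v' = fc v := fun v hv =>
    (eS ▸ (⟨v, hv, rfl⟩ : fc v ∈ SK G fc mdl L w) : fc v ∈ SK G fc mdl L w')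
  have ex2 : ∀ v', Kept G fc mdl L w' v' → ∃ v, Kept G fc mdl L w v ∧ fc v = fc v' := fun v hv =>
    (eS.symm ▸ (⟨v, hv, rfl⟩ : fc v ∈ SK G fc mdl L w') : fc v ∈ SK G fc mdl L w)
  have ex3 : ∀ v, ∃ v', Kept G fc mdl L w v → Kept G fc mdl L w' v' ∧ fc v' = fc v := by
    intro v
    by_cases c : Kept G fc mdl L w v
    · obtain ⟨v', a⟩ := ex1 v c
      exact ⟨v', fun _ => a⟩
    · exact ⟨v, fun a => absurd a c⟩
  choose θ hθ using ex3
  refine ⟨θ, ?_, hθ, fun v' hv' => ?_, fun a b ha hb => ⟨fun c => ?_, fun c => ?_⟩,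
    fun v n hv => ?_⟩
  · exact h.inj' hL (kept_near (hθ w (kept_self w)).1) (Near.refl 0 w') (by omega)
      ((hθ w (kept_self w)).2.trans e)
  · obtain ⟨v, a, b⟩ := ex2 v' hv'
    exact ⟨v, a, h.inj' hL (kept_near (hθ v a).1) (kept_near hv') (by omega) ((hθ v a).2.trans b)⟩
  · exact h.adj _ _ _ _ c (hθ a ha).2.symm (hθ b hb).2.symm
      (near_two (kept_near ha) (kept_near hb) (by omega))
  · exact h.adj _ _ _ _ c (hθ a ha).2 (hθ b hb).2
      (near_two (kept_near (hθ a ha).1) (kept_near (hθ b hb).1) (by omega))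
  · obtain ⟨m, hm, e1⟩ := exists_ex (kept_near hv)
    obtain ⟨u, b1, b2, b3, -⟩ := e1.walk
    obtain ⟨u', c1, c2, c3⟩ := h.tr1 hL (w' := w') b1 (b2 ▸ e) fun i _ hi => by
      have k := h.walk_kept hL b1 hm (by rw [b2, b3]; exact hv) hi
      rw [b2] at k
      exact ⟨θ (u i), kept_near (hθ _ k).1, (hθ _ k).2⟩
    have e2 := h.wex hL c1 le_rfl (by omega)
    rw [c2] at e2
    have e3 : u' m = θ v := h.inj' hL e2.1 (kept_near (hθ v hv).1) (by omega)
      (by rw [c3 m le_rfl, b3, (hθ v hv).2])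
    rw [e3] at e2
    exact ⟨fun a => (a.unique e2) ▸ e1, fun a => (a.unique e1) ▸ e2⟩

/-- short distances between kept points are realised inside the kept points -/
theorem core1 {w u v : U} {a b n : ℕ} (hu : Kept G fc mdl L w u) (hv : Kept G fc mdl L w v)
    (ha : Near G.Adj a w u) (hb : Near G.Adj b w v)
    (hab : (a ≤ L ∧ n ≤ L) ∨ a + b + n < 4 * L - 2) (hn : Near G.Adj n u v) :
    Near (KG G fc mdl L w).Adj n u v := by
  classical
  obtain ⟨a0, ha0, ea⟩ := exists_ex ha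
  obtain ⟨b0, hb0, eb⟩ := exists_ex hb
  obtain ⟨n0, hn0, en⟩ := exists_ex hn
  have la := kept_le hu ea
  have lb := kept_le hv eb
  have hlt : a0 + b0 + n0 < 4 * L - 2 := by
    by_contra hc
    have h1 : a0 = L ∧ n0 = L ∧ b0 = 2 * L - 2 := by omega
    obtain ⟨rfl, h2, h3⟩ := h1
    rcases hv with c | c
    · have := eb.2 _ c
      omega
    · exact c.2 (Or.inl ⟨u, ea, h2 ▸ en.symm⟩)
  obtain ⟨α, a1, a2, a3, -⟩ := ea.walk
  obtain ⟨β, b1, b2, b3, -⟩ := eb.walk
  obtain ⟨γ, c1, c2, c3, -⟩ := en.walk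
  have hex : ∃ k, k ≤ a0 ∧ a0 - k ≤ b0 ∧ α (a0 - k) = β (a0 - k) :=
    ⟨a0, le_rfl, by omega, by rw [Nat.sub_self, a2, b2]⟩
  obtain ⟨k1, k2, k3⟩ := Nat.find_spec hex
  have kmin := fun m => Nat.find_min hex (m := m)
  generalize Nat.find hex = k at k1 k2 k3 kmin
  obtain ⟨c, rfl⟩ : ∃ c, a0 = c + k := ⟨a0 - k, by omega⟩
  rw [Nat.add_sub_cancel] at k2 k3
  have s1 := (a1.shift c).rev
  have s2 := b1.shift c
  have hw := s1.append s2 (by simpa using k3) (fun p1 p2 q => by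
    apply kmin (k - 1) (by omega)
    refine ⟨by omega, by omega, ?_⟩
    rw [show c + k - (k - 1) = c + 1 by omega]
    have q' : β (c + 1) = α (c + (c + k - c - (c + k - c - 1))) := q
    rw [show c + (c + k - c - (c + k - c - 1)) = c + 1 by omega] at q'
    exact q'.symm)
  have hlen := (nbu h.girth n0 c1 hw (by
      show γ 0 = if 0 ≤ c + k - c then α (c + (c + k - c - 0)) else _
      rw [if_pos (by omega), c2, ← a3]
      congr 1
      omega) (by
      show γ n0 = if c + k - c + (b0 - c) ≤ c + k - c then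
        α (c + (c + k - c - (c + k - c + (b0 - c)))) else β (c + (c + k - c + (b0 - c) - (c + k - c)))
      rw [c3, ← b3]
      split_ifs with q
      · rw [show c + (c + k - c - (c + k - c + (b0 - c))) = c by omega, k3]
        congr 1
        omega
      · congr 1
        omega) (by omega)).1
  have kw : ∀ {t : ℕ → U} {m : ℕ}, NBW G t m → t 0 = w → m ≤ 2 * L - 2 →
      Kept G fc mdl L w (t m) → c ≤ m → Near (KG G fc mdl L w).Adj (m - c) (t c) (t m) := by
    intro t m t1 t2 t3 t4 t5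
    subst t2
    exact walk_near (G := KG G fc mdl L (t 0)) (n := m) (fun i hi => ⟨t1.1 i hi,
      h.walk_kept hL t1 t3 t4 hi.le, h.walk_kept hL t1 t3 t4 hi⟩) t5 le_rfl
  have n1 := kw a1 a2 la (a3 ▸ hu) (by omega)
  have n2 := kw b1 b2 lb (b3 ▸ hv) k2
  rw [a3, k3] at n1
  rw [b3] at n2
  exact ((nsymm n1).trans n2).mono (by omega)

/-- parents of kept points -/
theorem kpar {w v : U} (hv : Kept G fc mdl L w v) (hw : v ≠ w) :
    ∃ q n, n + 1 ≤ 2 * L - 2 ∧ Ex G (n + 1) w v ∧ Ex G n w q ∧ G.Adj q v ∧ Kept G fc mdl L w q ∧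
      ∀ q', G.Adj q' v → Kept G fc mdl L w q' → q' = q ∨ Ex G (n + 2) w q' := by
  obtain ⟨m, hm, e1⟩ := exists_ex (kept_near hv)
  obtain ⟨n, rfl⟩ : ∃ n, m = n + 1 := by
    rcases m with _ | m
    · exact absurd (ex_zero.1 e1).symm hw
    · exact ⟨m, rfl⟩
  obtain ⟨u, b1, b2, b3, b4⟩ := e1.walk
  refine ⟨u n, n, hm, e1, (b4 n (by omega)).1, b3 ▸ b1.1 n (by omega),
    kept_of (b4 n (by omega)).1.1 (by omega), fun q' a _ => ?_⟩
  by_cases c : q' = u n
  · exact Or.inl c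
  · have := h.wex hL (b1.snoc (b3 ▸ a.symm) c) le_rfl (by omega)
    rw [snocW_le q' (by omega), snocW_top, b2] at this
    exact Or.inr this

theorem dir_ex {w v : U} (hv : Kept G fc mdl L w v) (hw : v ≠ w) : ∃ p, Dir G w p v := by
  obtain ⟨m, hm, e1⟩ := exists_ex (kept_near hv)
  obtain ⟨u, b1, b2, b3, -⟩ := e1.walk
  have h1 : 1 ≤ m := by
    rcases m with _ | m
    · exact absurd (ex_zero.1 e1).symm hw
    · omega
  have := h.walk_dir hL b1 h1 le_rfl (by omega)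
  rw [b2, b3] at this
  exact ⟨_, this⟩

theorem dir_unique {w v p p' : U} (hv : Kept G fc mdl L w v) (h1 : Dir G w p v) (h2 : Dir G w p' v) :
    p = p' := by
  obtain ⟨u, n, a1, a2, a3, a4, a5⟩ := dir_walk h1
  obtain ⟨u', n', b1, b2, b3, b4, b5⟩ := dir_walk h2
  have l1 := kept_le hv a5
  have l2 := kept_le hv b5
  have := (nbu h.girth _ a1 b1 (a2.trans b2.symm) (a4.trans b4.symm) (by omega)).2 1 (by omega)
  rw [← a3, ← b3, this]

theorem dir_step {w p q v : U} {n : ℕ} (hn : n + 2 ≤ 2 * L - 2) (h1 : Ex G (n + 1) w q)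
    (h2 : Ex G (n + 2) w v) (h3 : G.Adj q v) : Dir G w p q ↔ Dir G w p v := by
  refine ⟨fun d => ?_, fun d => ?_⟩
  · obtain ⟨a, m, b1, b2⟩ := d
    obtain rfl : m = n := by have := b2.unique h1; omega
    exact ⟨a, m + 1, b1.step h3, h2⟩
  · obtain ⟨u, m, a1, a2, a3, a4, a5⟩ := dir_walk d
    obtain rfl : m = n + 1 := by have := a5.unique h2; omega
    obtain ⟨t, b1, b2, b3, b4⟩ := h1.walk
    have hw := b1.snoc (x := v) (b3 ▸ h3) (fun c => by
      have := (b4 n (by omega)).1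
      rw [← c] at this
      have := this.unique h2
      omega)
    have := (nbu h.girth _ a1 hw (a2.trans ((snocW_le v (by omega)).trans b2).symm)
      (a4.trans (snocW_top _ _ _).symm) (by omega)).2 (n + 1) (by omega)
    rw [snocW_le v le_rfl, b3] at this
    have k := h.walk_dir hL a1 (show 1 ≤ n + 1 by omega) (by omega) (by omega)
    rwa [a2, a3, this] at k

theorem direq {w w' p p' : U} (e : fc w = fc w') (a : G.Adj w p) (a' : G.Adj w' p') (ep : fc p = fc p')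
    (hd : Det G fc mdl L w p)
    (hv : ∀ v, Dir G w p v → Near G.Adj (2 * L - 4) w v →
      ∃ v', Near G.Adj (2 * L - 2) w' v' ∧ fc v' = fc v) :
    SD G fc mdl L w p = SD G fc mdl L w' p' := by
  refine h.direq2' hL e a a' ep fun v kv dv => ?_
  obtain ⟨u, n, a1, a2, a3, a4, a5⟩ := dir_walk dv
  have ln := kept_le kv a5
  have key : ∀ m ≤ n + 1, ∃ u', NBW G u' m ∧ u' 0 = w' ∧ ∀ i ≤ m, fc (u' i) = fc (u i) := by
    intro m
    induction m with
    | zero =>
      intro _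
      exact ⟨fun _ => w', ⟨fun i hi => by omega, fun i hi => by omega⟩, rfl, fun i hi => by
        obtain rfl : i = 0 := by omega
        rw [a2, e]⟩
    | succ m ih =>
      intro hm
      by_cases c : m + 1 ≤ 2 * L - 4
      · refine h.tr1 hL (a1.mono hm) (a2 ▸ e) fun i i1 i2 => hv _ ?_ ?_
        · have := h.walk_dir hL a1 i1 (by omega) (by omega)
          rwa [a2, a3] at this
        · have := (h.wex hL a1 (show i ≤ n + 1 by omega) (by omega)).1
          rw [a2] at this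
          exact this.mono (by omega)
      · obtain ⟨u', b1, b2, b3⟩ := ih (by omega)
        obtain ⟨j, rfl⟩ : ∃ j, m = j + 1 := ⟨m - 1, by omega⟩
        obtain ⟨t, t1, t2, t3⟩ := h.ext_det hL (a1.mono hm) b1 b3
          (hd u _ a1 a2 a3 j (by omega) (by omega))
        exact ⟨t, t1, (t2 0 (by omega)).trans b2, t3⟩
  obtain ⟨u', b1, b2, b3⟩ := key (n + 1) le_rfl
  have := (h.wex hL b1 le_rfl (by omega)).1
  rw [b2] at this
  exact ⟨u' (n + 1), this.mono ln, by rw [b3 _ le_rfl, a4]⟩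

theorem direq2 {w w' p p' : U} (e : fc w = fc w') (a : G.Adj w p) (a' : G.Adj w' p') (ep : fc p = fc p')
    (hv : SD G fc mdl L w p ⊆ SK G fc mdl L w') : SD G fc mdl L w p = SD G fc mdl L w' p' := by
  refine h.direq2' hL e a a' ep fun v kv dv => ?_
  obtain ⟨v', b1, b2⟩ := hv ⟨v, kv, dv, rfl⟩
  exact ⟨v', kept_near b1, b2⟩

theorem skeq {w w' : U} (e : fc w = fc w')
    (h1 : ∀ p, G.Adj w p → ∃ p', G.Adj w' p' ∧ SD G fc mdl L w p = SD G fc mdl L w' p')
    (h2 : ∀ p', G.Adj w' p' → ∃ p, G.Adj w p ∧ SD G fc mdl L w p = SD G fc mdl L w' p') :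
    SK G fc mdl L w = SK G fc mdl L w' := by
  ext l
  constructor
  · rintro ⟨v, kv, rfl⟩
    by_cases c : v = w
    · exact ⟨w', kept_self w', by rw [c, e]⟩
    · obtain ⟨p, d⟩ := h.dir_ex hL kv c
      obtain ⟨p', -, b⟩ := h1 p d.1
      obtain ⟨v', k1, -, k2⟩ : fc v ∈ SD G fc mdl L w' p' := b ▸ ⟨v, kv, d, rfl⟩
      exact ⟨v', k1, k2⟩
  · rintro ⟨v, kv, rfl⟩
    by_cases c : v = w'
    · exact ⟨w, kept_self w, by rw [c, e]⟩
    · obtain ⟨p', d⟩ := h.dir_ex hL kv c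
      obtain ⟨p, -, b⟩ := h2 p' d.1
      obtain ⟨v', k1, -, k2⟩ : fc v ∈ SD G fc mdl L w p := b.symm ▸ ⟨v, kv, d, rfl⟩
      exact ⟨v', k1, k2⟩

/-- points with the same label in branches with the same labels correspond -/
theorem sd_tr {w w' p p' v v' : U} (e : fc w = fc w') (ep : fc p = fc p')
    (eS : SD G fc mdl L w p = SD G fc mdl L w' p') (hv : Kept G fc mdl L w v) (dv : Dir G w p v)
    (hv' : Kept G fc mdl L w' v') (dv' : Dir G w' p' v') (ev : fc v = fc v') :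
    (∀ n, Ex G n w v → Ex G n w' v') ∧
      ∀ x, G.Adj v x → Kept G fc mdl L w x → ∃ x', G.Adj v' x' ∧ Kept G fc mdl L w' x' ∧
        fc x' = fc x ∧ ∀ n, Ex G n w x → Ex G n w' x' := by
  have hF : ∀ v, Kept G fc mdl L w v → Dir G w p v →
      ∃ v', Near G.Adj (2 * L - 2) w' v' ∧ fc v' = fc v := fun v kv dv => by
    obtain ⟨v', k1, -, k2⟩ : fc v ∈ SD G fc mdl L w' p' := eS ▸ ⟨v, kv, dv, rfl⟩
    exact ⟨v', kept_near k1, k2⟩
  obtain ⟨u, m, a1, a2, a3, a4, a5⟩ := dir_walk dv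
  have lm := kept_le hv a5
  have fin : ∀ {t : ℕ → U} {k : ℕ}, NBW G t k → m + 1 ≤ k → t 0 = w' →
      fc (t (m + 1)) = fc v → t (m + 1) = v' := by
    intro t k t1 t2 t3 t4
    exact h.inj' hL (t3 ▸ (h.wex hL t1 t2 (by omega)).1) (kept_near hv') (by omega) (t4.trans ev)
  obtain ⟨u', b1, b2, b3⟩ := h.fwd hL e hF a1 lm a2 a3 (a4 ▸ hv)
  have b4 := fin b1 le_rfl b2 (by rw [b3 _ le_rfl, a4])
  refine ⟨fun n hn => ?_, fun x ax kx => ?_⟩
  · have := h.wex hL b1 le_rfl (by omega)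
    rw [b2, b4] at this
    exact (a5.unique hn) ▸ this
  · by_cases c : x = u m
    · have e1 := h.wex hL b1 (show m ≤ m + 1 by omega) (by omega)
      have e2 := h.wex hL a1 (show m ≤ m + 1 by omega) (by omega)
      rw [b2] at e1
      rw [a2, ← c] at e2
      exact ⟨u' m, b4 ▸ (b1.1 m (by omega)).symm, kept_of e1.1 (by omega),
        by rw [b3 m (by omega), c], fun n hn => (e2.unique hn) ▸ e1⟩
    · have hw := a1.snoc (a4 ▸ ax) c
      have w0 : snocW u (m + 1) x 0 = w := (snocW_le x (by omega)).trans a2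
      have w1 : snocW u (m + 1) x 1 = p := (snocW_le x (by omega)).trans a3
      have e2 := h.wex hL hw le_rfl (by omega)
      rw [w0, snocW_top] at e2
      have lx := kept_le kx e2
      have kx' : Kept G fc mdl L w (snocW u (m + 1) x (m + 2)) := by rw [snocW_top]; exact kx
      obtain ⟨t, t1, t2, t3⟩ := h.fwd hL e hF hw lx w0 w1 kx'
      have t4 := fin t1 (by omega) t2 (by rw [t3 _ (by omega), snocW_le x le_rfl, a4])
      have e1 := h.wex hL t1 le_rfl (by omega)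
      have k1 := h.kept_tr hL hw t1 lx t3 (w0 ▸ kx')
      rw [t2] at e1 k1
      exact ⟨t (m + 2), t4 ▸ t1.1 (m + 1) (by omega), k1, by rw [t3 _ le_rfl, snocW_top],
        fun n hn => (e2.unique hn) ▸ e1⟩

end CoreSys

end Pool.Agent.H655Z.TD

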