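import Mathlib
import Pool.Agent.H431Z.LD.Rules

/-! Definitions for the non-computability of the logical depth of trees. -/

set_option autoImplicit false

namespace Pool.Agent.H655Z.TD

open Pool.Agent.H431Z.LD

variable {V W : Type}

/-- tower of twos -/
def tow : ℕ → ℕ
  | 0 => 1
  | n + 1 => 2 ^ tow n

/-- the distance from `x` to `y` is exactly `n` -/
def Ex (G : SimpleGraph V) (n : ℕ) (x y : V) : Prop :=
  Near G.Adj n x y ∧ ∀ m, Near G.Adj m x y → n ≤ m

/-- the distances agree up to `ρ` -/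
def DA (G : SimpleGraph V) (H : SimpleGraph W) (ρ : ℕ) (x y : V) (x' y' : W) : Prop :=
  ∀ n ≤ ρ, Near G.Adj n x y ↔ Near H.Adj n x' y'

/-- non-backtracking walk `u 0, …, u n` -/
def NBW (G : SimpleGraph V) (u : ℕ → V) (n : ℕ) : Prop :=
  (∀ i < n, G.Adj (u i) (u (i + 1))) ∧ ∀ i, i + 2 ≤ n → u (i + 2) ≠ u i

/-- no closed non-backtracking walk is shorter than `g` -/
def NoClosed (G : SimpleGraph V) (g : ℕ) : Prop :=
  ∀ u n, NBW G u n → 0 < n → n < g → u 0 ≠ u n

/-- back and forth -/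
def BF {A B : Type} (P : A → B → Prop) : Prop := (∀ a, ∃ b, P a b) ∧ (∀ b, ∃ a, P a b)

section games

variable {Lab : Type} (c : Lab → Bool) (S : SimpleGraph V) (f : V → Lab) (S' : SimpleGraph W)
  (f' : W → Lab)

/-- the three round game with distances, after two rounds -/
def R2 (L : ℕ) (x : V) (x' : W) (y : V) (y' : W) : Prop :=
  f y = f' y' ∧ DA S S' (2 * L) x y x' y' ∧
    BF fun z z' => c (f z) = c (f' z') ∧ DA S S' L x z x' z' ∧ DA S S' L y z y' z'

/-- the three round game with distances, after one round -/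
def R1 (L : ℕ) (x : V) (x' : W) : Prop := f x = f' x' ∧ BF (R2 c S f S' f' L x x')

/-- the three round game with distances -/
def A3 (L : ℕ) : Prop := BF (R1 c S f S' f' L)

/-- the labelled game: two rounds with labels, one with coarse labels, `j` without labels -/
def L0 (j : ℕ) : Prop :=
  BF fun x x' => f x = f' x' ∧ BF fun y y' => f y = f' y' ∧
    BF fun z z' => c (f z) = c (f' z') ∧ E S S' j [(z, z'), (y, y'), (x, x')]

end games

/-- level structure: `d` pendant children below every vertex of positive level, and a rooted forest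
below level `R` -/
structure Lev (G : SimpleGraph V) (d R : ℕ) where
  h : V → ℕ
  ch : V → Fin d → V
  par : V → V
  side : V → Fin d → V → Prop
  lip : ∀ u v, G.Adj u v → min (h u) R ≤ h v + 1
  ch_adj : ∀ v i, 0 < h v → G.Adj v (ch v i)
  ch_h : ∀ v i, 0 < h v → h (ch v i) + 1 = h v
  side_ch : ∀ v i, 0 < h v → side v i (ch v i)
  side_self : ∀ v i, 0 < h v → ¬ side v i v
  side_cl : ∀ v i a b, 0 < h v → side v i a → G.Adj a b → side v i b ∨ (a = ch v i ∧ b = v)
  side_disj : ∀ v i i' a, 0 < h v → side v i a → side v i' a → i = i'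
  par_adj : ∀ v, h v < R → G.Adj v (par v)
  par_h : ∀ v, h v < R → h (par v) = h v + 1
  nbr : ∀ v u, h v < R → G.Adj v u → u = par v ∨ (par u = v ∧ h u + 1 = h v)
  par_ch : ∀ v i, 0 < h v → h v ≤ R → par (ch v i) = v
  top : ∃ v, R ≤ h v

/-! ### frames -/

/-- opposite direction -/
def opp (d : Fin 8) : Fin 8 := ![1, 0, 3, 2, 5, 4, 7, 6] d

/-- vertical directions -/
def isV (d : Fin 8) : Prop := d = 2 ∨ d = 3

instance : DecidablePred isV := fun d => by unfold isV; infer_instance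

/-- length of a subdivided edge -/
def len (L : ℕ) (d : Fin 8) : ℕ := if isV d then L - 1 else L

/-- coloured nodes with partial moves in eight directions -/
structure Frame (N Col : Type) where
  col : N → Col
  nb : N → Fin 8 → Option N
  nb_opp : ∀ n d m, nb n d = some m → nb m (opp d) = some n

namespace Frame

variable {N N' Col : Type} (F : Frame N Col)

/-- the directions `d1`, `d2` span a square at `n` -/
def Sq (n : N) (d1 d2 : Fin 8) : Prop :=
  (isV d1 ↔ ¬ isV d2) ∧ ∃ m1 m2 z, F.nb n d1 = some m1 ∧ F.nb n d2 = some m2 ∧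
    F.nb m1 d2 = some z ∧ F.nb m2 d1 = some z

/-- the colours `a`, `b` occur along an edge of direction `d` -/
def rel (d : Fin 8) (a b : Col) : Prop := ∃ n m, F.col n = a ∧ F.col m = b ∧ F.nb n d = some m

/-- adjacency of nodes -/
def adj (n m : N) : Prop := ∃ d, F.nb n d = some m

/-- the properties of the intended model -/
structure Good : Prop where
  pres : ∀ n n' d, F.col n = F.col n' → (F.nb n d).isSome → (F.nb n' d).isSome
  sq : ∀ n n' d1 d2, F.col n = F.col n' → F.Sq n d1 d2 → F.Sq n' d1 d2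
  inj : ∀ n n', Near F.adj 8 n n' → F.col n = F.col n' → n = n'
  adjd : ∀ n m d, Near F.adj 8 n m → F.rel d (F.col n) (F.col m) → F.nb n d = some m
  c1 : ∀ n d, F.nb n d ≠ some n
  c3 : ∀ n m1 m2 d1 d2 d3, F.nb n d1 = some m1 → F.nb m1 d2 = some m2 → F.nb m2 d3 ≠ some n
  c4 : ∀ n m1 m2 m3 d1 d2 d3 d4, F.nb n d1 = some m1 → F.nb m1 d2 = some m2 →
    F.nb m2 d3 = some m3 → F.nb m3 d4 = some n → d2 ≠ opp d1 → d3 ≠ opp d2 → d4 ≠ opp d3 →
    d3 = opp d1 ∧ d4 = opp d2 ∧ (isV d1 ↔ ¬ isV d2)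
  link : ∀ n (P : Fin 8 → Prop), (∃ d, (F.nb n d).isSome ∧ P d) →
    (∀ d1 d2, F.Sq n d1 d2 → P d1 → P d2) → ∀ d, (F.nb n d).isSome → P d
  part : ∀ n d, (F.nb n d).isSome → ∃ d', F.Sq n d d'
  ex : ∀ n, ∃ d, (F.nb n d).isSome
  dbl : ∀ d d' a b, F.rel d a b → F.rel d' a b → d = d'
  par : ∀ d1 d2 e e' a b b' z, F.rel d1 a b → F.rel d2 a b' → F.rel e b z → F.rel e' b' z →
    isV d1 → ¬ isV d2 → ¬ isV e → isV e' → e = d2 ∧ e' = d1
  par2 : ∀ d1 d2 e e' a b b' z, F.rel d1 a b → F.rel d2 a b' → F.rel e b z → F.rel e' b' z →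
    isV d1 → ¬ isV d2 → isV e → ¬ isV e' → e = opp d1

/-- `F'` looks locally like `F` -/
structure Modelled (F' : Frame N' Col) (F : Frame N Col) : Prop where
  m1 : ∀ n', ∃ n, F.col n = F'.col n' ∧ ∀ d, (F'.nb n' d).isSome ↔ (F.nb n d).isSome
  m2 : ∀ n' d m', F'.nb n' d = some m' → F.rel d (F'.col n') (F'.col m')
  m3 : ∀ n' n d1 d2, F.col n = F'.col n' → F.Sq n d1 d2 → F'.Sq n' d1 d2

end Frame

/-- labels of the subdivided frame -/
abbrev Lab0 (Col : Type) (L : ℕ) : Type := Col ⊕ (Col × Fin 8) ⊕ (Col × Fin 8 × Col × Fin (L + 1))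

/-- labels of nodes -/
def mdl0 {Col : Type} {L : ℕ} (l : Lab0 Col L) : Prop := ∃ a, l = Sum.inl a

/-- label of the point at position `s` on an edge of direction `d` from colour `a` to colour `b` -/
def lab {Col : Type} (L : ℕ) (a : Col) (d : Fin 8) (b : Col) (s : ℕ) : Lab0 Col L :=
  if s = 0 then Sum.inl a else if s = len L d then Sum.inl b
  else if s = 1 then Sum.inr (Sum.inl (a, d))
  else if s + 1 = len L d then Sum.inr (Sum.inl (b, opp d))
  else if d.val % 2 = 0 then Sum.inr (Sum.inr (a, d, b, ⟨min s L, by omega⟩))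
  else Sum.inr (Sum.inr (b, opp d, a, ⟨min (len L d - s) L, by omega⟩))

/-- a subdivision of the frame `F` -/
structure Sub {N Col : Type} (F : Frame N Col) (L : ℕ) (U : Type) where
  G : SimpleGraph U
  pt : N → Fin 8 → ℕ → U
  fc : U → Lab0 Col L
  pt_zero : ∀ n d d', pt n d 0 = pt n d' 0
  pt_rev : ∀ n d m s, F.nb n d = some m → s ≤ len L d → pt n d s = pt m (opp d) (len L d - s)
  adj_iff : ∀ x y, G.Adj x y ↔
    ∃ n d m s, F.nb n d = some m ∧ s < len L d ∧ x = pt n d s ∧ y = pt n d (s + 1)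
  surj : ∀ x, ∃ n d m s, F.nb n d = some m ∧ s < len L d ∧ x = pt n d s
  inj0 : ∀ n d n' d', pt n d 0 = pt n' d' 0 → n = n'
  inj : ∀ n d m s n' d' m' s', F.nb n d = some m → F.nb n' d' = some m' → 0 < s → s < len L d →
    s' ≤ len L d' → pt n d s = pt n' d' s' →
    (n' = n ∧ d' = d ∧ s' = s) ∨ (n' = m ∧ d' = opp d ∧ s' = len L d - s)
  fc_pt : ∀ n d m s, F.nb n d = some m → s ≤ len L d →
    fc (pt n d s) = lab L (F.col n) d (F.col m) s

/-! ### core systems -/

section core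

variable {U Lab : Type} (G : SimpleGraph U) (fc : U → Lab) (mdl : Lab → Prop) (L : ℕ)

/-- a point at distance `L` from both, or a node in the middle -/
def Zc (w v : U) : Prop :=
  (∃ z, Ex G L w z ∧ Ex G L v z) ∨
    ∃ μ, mdl (fc μ) ∧ Near G.Adj (L - 1) w μ ∧ Near G.Adj (L - 1) v μ

/-- no node at distance `2L - 5` or `2L - 4` from `w` in direction `p` -/
def Det (w p : U) : Prop :=
  ∀ u n, NBW G u n → u 0 = w → u 1 = p → ∀ i ≤ n, (i = 2 * L - 5 ∨ i = 2 * L - 4) → ¬ mdl (fc (u i))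

/-- all other directions are determined -/
def Un (a b : Lab) : Prop :=
  ∀ w p, G.Adj w p → fc w = a → fc p = b → ∀ q, G.Adj w q → q ≠ p → Det G fc mdl L w q

/-- the points copied into the ball of `w` -/
def Kept (w v : U) : Prop :=
  Near G.Adj (2 * L - 3) w v ∨ (Ex G (2 * L - 2) w v ∧ ¬ Zc G fc mdl L w v)

/-- `v` lies in direction `p` from `w` -/
def Dir (w p v : U) : Prop := G.Adj w p ∧ ∃ n, Near G.Adj n p v ∧ Ex G (n + 1) w v

/-- labels of kept points -/
def SK (w : U) : Set Lab := {l | ∃ v, Kept G fc mdl L w v ∧ fc v = l}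

/-- labels of kept points in direction `p` -/
def SD (w p : U) : Set Lab := {l | ∃ v, Kept G fc mdl L w v ∧ Dir G w p v ∧ fc v = l}

/-- the graph of kept points -/
def KG (w : U) : SimpleGraph U where
  Adj a b := G.Adj a b ∧ Kept G fc mdl L w a ∧ Kept G fc mdl L w b
  symm := ⟨fun _ _ h => ⟨h.1.symm, h.2.2, h.2.1⟩⟩
  loopless := ⟨fun _ h => h.1.ne rfl⟩

/-- the properties of the subdivided model that the construction uses -/
structure CoreSys : Prop where
  girth : NoClosed G (4 * L - 2)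
  inj : ∀ u v, Near G.Adj (4 * L) u v → fc u = fc v → u = v
  adj : ∀ u v u1 v1, G.Adj u1 v1 → fc u = fc u1 → fc v = fc v1 → Near G.Adj (4 * L) u v → G.Adj u v
  det : ∀ u v u' v' x, G.Adj u v → G.Adj u' v' → fc u = fc u' → fc v = fc v' → ¬ mdl (fc u) →
    G.Adj v x → ∃ x', G.Adj v' x' ∧ fc x' = fc x
  zc : ∀ u u', NBW G u (2 * L - 2) → NBW G u' (2 * L - 2) →
    (∀ i, 1 ≤ i → i ≤ 2 * L - 2 → fc (u i) = fc (u' i)) → (fc (u 0) = fc (u' 0) ∨ mdl (fc (u 2))) →
    Zc G fc mdl L (u 0) (u (2 * L - 2)) → Zc G fc mdl L (u' 0) (u' (2 * L - 2))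
  two : ∀ v a b c, ¬ mdl (fc v) → G.Adj v a → G.Adj v b → G.Adj v c → a = b ∨ a = c ∨ b = c
  two' : ∀ v a, G.Adj v a → ∃ b, G.Adj v b ∧ b ≠ a
  mm : ∀ u v, G.Adj u v → mdl (fc u) → ¬ mdl (fc v)
  un1 : ∀ w, ∃ p, G.Adj w p ∧ Un G fc mdl L (fc w) (fc p)
  un2 : ∀ w p, G.Adj w p → Un G fc mdl L (fc w) (fc p) ∨ Un G fc mdl L (fc p) (fc w)

end core

/-! ### gadgets -/

/-- the number at the end of a path in a marker -/
def cur (m : ℕ) : List ℕ → ℕ
  | [] => m
  | j :: _ => j

/-- vertices of the marker of `m` (the tree of the hereditarily finite set with code `m`) -/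
def MK (m : ℕ) : List ℕ → Prop
  | [] => True
  | j :: l => MK m l ∧ (cur m l).testBit j = true

/-- parts of an object -/
inductive Part
  | s1 | s2 | g
  | leg (i : ℕ) (e : Bool)
  | mk (l : List ℕ)

/-- vertices of a gadget: the root, or a part of the `t`-th object of family `a` and colour `col` -/
inductive GX
  | root
  | obj (a col t : ℕ) (p : Part)

/-- parent in a gadget -/
def gpar : GX → GX
  | .root => .root
  | .obj _ _ _ .s1 => .root
  | .obj a c t .s2 => .obj a c t .s1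
  | .obj a c t .g => .obj a c t .s2
  | .obj a c t (.leg _ false) => .obj a c t .g
  | .obj a c t (.leg i true) => .obj a c t (.leg i false)
  | .obj a c t (.mk []) => .obj a c t .s1
  | .obj a c t (.mk (_ :: l)) => .obj a c t (.mk l)

/-- number of objects of family `a` and colour `col` at a vertex with label `lam` -/
def cnt (j i0 : ℕ) (c : ℕ → Bool) (lam a col : ℕ) : ℕ :=
  if col = 0 then
    (if a = 0 then j - i0 - 2 + (c lam).toNat else j - i0 - 1 + if a = lam + 1 then 1 else 0)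
  else j - i0 - col

/-- the parts that occur -/
def okP (i0 a col : ℕ) : Part → Prop
  | .leg i _ => i < i0 + col
  | .mk l => MK a l
  | _ => True

/-- the vertices of the gadget of label `lam` -/
def okX (F j i0 : ℕ) (c : ℕ → Bool) (lam : ℕ) : GX → Prop
  | .root => True
  | .obj a col t p => a ≤ F ∧ col < 3 ∧ t < cnt j i0 c lam a col ∧ okP i0 a col p

/-- vertices of the graph with gadgets -/
def GV (F j κ : ℕ) (c : ℕ → Bool) (f : V → ℕ) : Type :=
  {p : V × GX // okX F j (2 * κ + 10) c (f p.1) p.2}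

/-- adjacency in the graph with gadgets -/
def gadj (S : SimpleGraph V) (x y : V × GX) : Prop :=
  (x.2 = .root ∧ y.2 = .root ∧ S.Adj x.1 y.1) ∨
    (x.1 = y.1 ∧ ((x.2 ≠ .root ∧ gpar x.2 = y.2) ∨ (y.2 ≠ .root ∧ gpar y.2 = x.2)))

lemma gpar_ne {x : GX} (h : x ≠ .root) : gpar x ≠ x := by
  rcases x with _ | ⟨a, c, t, _ | _ | _ | ⟨i, _ | _⟩ | ⟨_ | ⟨j, l⟩⟩⟩ <;> simp [gpar] at h ⊢

/-- the labelled graph `(S, f)` with a gadget at every vertex -/
def Gad (F j κ : ℕ) (c : ℕ → Bool) (S : SimpleGraph V) (f : V → ℕ) : SimpleGraph (GV F j κ c f) where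
  Adj x y := gadj S x.1 y.1
  symm := ⟨fun _ _ h => h.elim (fun h => Or.inl ⟨h.2.1, h.1, h.2.2.symm⟩)
    fun h => Or.inr ⟨h.1.symm, h.2.symm⟩⟩
  loopless := ⟨fun _ h => h.elim (fun h => h.2.2.ne rfl)
    fun h => h.2.elim (fun h => gpar_ne h.1 h.2) fun h => gpar_ne h.1 h.2⟩

/-- size bound for one gadget -/
def gb (j κ : ℕ) : ℕ := (tow κ + j + 5) ^ (κ + 10)

end Pool.Agent.H655Z.TD
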