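import Pool.Agent.H655Z.TD.Walk
import Pool.Agent.H785Z.Gad.D

set_option autoImplicit false

namespace Pool.Agent.H655Z.TD

open Pool.Agent.H431Z.LD Pool.Agent.H785Z.Gad

variable {V W : Type} {F j κ : ℕ} {c : ℕ → Bool}

theorem gadA_okX {i0 lam : ℕ} {x : GX} : okX F j i0 c lam x ↔ ok F i0 (cnt j i0 c lam) x := by
  cases x <;> rfl

/-- the internal game for two labels -/
def gadA_I (F j κ : ℕ) (c : ℕ → Bool) (a b k : ℕ) (m : List (GX × GX)) : Prop :=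
  IE F (2 * κ + 10) (cnt j (2 * κ + 10) c a) (cnt j (2 * κ + 10) c b) k m

/-- the skeleton game in which every new pair of bases has a winning internal game -/
def gadA_SE (F j κ : ℕ) (c : ℕ → Bool) (S : SimpleGraph V) (f : V → ℕ) (S' : SimpleGraph W)
    (f' : W → ℕ) : ℕ → List (V × W) → Prop
  | 0, bl => PI S S' bl
  | k + 1, bl => PI S S' bl ∧
      (∀ v, ∃ v', gadA_I F j κ c (f v) (f' v') (k + 1) [] ∧
        gadA_SE F j κ c S f S' f' k ((v, v') :: bl)) ∧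
      (∀ v', ∃ v, gadA_I F j κ c (f v) (f' v') (k + 1) [] ∧
        gadA_SE F j κ c S f S' f' k ((v, v') :: bl))

theorem gadA_I0 (hκ : 4 * κ + 30 ≤ j) (a k : ℕ) (hk : k ≤ j + 3) : gadA_I F j κ c a a k [] :=
  ie_start (by omega) ⟨fun _ _ => Or.inl rfl, fun _ => by simp [cnt]; omega,
    fun _ => by simp [cnt]; omega⟩

theorem gadA_I1 (hκ : 4 * κ + 30 ≤ j) {a b : ℕ} (h : c a = c b) :
    gadA_I F j κ c a b (j + 1) [] := by
  refine ie_start (by omega) ⟨fun x y => ?_, fun _ => by simp [cnt]; omega,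
    fun _ => by simp [cnt]; omega⟩
  simp only [cnt, h]
  split_ifs <;> omega

theorem gadA_I2 (hκ : 4 * κ + 30 ≤ j) (a b k : ℕ) (hk : k ≤ j) : gadA_I F j κ c a b k [] := by
  refine ie_start (by omega) ⟨fun x y => ?_, fun _ => by simp [cnt]; omega,
    fun _ => by simp [cnt]; omega⟩
  simp only [cnt]
  split_ifs <;> omega

variable {S : SimpleGraph V} {f : V → ℕ} {S' : SimpleGraph W} {f' : W → ℕ}

theorem gadA_SE_pi {k : ℕ} {bl : List (V × W)} (h : gadA_SE F j κ c S f S' f' k bl) :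
    PI S S' bl := by
  cases k
  · exact h
  · exact h.1

theorem gadA_SE_of_E (hκ : 4 * κ + 30 ≤ j) (k : ℕ) (hk : k ≤ j) :
    ∀ bl, E S S' k bl → gadA_SE F j κ c S f S' f' k bl := by
  induction k with
  | zero => intro bl h; exact h
  | succ k ih =>
    intro bl h
    refine ⟨h.1, fun v => ?_, fun v' => ?_⟩
    · obtain ⟨v', h1⟩ := h.2.1 v
      exact ⟨v', gadA_I2 hκ _ _ _ hk, ih (by omega) _ h1⟩
    · obtain ⟨v, h1⟩ := h.2.2 v'
      exact ⟨v, gadA_I2 hκ _ _ _ hk, ih (by omega) _ h1⟩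

theorem gadA_SE_start (hκ : 4 * κ + 30 ≤ j) (h : L0 c S f S' f' j) :
    gadA_SE F j κ c S f S' f' (j + 3) [] := by
  have h3 : ∀ x x' y y', (BF fun z z' => c (f z) = c (f' z') ∧
      E S S' j [(z, z'), (y, y'), (x, x')]) →
      gadA_SE F j κ c S f S' f' (j + 1) [(y, y'), (x, x')] := by
    intro x x' y y' h
    refine ⟨?_, fun v => ?_, fun v' => ?_⟩
    · obtain ⟨z', -, h1⟩ := h.1 x
      exact (h1.sub fun p hp => List.mem_cons_of_mem _ hp).pi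
    · obtain ⟨v', h1, h2⟩ := h.1 v
      exact ⟨v', gadA_I1 hκ h1, gadA_SE_of_E hκ j le_rfl _ h2⟩
    · obtain ⟨v, h1, h2⟩ := h.2 v'
      exact ⟨v, gadA_I1 hκ h1, gadA_SE_of_E hκ j le_rfl _ h2⟩
  have h2 : ∀ x x', (BF fun y y' => f y = f' y' ∧ BF fun z z' => c (f z) = c (f' z') ∧
      E S S' j [(z, z'), (y, y'), (x, x')]) →
      gadA_SE F j κ c S f S' f' (j + 2) [(x, x')] := by
    intro x x' h
    refine ⟨?_, fun v => ?_, fun v' => ?_⟩
    · intro p hp q hq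
      rw [List.mem_singleton] at hp hq
      simp [hp, hq]
    · obtain ⟨v', h1, h2⟩ := h.1 v
      exact ⟨v', h1 ▸ gadA_I0 hκ _ _ (by omega), h3 _ _ _ _ h2⟩
    · obtain ⟨v, h1, h2⟩ := h.2 v'
      exact ⟨v, h1 ▸ gadA_I0 hκ _ _ (by omega), h3 _ _ _ _ h2⟩
  refine ⟨fun p hp => by simp at hp, fun v => ?_, fun v' => ?_⟩
  · obtain ⟨v', h1, h4⟩ := h.1 v
    exact ⟨v', h1 ▸ gadA_I0 hκ _ _ le_rfl, h2 _ _ h4⟩
  · obtain ⟨v, h1, h4⟩ := h.2 v'
    exact ⟨v, h1 ▸ gadA_I0 hκ _ _ le_rfl, h2 _ _ h4⟩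

/-- the invariant of the composed strategy -/
def gadA_G (F j κ : ℕ) (c : ℕ → Bool) (S : SimpleGraph V) (f : V → ℕ) (S' : SimpleGraph W)
    (f' : W → ℕ) (k : ℕ) (l : List (GV F j κ c f × GV F j κ c f')) (bl : List (V × W)) : Prop :=
  gadA_SE F j κ c S f S' f' k bl ∧ (∀ p ∈ l, (p.1.1.1, p.2.1.1) ∈ bl) ∧
    ∀ b ∈ bl, ∃ m, gadA_I F j κ c (f b.1) (f' b.2) k m ∧
      ∀ p ∈ l, p.1.1.1 = b.1 → (p.1.1.2, p.2.1.2) ∈ m

theorem gadA_G_pi {k : ℕ} {l : List (GV F j κ c f × GV F j κ c f')} {bl : List (V × W)}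
    (h : gadA_G F j κ c S f S' f' k l bl) : PI (Gad F j κ c S f) (Gad F j κ c S' f') l := by
  obtain ⟨h1, h2, h3⟩ := h
  intro p hp q hq
  have hb := gadA_SE_pi h1 _ (h2 p hp) _ (h2 q hq)
  obtain ⟨mp, hp1, hp2⟩ := h3 _ (h2 p hp)
  obtain ⟨mq, hq1, hq2⟩ := h3 _ (h2 q hq)
  have rp := (IE.ipi hp1).1 _ (hp2 p hp rfl)
  have rq := (IE.ipi hq1).1 _ (hq2 q hq rfl)
  simp only at hb rp rq
  by_cases e : p.1.1.1 = q.1.1.1
  · have e' := hb.1.1 e
    have h4 := (IE.ipi hp1).2 _ (hp2 p hp rfl) _ (hp2 q hq e.symm)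
    refine ⟨?_, ?_⟩
    · exact ⟨fun e2 => Subtype.ext (Prod.ext e' (h4.1.1 (by rw [e2]))),
        fun e2 => Subtype.ext (Prod.ext e (h4.1.2 (by rw [e2])))⟩
    · exact or_congr (and_congr rp (and_congr rq hb.2)) (and_congr hb.1 h4.2)
  · have e' : ¬ p.2.1.1 = q.2.1.1 := fun e2 => e (hb.1.2 e2)
    refine ⟨⟨fun e2 => absurd (by rw [e2]) e, fun e2 => absurd (by rw [e2]) e'⟩, ?_⟩
    exact or_congr (and_congr rp (and_congr rq hb.2))
      ⟨fun h5 => absurd h5.1 e, fun h5 => absurd h5.1 e'⟩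

theorem gadA_G_pre {k : ℕ} {l : List (GV F j κ c f × GV F j κ c f')} {bl : List (V × W)}
    (h : gadA_G F j κ c S f S' f' (k + 1) l bl) {v : V} {v' : W}
    (h1 : gadA_I F j κ c (f v) (f' v') (k + 1) [])
    (h2 : gadA_SE F j κ c S f S' f' k ((v, v') :: bl)) :
    ∃ m, gadA_I F j κ c (f v) (f' v') (k + 1) m ∧ (∀ p ∈ l, p.1.1.1 = v → (p.1.1.2, p.2.1.2) ∈ m) ∧
      ∀ (x : GV F j κ c f) (y : GV F j κ c f'), x.1.1 = v → y.1.1 = v' →
        gadA_I F j κ c (f v) (f' v') k ((x.1.2, y.1.2) :: m) →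
        gadA_G F j κ c S f S' f' k ((x, y) :: l) ((v, v') :: bl) := by
  have hpi := gadA_SE_pi h2
  obtain ⟨m, hm1, hm2⟩ : ∃ m, gadA_I F j κ c (f v) (f' v') (k + 1) m ∧
      ∀ p ∈ l, p.1.1.1 = v → (p.1.1.2, p.2.1.2) ∈ m := by
    by_cases hb : (v, v') ∈ bl
    · exact h.2.2 _ hb
    · refine ⟨[], h1, fun p hp e => absurd ?_ hb⟩
      have h3 := h.2.1 p hp
      have h4 := (hpi _ (List.mem_cons_of_mem _ h3) _ List.mem_cons_self).1.1 e
      simp only at h4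
      rwa [e, h4] at h3
  refine ⟨m, hm1, hm2, fun x y hx hy h3 => ⟨h2, fun p hp => ?_, fun b hb => ?_⟩⟩
  · rcases List.mem_cons.1 hp with rfl | hp
    · simp only [hx, hy]; exact List.mem_cons_self
    · exact List.mem_cons_of_mem _ (h.2.1 p hp)
  · by_cases e : b = (v, v')
    · subst e
      refine ⟨_, h3, fun p hp e => ?_⟩
      rcases List.mem_cons.1 hp with rfl | hp
      · exact List.mem_cons_self
      · exact List.mem_cons_of_mem _ (hm2 p hp e)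
    · obtain ⟨m', h4, h5⟩ := h.2.2 b ((List.mem_cons.1 hb).resolve_left e)
      refine ⟨m', IE.pred h4, fun p hp e2 => ?_⟩
      rcases List.mem_cons.1 hp with rfl | hp
      · exfalso
        have e3 : b.1 = v := e2.symm.trans hx
        exact e (Prod.ext e3 ((hpi b hb _ List.mem_cons_self).1.1 e3))
      · exact h5 p hp e2

theorem gadA_main (k : ℕ) : ∀ (l : List (GV F j κ c f × GV F j κ c f')) (bl : List (V × W)),
    gadA_G F j κ c S f S' f' k l bl → E (Gad F j κ c S f) (Gad F j κ c S' f') k l := by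
  induction k with
  | zero => intro l bl h; exact gadA_G_pi h
  | succ k ih =>
    intro l bl h
    refine ⟨gadA_G_pi h, fun x => ?_, fun y => ?_⟩
    · obtain ⟨v', h1, h2⟩ := h.1.2.1 x.1.1
      obtain ⟨m, h3, -, h5⟩ := gadA_G_pre h h1 h2
      obtain ⟨η, h6, h7⟩ := h3.2.1 x.1.2 (gadA_okX.1 x.2)
      exact ⟨⟨(v', η), gadA_okX.2 h6⟩, ih _ _ (h5 x _ rfl rfl h7)⟩
    · obtain ⟨v, h1, h2⟩ := h.1.2.2 y.1.1
      obtain ⟨m, h3, -, h5⟩ := gadA_G_pre h h1 h2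
      obtain ⟨ξ, h6, h7⟩ := h3.2.2 y.1.2 (gadA_okX.1 y.2)
      exact ⟨⟨(v, ξ), gadA_okX.2 h6⟩, ih _ _ (h5 _ y rfl rfl h7)⟩

theorem gad_E (hκ : 4 * κ + 30 ≤ j) (S : SimpleGraph V) (f : V → ℕ) (S' : SimpleGraph W) (f' : W → ℕ)
    (h : L0 c S f S' f' j) : E (Gad F j κ c S f) (Gad F j κ c S' f') (j + 3) [] :=
  gadA_main _ _ [] ⟨gadA_SE_start hκ h, by simp, by simp⟩

end Pool.Agent.H655Z.TD
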