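import Pool.Agent.H655Z.TD.Walk

set_option autoImplicit false

namespace Pool.Agent.H655Z.TD

open Pool.Agent.H431Z.LD

variable {V W : Type} {F j κ : ℕ} {c : ℕ → Bool}

lemma gc_lt_tow (k : ℕ) : k < tow k := by
  induction k with
  | zero => simp [tow]
  | succ k ih => exact lt_of_le_of_lt ih Nat.lt_two_pow_self

lemma gc_mk {m k : ℕ} (hm : m < tow k) : ∀ l : List ℕ, MK m l →
    l.length ≤ k ∧ cur m l < tow (k - l.length) ∧ cur m l ≤ m ∧ ∀ x ∈ l, x ≤ m := by
  intro l
  induction l with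
  | nil => intro _; exact ⟨Nat.zero_le _, hm, le_rfl, by simp⟩
  | cons a l ih =>
    rintro ⟨h1, h2⟩
    obtain ⟨a1, a2, a3, a4⟩ := ih h1
    have b1 : 2 ^ a ≤ cur m l := Nat.ge_two_pow_of_testBit h2
    have b2 : a < 2 ^ a := Nat.lt_two_pow_self
    obtain ⟨s, hs⟩ : ∃ s, k - l.length = s + 1 := by
      refine Nat.exists_eq_succ_of_ne_zero fun h => ?_
      rw [h, tow] at a2
      omega
    rw [hs, tow] at a2
    have b3 : a < tow s := (Nat.pow_lt_pow_iff_right (by norm_num)).1 (b1.trans_lt a2)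
    refine ⟨by simp only [List.length_cons]; omega, ?_, by show a ≤ m; omega, fun x hx => ?_⟩
    · rw [show k - (a :: l).length = s by simp only [List.length_cons]; omega]
      exact b3
    · rcases List.mem_cons.1 hx with rfl | hx
      · omega
      · exact a4 x hx

/-- code of a vertex of a gadget -/
def gcEnc : GX → List ℕ
  | .root => []
  | .obj a c t .s1 => [1, a, c, t]
  | .obj a c t .s2 => [2, a, c, t]
  | .obj a c t .g => [3, a, c, t]
  | .obj a c t (.leg i false) => [4, a, c, t, i]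
  | .obj a c t (.leg i true) => [0, a, c, t, i]
  | .obj a c t (.mk l) => 5 :: a :: c :: t :: l

lemma gcEnc_inj : Function.Injective gcEnc := by
  rintro (_ | ⟨a, c, t, _ | _ | _ | ⟨i, _ | _⟩ | l⟩)
    (_ | ⟨a', c', t', _ | _ | _ | ⟨i', _ | _⟩ | l'⟩) h <;> simp_all [gcEnc]

lemma gcEnc_bd {k B lam : ℕ} (hk : F < tow k) (h1 : F + 1 < B) (h2 : j + 1 < B)
    (h3 : 2 * κ + 13 < B) {x : GX} (hx : okX F j (2 * κ + 10) c lam x) :
    (gcEnc x).length ≤ k + 10 ∧ ∀ y ∈ gcEnc x, y + 1 < B := by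
  rcases x with _ | ⟨a, d, t, p⟩
  · simp [gcEnc]
  obtain ⟨a1, a2, a3, a4⟩ := hx
  have a5 : t ≤ j := by
    have := Bool.toNat_le (c lam)
    unfold cnt at a3
    split_ifs at a3 <;> omega
  rcases p with _ | _ | _ | ⟨i, _ | _⟩ | l
  any_goals
    simp only [okP] at a4
    simp only [gcEnc, List.length_cons, List.length_nil, List.forall_mem_cons, List.not_mem_nil,
      false_imp_iff, implies_true, and_true]
  any_goals omega
  obtain ⟨b1, -, -, b2⟩ := gc_mk (a1.trans_lt hk) l a4
  refine ⟨by omega, by omega, by omega, by omega, by omega, fun y hy => ?_⟩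
  have := b2 y hy
  omega

lemma gc_inj {k B : ℕ} (hk : F < tow k) (h1 : F + 1 < B) (h2 : j + 1 < B) (h3 : 2 * κ + 13 < B)
    (f : V → ℕ) : ∃ φ : GV F j κ c f → V × (Fin (k + 10) → Fin B), Function.Injective φ := by
  refine ⟨fun x => (x.1.1, fun i => ⟨((gcEnc x.1.2)[i.1]?).elim 0 (· + 1), ?_⟩), fun x y h => ?_⟩
  · cases e : (gcEnc x.1.2)[i.1]? with
    | none => show 0 < B; omega
    | some y => exact (gcEnc_bd hk h1 h2 h3 x.2).2 y (List.mem_of_getElem? e)
  · obtain ⟨e1, e2⟩ := Prod.mk.inj h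
    refine Subtype.ext (Prod.ext e1 (gcEnc_inj (List.ext_getElem? fun i => ?_)))
    by_cases hi : i < k + 10
    · have e3 : ((gcEnc x.1.2)[i]?).elim 0 (· + 1) = ((gcEnc y.1.2)[i]?).elim 0 (· + 1) :=
        congrArg Fin.val (congrFun e2 ⟨i, hi⟩)
      generalize (gcEnc x.1.2)[i]? = p at e3 ⊢
      generalize (gcEnc y.1.2)[i]? = q at e3 ⊢
      cases p <;> cases q <;> simp_all
    · have a1 := (gcEnc_bd hk h1 h2 h3 x.2).1
      have a2 := (gcEnc_bd hk h1 h2 h3 y.2).1
      rw [List.getElem?_eq_none (by omega), List.getElem?_eq_none (by omega)]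

theorem gad_fin [Finite V] (f : V → ℕ) : Finite (GV F j κ c f) := by
  obtain ⟨φ, h⟩ := gc_inj (j := j) (κ := κ) (c := c) (B := F + j + 2 * κ + 14) (gc_lt_tow F)
    (by omega) (by omega) (by omega) f
  exact Finite.of_injective φ h

theorem gad_card [Finite V] (hκ : 4 * κ + 30 ≤ j) (hF : F < tow κ) (f : V → ℕ) :
    Nat.card (GV F j κ c f) ≤ Nat.card V * gb j κ := by
  obtain ⟨φ, h⟩ := gc_inj (j := j) (κ := κ) (c := c) (B := tow κ + j + 5) hF
    (by omega) (by omega) (by omega) f
  simpa [gb] using Nat.card_le_card_of_injective φ h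

/-- the root of the gadget at `v` -/
def gcRoot (f : V → ℕ) (v : V) : GV F j κ c f := ⟨(v, .root), trivial⟩

lemma gcRoot_inj (f : V → ℕ) : Function.Injective (gcRoot f : V → GV F j κ c f) :=
  fun _ _ h => congrArg (fun x : GV F j κ c f => x.1.1) h

theorem gad_card_ge [Finite V] (f : V → ℕ) : Nat.card V ≤ Nat.card (GV F j κ c f) := by
  have := gad_fin (F := F) (j := j) (κ := κ) (c := c) f
  exact Nat.card_le_card_of_injective _ (gcRoot_inj f)

theorem gad_fin' (f : V → ℕ) [Finite (GV F j κ c f)] : Finite V :=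
  Finite.of_injective _ (gcRoot_inj (F := F) (j := j) (κ := κ) (c := c) f)

lemma acyclic_of_noClosed {G : SimpleGraph V} (h : ∀ g, NoClosed G g) : G.IsAcyclic := by
  intro v p hp
  have h3 := hp.three_le_length
  refine h (p.length + 1) p.getVert p.length ⟨fun i hi => p.adj_getVert_succ hi, fun i hi e => ?_⟩
    (by omega) (by omega) (by simp)
  by_cases h0 : i = 0
  · have := hp.getVert_injOn' (show i + 2 ≤ p.length - 1 by omega) (show i ≤ p.length - 1 by omega) e
    omega
  · have := hp.getVert_injOn (show 1 ≤ i + 2 ∧ i + 2 ≤ p.length by omega)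
      (show 1 ≤ i ∧ i ≤ p.length by omega) e
    omega

lemma noClosed_of_acyclic {G : SimpleGraph V} (h : G.IsAcyclic) (g : ℕ) : NoClosed G g := by
  intro u n
  induction n using Nat.strong_induction_on generalizing u with
  | _ n ih =>
    intro hu h0 hg e
    have h1 : ∀ a b, a < b → b ≤ n → b - a < n → u a ≠ u b := fun a b h1 h2 h3 => by
      have := ih (b - a) h3 _ ((hu.shift a).mono (by omega)) (by omega) (by omega)
      simpa [show a + (b - a) = b by omega] using this
    have h2 : n ≠ 1 := by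
      rintro rfl
      exact (hu.1 0 h0).ne e
    have h3 : n ≠ 2 := by
      rintro rfl
      exact hu.2 0 le_rfl e.symm
    have h4 : ∀ i, 1 ≤ i → i ≤ n → (G.deleteEdges {s(u 0, u 1)}).Reachable (u 1) (u i) := by
      intro i hi
      induction i, hi using Nat.le_induction with
      | base => intro _; rfl
      | succ i hi ih2 =>
        intro hn
        refine (ih2 (by omega)).trans (SimpleGraph.Adj.reachable ?_)
        rw [SimpleGraph.deleteEdges_adj, Set.mem_singleton_iff, Sym2.eq_iff]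
        refine ⟨hu.1 i (by omega), ?_⟩
        rintro (⟨a, -⟩ | ⟨a, b⟩)
        · exact h1 0 i (by omega) (by omega) (by omega) a.symm
        · rcases hi.eq_or_lt with rfl | hi'
          · exact hu.2 0 (by omega) b
          · exact h1 1 i hi' (by omega) (by omega) a.symm
    refine SimpleGraph.isBridge_iff.1
      (SimpleGraph.isAcyclic_iff_forall_adj_isBridge.1 h (hu.1 0 h0)) ?_
    have := (h4 n h0 le_rfl).symm
    rwa [← e] at this

/-- pendant trees do not create short closed walks -/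
theorem noClosed_pend {U : Type} {G : SimpleGraph V} {C : SimpleGraph U} (ι : U → V) (bs : V → U)
    (par : V → V) (dep : V → ℕ) (hι : ∀ u, dep (ι u) = 0) (hb : ∀ v, dep v = 0 → v = ι (bs v))
    (h1 : ∀ u v, G.Adj u v → (dep u = 0 ∧ dep v = 0 ∧ C.Adj (bs u) (bs v)) ∨
      (v = par u ∧ dep v < dep u) ∨ (u = par v ∧ dep u < dep v))
    (hbι : ∀ u, bs (ι u) = u) {g : ℕ} (hC : NoClosed C g) : NoClosed G g := by
  intro u n
  induction n using Nat.strong_induction_on generalizing u with
  | _ n ih =>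
    intro hu h0 hg e
    have st := fun i (hi : i < n) => h1 _ _ (hu.1 i hi)
    have hd : ∀ i k, i ≤ k → k < n → dep (u i) < dep (u (i + 1)) →
        dep (u k) < dep (u (k + 1)) ∧ dep (u i) < dep (u (k + 1)) := by
      intro i k hik
      induction k, hik using Nat.le_induction with
      | base => exact fun _ h => ⟨h, h⟩
      | succ k hik ih2 =>
        intro hk hi
        obtain ⟨a1, a2⟩ := ih2 (by omega) hi
        rcases st k (by omega) with b | b | b
        · omega
        · omega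
        rcases st (k + 1) hk with d | d | d
        · omega
        · exact absurd (d.1.trans b.1.symm) (hu.2 k (by omega))
        · omega
    have hp : ∀ k, k < n → dep (u (k + 1)) < dep (u k) →
        dep (u 1) < dep (u 0) ∧ dep (u (k + 1)) < dep (u 0) := by
      intro k
      induction k with
      | zero => exact fun _ h => ⟨h, h⟩
      | succ k ih2 =>
        intro hk hi
        rcases st (k + 1) hk with d | d | d
        · omega
        swap
        · omega
        rcases st k (by omega) with b | b | b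
        · omega
        · have := ih2 (by omega) b.2
          omega
        · exact absurd (d.1.trans b.1.symm) (hu.2 k (by omega))
    obtain ⟨m, rfl⟩ : ∃ m, n = m + 1 := ⟨n - 1, by omega⟩
    have ed : dep (u 0) = dep (u (m + 1)) := congrArg dep e
    rcases st 0 h0 with a | a | a
    · have h2 : ∀ i < m + 1, dep (u i) = 0 ∧ dep (u (i + 1)) = 0 ∧
          C.Adj (bs (u i)) (bs (u (i + 1))) := by
        intro i hi
        rcases st i hi with b | b | b
        · exact b
        · have := hp i hi b.2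
          omega
        · have := hd i m (by omega) (by omega) b.2
          omega
      refine hC (fun i => bs (u i)) (m + 1) ⟨fun i hi => (h2 i hi).2.2, fun i hi e' => ?_⟩ h0 hg
        (congrArg bs e)
      refine hu.2 i hi ?_
      rw [hb _ (h2 (i + 1) (by omega)).2.1, hb _ (h2 i (by omega)).1]
      exact congrArg ι e'
    · rcases st m (by omega) with b | b | b
      · omega
      · have := hp m (by omega) b.2
        omega
      · have e1 : u 1 = u m := by rw [b.1, ← e]; exact a.1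
        rcases m with _ | _ | m
        · omega
        · exact hu.2 0 le_rfl e.symm
        · refine ih (m + 1) (by omega) _ ((hu.shift 1).mono (by omega)) (by omega) (by omega) ?_
          rw [show 1 + (m + 1) = m + 1 + 1 by omega]
          exact e1
    · have := hd 0 m (by omega) (by omega) a.2
      omega

/-- such a graph has no closed non-backtracking walk -/
theorem noClosed_of_par {G : SimpleGraph V} (r : V) (par : V → V) (dep : V → ℕ)
    (h0 : ∀ v, v ≠ r → G.Adj v (par v) ∧ dep (par v) < dep v)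
    (h1 : ∀ u v, G.Adj u v → (u ≠ r ∧ v = par u) ∨ (v ≠ r ∧ u = par v)) (g : ℕ) : NoClosed G g := by
  classical
  have h2 : ∀ v, v ≠ r → (if par v = r then 0 else dep (par v) + 1)
      < if v = r then 0 else dep v + 1 := by
    intro v hv
    have := (h0 v hv).2
    rw [if_neg hv]
    split_ifs <;> omega
  refine noClosed_pend (U := Unit) (C := ⊥) (fun _ => r) (fun _ => ()) par
    (fun v => if v = r then 0 else dep v + 1) (fun _ => if_pos rfl) (fun v hv => ?_)
    (fun u v h => Or.inr ?_) (fun _ => rfl) fun u n hu hn _ => (hu.1 0 hn).elim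
  · by_contra h
    rw [if_neg h] at hv
    omega
  · rcases h1 u v h with ⟨a, rfl⟩ | ⟨a, rfl⟩
    · exact Or.inl ⟨rfl, h2 u a⟩
    · exact Or.inr ⟨rfl, h2 v a⟩

/-- a graph in which every edge joins a vertex to its parent is a tree -/
theorem tree_of_par {G : SimpleGraph V} (r : V) (par : V → V) (dep : V → ℕ)
    (h0 : ∀ v, v ≠ r → G.Adj v (par v) ∧ dep (par v) < dep v)
    (h1 : ∀ u v, G.Adj u v → (u ≠ r ∧ v = par u) ∨ (v ≠ r ∧ u = par v)) : G.IsTree := by
  have h2 : ∀ v, G.Reachable v r := by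
    intro v
    induction hn : dep v using Nat.strong_induction_on generalizing v with
    | _ n ih =>
      by_cases hv : v = r
      · rw [hv]
      · exact (h0 v hv).1.reachable.trans (ih _ (hn ▸ (h0 v hv).2) _ rfl)
  have : Nonempty V := ⟨r⟩
  exact ⟨⟨fun a b => (h2 a).trans (h2 b).symm⟩,
    acyclic_of_noClosed (noClosed_of_par r par dep h0 h1)⟩

/-- depth in a gadget -/
def gcDep : GX → ℕ
  | .root => 0
  | .obj _ _ _ .s1 => 1
  | .obj _ _ _ .s2 => 2
  | .obj _ _ _ .g => 3
  | .obj _ _ _ (.leg _ false) => 4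
  | .obj _ _ _ (.leg _ true) => 5
  | .obj _ _ _ (.mk l) => l.length + 2

lemma gcDep_par {x : GX} (h : x ≠ .root) : gcDep (gpar x) < gcDep x := by
  rcases x with _ | ⟨a, c, t, _ | _ | _ | ⟨i, _ | _⟩ | ⟨_ | ⟨j, l⟩⟩⟩ <;> simp [gpar, gcDep] at h ⊢

lemma gc_ok_par {i0 lam : ℕ} {x : GX} (h : okX F j i0 c lam x) : okX F j i0 c lam (gpar x) := by
  rcases x with _ | ⟨a, c, t, _ | _ | _ | ⟨i, _ | _⟩ | ⟨_ | ⟨j, l⟩⟩⟩ <;>
    simp_all [gpar, okX, okP, MK]

/-- parent in the graph with gadgets -/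
def gcPar (f : V → ℕ) (x : GV F j κ c f) : GV F j κ c f := ⟨(x.1.1, gpar x.1.2), gc_ok_par x.2⟩

lemma gc_root {f : V → ℕ} {x : GV F j κ c f} (h : x.1.2 = .root) : x = gcRoot f x.1.1 :=
  Subtype.ext (Prod.ext rfl h)

theorem gad_tree {S : SimpleGraph V} (hS : S.IsTree) (f : V → ℕ) : (Gad F j κ c S f).IsTree := by
  have h1 : ∀ x : GV F j κ c f, (Gad F j κ c S f).Reachable x (gcRoot f x.1.1) := by
    intro x
    induction hn : gcDep x.1.2 using Nat.strong_induction_on generalizing x with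
    | _ n ih =>
      by_cases hx : x.1.2 = .root
      · rw [← gc_root hx]
      · have a1 : (Gad F j κ c S f).Adj x (gcPar f x) := Or.inr ⟨rfl, Or.inl ⟨hx, rfl⟩⟩
        exact a1.reachable.trans (ih _ (hn ▸ gcDep_par hx) (gcPar f x) rfl)
  have h2 : ∀ a b, (Gad F j κ c S f).Reachable (gcRoot f a) (gcRoot f b) := fun a b =>
    (hS.connected.preconnected a b).map
      (⟨gcRoot f, fun h => Or.inl ⟨rfl, rfl, h⟩⟩ : S →g Gad F j κ c S f)
  have : Nonempty (GV F j κ c f) := hS.connected.nonempty.map (gcRoot f)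
  refine ⟨⟨fun a b => ((h1 a).trans (h2 _ _)).trans (h1 b).symm⟩, acyclic_of_noClosed fun g => ?_⟩
  refine noClosed_pend (gcRoot f) (fun x => x.1.1) (gcPar f) (fun x => gcDep x.1.2)
    (fun _ => rfl) (fun x hx => gc_root ?_) ?_ (fun _ => rfl) (noClosed_of_acyclic hS.isAcyclic g)
  · by_contra h
    have := gcDep_par h
    omega
  · rintro x y (⟨a1, a2, a3⟩ | ⟨a1, ⟨a2, a3⟩ | ⟨a2, a3⟩⟩)
    · exact Or.inl ⟨by rw [a1]; rfl, by rw [a2]; rfl, a3⟩
    · exact Or.inr (Or.inl ⟨Subtype.ext (Prod.ext a1.symm a3.symm), a3 ▸ gcDep_par a2⟩)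
    · exact Or.inr (Or.inr ⟨Subtype.ext (Prod.ext a1 a3.symm), a3 ▸ gcDep_par a2⟩)

theorem gad_conn {S : SimpleGraph V} {f : V → ℕ} (h : (Gad F j κ c S f).Connected) : S.Connected := by
  have h1 : ∀ x y : GV F j κ c f, (Gad F j κ c S f).Reachable x y → S.Reachable x.1.1 y.1.1 := by
    intro x y hxy
    rw [SimpleGraph.reachable_iff_reflTransGen] at hxy
    induction hxy with
    | refl => rfl
    | tail _ hb ih =>
      rcases hb with ⟨-, -, a⟩ | ⟨a, -⟩
      · exact ih.trans a.reachable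
      · exact a ▸ ih
  have : Nonempty V := h.nonempty.map fun x => x.1.1
  exact ⟨fun a b => h1 (gcRoot f a) (gcRoot f b) (h.preconnected _ _)⟩

theorem gad_iso {S : SimpleGraph V} {f : V → ℕ} {S' : SimpleGraph W} {f' : W → ℕ} (e : S ≃g S')
    (he : ∀ v, f' (e v) = f v) : Nonempty (Gad F j κ c S f ≃g Gad F j κ c S' f') := by
  refine ⟨⟨⟨fun x => ⟨(e x.1.1, x.1.2), by rw [he]; exact x.2⟩,
    fun y => ⟨(e.symm y.1.1, y.1.2), by
      rw [← he, RelIso.apply_symm_apply]; exact y.2⟩,
    fun x => Subtype.ext (Prod.ext (e.symm_apply_apply _) rfl),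
    fun y => Subtype.ext (Prod.ext (e.apply_symm_apply _) rfl)⟩, fun {x y} => ?_⟩⟩
  show gadj S' (e x.1.1, x.1.2) (e y.1.1, y.1.2) ↔ gadj S x.1 y.1
  simp only [gadj, e.map_adj_iff, e.injective.eq_iff]

/-- a label preserving covering from a connected graph with a unique root label -/
theorem cover_iso {Lab : Type} {T : SimpleGraph V} {H : SimpleGraph W} {f : V → Lab} {f' : W → Lab}
    (r : V) (par : V → V) (dep : V → ℕ)
    (h0 : ∀ v, v ≠ r → T.Adj v (par v) ∧ dep (par v) < dep v)
    (h1 : ∀ u v, T.Adj u v → (u ≠ r ∧ v = par u) ∨ (v ≠ r ∧ u = par v))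
    (hr : ∀ v, f v = f r → v = r)
    (dT : ∀ v a b, T.Adj v a → T.Adj v b → f a = f b → a = b)
    (dH : ∀ v a b, H.Adj v a → H.Adj v b → f' a = f' b → a = b)
    (I : V → W → Prop) (r' : W) (hI : I r r') (hl : ∀ t v, I t v → f' v = f t)
    (hn : ∀ t v a, I t v → H.Adj v a → ∃ b, T.Adj t b ∧ f b = f' a)
    (hc : ∀ t v b, I t v → b ≠ r → par b = t → ∃ a, H.Adj v a ∧ I b a)
    (hH : ∀ v, H.Reachable r' v) : ∃ e : T ≃g H, ∀ v, f' (e v) = f v := by
  classical
  obtain ⟨N, hN⟩ : ∃ N : V → W → W, ∀ t v, (∃ a, H.Adj v a ∧ I t a) →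
      H.Adj v (N t v) ∧ I t (N t v) :=
    ⟨fun t v => if h : ∃ a, H.Adj v a ∧ I t a then h.choose else r', fun t v h => by
      simp only [dif_pos h]
      exact h.choose_spec⟩
  obtain ⟨φ, p1, p2⟩ : ∃ φ : V → W, φ r = r' ∧ ∀ t, t ≠ r → φ t = N t (φ (par t)) := by
    refine ⟨(measure dep).wf.fix fun t ih => if h : t = r then r' else
      N t (ih (par t) (h0 t h).2), ?_, fun t ht => ?_⟩
    · rw [WellFounded.fix_eq, dif_pos rfl]
    · rw [WellFounded.fix_eq, dif_neg ht]
  have p3 : ∀ t, I t (φ t) := by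
    intro t
    induction hd : dep t using Nat.strong_induction_on generalizing t with
    | _ n ih =>
      by_cases ht : t = r
      · rw [ht, p1]; exact hI
      · rw [p2 t ht]
        exact (hN _ _ (hc _ _ t (ih _ (hd ▸ (h0 t ht).2) _ rfl) ht rfl)).2
  have p4 : ∀ t, t ≠ r → H.Adj (φ (par t)) (φ t) := fun t ht => by
    rw [p2 t ht]
    exact (hN _ _ (hc _ _ t (p3 _) ht rfl)).1
  have p5 : ∀ a b, T.Adj a b → H.Adj (φ a) (φ b) := fun a b h => by
    rcases h1 a b h with ⟨x, rfl⟩ | ⟨x, rfl⟩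
    · exact (p4 a x).symm
    · exact p4 b x
  have p6 : ∀ t, f' (φ t) = f t := fun t => hl _ _ (p3 t)
  have p7 : ∀ t a, H.Adj (φ t) a → ∃ b, T.Adj t b ∧ φ b = a := fun t a h => by
    obtain ⟨b, b1, b2⟩ := hn t _ a (p3 t) h
    exact ⟨b, b1, dH _ _ _ (p5 _ _ b1) h ((p6 b).trans b2)⟩
  have p8 : Function.Surjective φ := by
    intro v
    have := (SimpleGraph.reachable_iff_reflTransGen _ _).1 (hH v)
    induction this with
    | refl => exact ⟨r, p1⟩
    | tail _ hb ih =>
      obtain ⟨t, rfl⟩ := ih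
      obtain ⟨b, -, b2⟩ := p7 t _ hb
      exact ⟨b, b2⟩
  have p9 : Function.Injective φ := by
    intro t
    induction hd : dep t using Nat.strong_induction_on generalizing t with
    | _ n ih =>
      intro t' e
      have e1 : f t = f t' := by rw [← p6, e, p6]
      by_cases ht : t = r
      · rw [ht] at e1 ⊢
        exact (hr t' e1.symm).symm
      · obtain ⟨b, b1, b2⟩ := p7 t' (φ (par t)) (e ▸ (p4 t ht).symm)
        have b3 : par t = b := ih _ (hd ▸ (h0 t ht).2) rfl b2.symm
        exact dT (par t) _ _ (h0 t ht).1.symm (b3 ▸ b1.symm) e1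
  refine ⟨⟨Equiv.ofBijective φ ⟨p9, p8⟩, fun {a b} => ⟨fun h => ?_, p5 a b⟩⟩, p6⟩
  obtain ⟨b', b1, b2⟩ := p7 a _ h
  exact p9 b2 ▸ b1

end Pool.Agent.H655Z.TD
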