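import Pool.Agent.H655Z.TD.Reduce1

/-! The tests on coded graphs are primitive recursive. -/

set_option autoImplicit false

namespace Pool.Agent.H655Z.TD.Red

open Pool.Agent.H431Z.LD

section prim

variable {α β : Type} [Primcodable α] [Primcodable β]

lemma pp_iff {p q : α → Prop} (hp : PrimrecPred p) (hq : PrimrecPred q) :
    PrimrecPred fun x => p x ↔ q x :=
  ((pp_imp hp hq).and (pp_imp hq hp)).of_eq fun _ => iff_iff_implies_and_implies.symm

lemma pp_allmem {f : α → List β} {r : α → β → Prop} (hf : Primrec f)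
    (hr : PrimrecPred fun x : α × β => r x.1 x.2) : PrimrecPred fun x => ∀ y ∈ f x, r x y := by
  have h : PrimrecRel fun (y : β) (x : α) => r x y := PrimrecRel.swap (r := r) hr
  exact h.forall_mem_list.comp hf Primrec.id

lemma pp_mem {f : α → List β} {g : α → β} (hg : Primrec g) (hf : Primrec f) :
    PrimrecPred fun x => g x ∈ f x := by
  have h : PrimrecRel fun (y : β) (x : α) => y = g x :=
    pp_eq (f := fun p : β × α => p.1) (g := fun p : β × α => g p.2) Primrec.fst
      (hg.comp Primrec.snd)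
  exact (h.exists_mem_list.comp hf Primrec.id).of_eq (by simp)

lemma pp_A {f g h : α → ℕ} (hf : Primrec f) (hg : Primrec g) (hh : Primrec h) :
    PrimrecPred fun x => A (f x) (g x) (h x) :=
  (pp_ne hg hh).and ((pp_bit hf (p_natpair hg hh)).or (pp_bit hf (p_natpair hh hg)))

@[fun_prop] lemma p_cons {f : α → β} {g : α → List β} (hf : Primrec f) (hg : Primrec g) :
    Primrec fun x => f x :: g x := Primrec.list_cons.comp hf hg

@[fun_prop] lemma p_length {g : α → List β} (hg : Primrec g) :
    Primrec fun x => (g x).length := Primrec.list_length.comp hg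

end prim

lemma pp_tr : PrimrecPred fun x : ℕ × ℕ => Tr x.1 x.2 := by
  unfold Tr Rch
  repeat' first
    | with_reducible refine PrimrecPred.and ?_ ?_
    | with_reducible refine PrimrecPred.or ?_ ?_
    | with_reducible refine PrimrecPred.not ?_
    | with_reducible refine pp_all ?_ ?_
    | with_reducible refine pp_imp ?_ ?_
    | with_reducible refine pp_bit ?_ ?_
    | with_reducible refine pp_eq ?_ ?_
    | with_reducible refine pp_lt ?_ ?_
    | with_reducible refine pp_A ?_ ?_ ?_
  all_goals fun_prop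

lemma pp_iso : PrimrecPred fun x : ℕ × ℕ × ℕ × ℕ => ISO x.1 x.2.1 x.2.2.1 x.2.2.2 := by
  unfold ISO
  repeat' first
    | with_reducible refine PrimrecPred.and ?_ ?_
    | with_reducible refine pp_all ?_ ?_
    | with_reducible refine pp_ex ?_ ?_
    | with_reducible refine pp_imp ?_ ?_
    | with_reducible refine pp_iff ?_ ?_
    | with_reducible refine pp_bit ?_ ?_
    | with_reducible refine pp_eq ?_ ?_
    | with_reducible refine pp_A ?_ ?_ ?_
  all_goals fun_prop

lemma pp_pin : PrimrecPred fun x : ℕ × ℕ × List (ℕ × ℕ) => PIn x.1 x.2.1 x.2.2 := by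
  unfold PIn
  repeat' first
    | with_reducible refine PrimrecPred.and ?_ ?_
    | with_reducible refine pp_allmem ?_ ?_
    | with_reducible refine pp_iff ?_ ?_
    | with_reducible refine pp_eq ?_ ?_
    | with_reducible refine pp_A ?_ ?_ ?_
  all_goals fun_prop

lemma pp_pin' {α : Type} [Primcodable α] {f g : α → ℕ} {h : α → List (ℕ × ℕ)} (hf : Primrec f)
    (hg : Primrec g) (hh : Primrec h) : PrimrecPred fun x => PIn (f x) (g x) (h x) :=
  pp_pin.comp (hf.pair (hg.pair hh))

lemma pp_efc : PrimrecPred fun x : (ℕ × ℕ × ℕ) × ℕ × ℕ × List (List (ℕ × ℕ)) =>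
    EFC x.1.1 x.1.2.1 x.2.1 x.2.2.1 x.1.2.2 x.2.2.2 := by
  unfold EFC
  repeat' first
    | with_reducible refine PrimrecPred.and ?_ ?_
    | with_reducible refine pp_allmem ?_ ?_
    | with_reducible refine pp_all ?_ ?_
    | with_reducible refine pp_ex ?_ ?_
    | with_reducible refine pp_imp ?_ ?_
    | with_reducible refine pp_mem ?_ ?_
    | with_reducible refine pp_lt ?_ ?_
    | with_reducible refine pp_pin' ?_ ?_ ?_
  all_goals fun_prop

lemma p_lst : Primrec fun x : ℕ × ℕ => lst x.1 x.2 := by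
  classical
  have h1 : PrimrecRel fun (x : ℕ) (g : ℕ) => A g x.unpair.1 x.unpair.2 :=
    pp_A (α := ℕ × ℕ) (by fun_prop) (by fun_prop) (by fun_prop)
  have h2 : Primrec fun x : ℕ × ℕ => List.range (x.1 * x.1) :=
    Primrec.list_range.comp (by fun_prop)
  exact Primrec.list_map (h1.listFilter.comp h2 Primrec.snd) (Primrec.unpair.comp Primrec.snd)

section comp

variable {α β : Type} [Primcodable α] [Primcodable β]

lemma cp_comp {p : β → Prop} {f : α → β} (hp : ComputablePred p) (hf : Computable f) :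
    ComputablePred fun x => p (f x) := by
  classical
  exact (hp.decide.comp hf).computablePred

lemma cp_and {p q : α → Prop} (hp : ComputablePred p) (hq : ComputablePred q) :
    ComputablePred fun x => p x ∧ q x := by
  classical
  exact ((Primrec.and.to_comp.comp hp.decide hq.decide).of_eq fun x => by simp).computablePred

lemma cp_or {p q : α → Prop} (hp : ComputablePred p) (hq : ComputablePred q) :
    ComputablePred fun x => p x ∨ q x :=
  (cp_and hp.not hq.not).not.of_eq fun x => by tauto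

lemma cp_all {f : α → ℕ} {r : α → ℕ → Prop} (hf : Computable f)
    (hr : ComputablePred fun x : α × ℕ => r x.1 x.2) : ComputablePred fun x => ∀ y < f x, r x y := by
  classical
  have h1 : Computable₂ fun (a : α) (p : ℕ × Bool) => (p.2 && decide (r a p.1)) :=
    Primrec.and.to_comp.comp (Computable.snd.comp Computable.snd)
      (hr.decide.comp (Computable.fst.pair (Computable.fst.comp Computable.snd)))
  refine ((Computable.nat_rec hf (Computable.const true) h1).of_eq fun x => ?_).computablePred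
  induction f x with
  | zero => simp
  | succ n ih =>
    simp only [ih, Nat.forall_lt_succ_right]
    simp

lemma cp_ex {f : α → ℕ} {r : α → ℕ → Prop} (hf : Computable f)
    (hr : ComputablePred fun x : α × ℕ => r x.1 x.2) : ComputablePred fun x => ∃ y < f x, r x y :=
  (cp_all (r := fun x y => ¬ r x y) hf hr.not).not.of_eq fun x => by simp

lemma re_ex {r : α → ℕ → Prop} (hr : ComputablePred fun x : α × ℕ => r x.1 x.2) :
    REPred fun x => ∃ y, r x y := by
  classical
  have h : Partrec fun x => Nat.rfind fun n => Part.some (decide (r x n)) :=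
    Partrec.rfind hr.decide.partrec
  refine h.dom_re.of_eq fun x => ?_
  refine Nat.rfind_dom.trans ?_
  simp

end comp

lemma collect {B : ℕ} {P : ℕ → ℕ → Prop} (hP : ∀ x M M', M ≤ M' → P x M → P x M')
    (h : ∀ x < B, ∃ M, P x M) : ∃ M, ∀ x < B, P x M := by
  induction B with
  | zero => exact ⟨0, by simp⟩
  | succ B ih =>
    obtain ⟨M, hM⟩ := ih fun x hx => h x (by omega)
    obtain ⟨M', hM'⟩ := h B (by omega)
    refine ⟨max M M', fun x hx => ?_⟩
    rcases Nat.lt_succ_iff_lt_or_eq.1 hx with hx | rfl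
    · exact hP _ _ _ (le_max_left _ _) (hM x hx)
    · exact hP _ _ _ (le_max_right _ _) hM'

/-- witnesses -/
abbrev Wt : Type := ℕ × ℕ × List (List (ℕ × ℕ))

/-- the certificate at one code -/
def Cert (Hlt : ℕ → ℕ → Prop) (f : ℕ → List (ℕ × ℕ) → ℕ) (n N g : ℕ) (w : Wt) : Prop :=
  (¬ Tr N g ∨ f N (lst N g) = 0) ∨
    ((EFC N g w.1 w.2.1 (f N (lst N g) - 1) w.2.2 ∧ ¬ ISO N g w.1 w.2.1) ∧ ¬ Hlt n w.1)

lemma cp_cert {Hlt : ℕ → ℕ → Prop} (hc : ComputablePred fun p : ℕ × ℕ => Hlt p.1 p.2)
    {f : ℕ → List (ℕ × ℕ) → ℕ} (hf : Computable₂ f) :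
    ComputablePred fun x : (ℕ × ℕ × ℕ) × Wt => Cert Hlt f x.1.1 x.1.2.1 x.1.2.2 x.2 := by
  have hD : Computable fun x : (ℕ × ℕ × ℕ) × Wt => f x.1.2.1 (lst x.1.2.1 x.1.2.2) :=
    hf.comp (Primrec.to_comp (by fun_prop)) (p_lst.comp (by fun_prop)).to_comp
  refine cp_or (cp_or ?_ ?_) (cp_and (cp_and ?_ ?_) ?_)
  · exact (pp_tr.comp (f := fun x : (ℕ × ℕ × ℕ) × Wt => x.1.2)
      (by fun_prop)).not.computablePred
  · exact cp_comp (p := fun d : ℕ => d = 0)
      (pp_eq Primrec.id (Primrec.const 0)).computablePred hD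
  · have h1 : Computable fun x : (ℕ × ℕ × ℕ) × Wt => f x.1.2.1 (lst x.1.2.1 x.1.2.2) - 1 :=
      Computable.pred.comp hD
    exact cp_comp pp_efc.computablePred (f := fun x : (ℕ × ℕ × ℕ) × Wt =>
      ((x.1.2.1, x.1.2.2, f x.1.2.1 (lst x.1.2.1 x.1.2.2) - 1), x.2))
      (((Primrec.to_comp (by fun_prop)).pair ((Primrec.to_comp (by fun_prop)).pair h1)).pair
        Computable.snd)
  · exact (pp_iso.comp (f := fun x : (ℕ × ℕ × ℕ) × Wt => (x.1.2.1, x.1.2.2, x.2.1, x.2.2.1))
      (by fun_prop)).not.computablePred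
  · exact (cp_comp hc (f := fun x : (ℕ × ℕ × ℕ) × Wt => (x.1.1, x.2.1))
      (Primrec.to_comp (by fun_prop))).not

lemma re_cert {Hlt : ℕ → ℕ → Prop} (hc : ComputablePred fun p : ℕ × ℕ => Hlt p.1 p.2)
    {f : ℕ → List (ℕ × ℕ) → ℕ} (hf : Computable₂ f) {s : ℕ → ℕ} (hs : Computable s) :
    REPred fun n => ∀ N < s n + 1, ∀ g < 2 ^ (N * N), ∃ w, Cert Hlt f n N g w := by
  have h : ComputablePred fun x : ℕ × ℕ => ∀ N < s x.1 + 1, ∀ g < 2 ^ (N * N), ∃ w < x.2,
      Cert Hlt f x.1 N g (Denumerable.ofNat Wt w) := by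
    refine cp_all (Computable.succ.comp (hs.comp Computable.fst)) ?_
    refine cp_all (Primrec.to_comp (by fun_prop)) ?_
    refine cp_ex (Primrec.to_comp (by fun_prop)) ?_
    exact cp_comp (cp_cert hc hf) (f := fun x : (((ℕ × ℕ) × ℕ) × ℕ) × ℕ =>
      ((x.1.1.1.1, x.1.1.2, x.1.2), Denumerable.ofNat Wt x.2))
      ((Primrec.to_comp (by fun_prop)).pair ((Computable.ofNat Wt).comp Computable.snd))
  refine (re_ex (r := fun n M => ∀ N < s n + 1, ∀ g < 2 ^ (N * N), ∃ w < M,
      Cert Hlt f n N g (Denumerable.ofNat Wt w)) h).of_eq fun n => ?_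
  constructor
  · rintro ⟨M, hM⟩ N hN g hg
    obtain ⟨w, -, hw⟩ := hM N hN g hg
    exact ⟨_, hw⟩
  · intro hh
    refine collect (fun N M M' hM hP g hg => ?_) fun N hN => ?_
    · obtain ⟨w, h1, h2⟩ := hP g hg
      exact ⟨w, by omega, h2⟩
    · refine collect (fun g M M' hM hP => ?_) fun g hg => ?_
      · obtain ⟨w, h1, h2⟩ := hP
        exact ⟨w, by omega, h2⟩
      · obtain ⟨w, hw⟩ := hh N hN g hg
        exact ⟨Encodable.encode w + 1, Encodable.encode w, by omega,
          by rwa [Denumerable.ofNat_encode]⟩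

end Pool.Agent.H655Z.TD.Red
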