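import Pool.Agent.H655Z.TD.Walk
import Pool.Agent.H655Z.TD.Reduce2

set_option autoImplicit false

namespace Pool.Agent.H655Z.TD

open Pool.Agent.H431Z.LD

theorem reduce (Hlt : ℕ → ℕ → Prop) (hc : ComputablePred fun p : ℕ × ℕ => Hlt p.1 p.2)
    (hm : ∀ n t t', t ≤ t' → Hlt n t → Hlt n t') (hu : ¬ ComputablePred fun n => ∃ t, Hlt n t)
    (s : ℕ → ℕ) (hs : Computable s)
    (hT : ∀ n, (∃ t, Hlt n t) → ∃ (V : Type) (_ : Finite V) (T : SimpleGraph V) (k : ℕ),
      T.IsTree ∧ Nat.card V ≤ s n ∧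
      (∃ (W : Type) (_ : Finite W) (G : SimpleGraph W), E T G k [] ∧ IsEmpty (T ≃g G)) ∧
      ∀ (W : Type) [Finite W] (G : SimpleGraph W), E T G k [] → IsEmpty (T ≃g G) →
        Hlt n (Nat.card W)) :
    ¬ (∃ f : ℕ → List (ℕ × ℕ) → ℕ, Computable₂ f ∧
      ∀ (n : ℕ) (T : SimpleGraph (Fin n)) (l : List (ℕ × ℕ)), T.IsTree →
        (∀ i j : Fin n, T.Adj i j ↔ ((i : ℕ), (j : ℕ)) ∈ l ∨ ((j : ℕ), (i : ℕ)) ∈ l) →
        ((∀ (m : ℕ) (H : SimpleGraph (Fin m)),
            (∃ R : (j : ℕ) → (Fin j → Fin n) → (Fin j → Fin m) → Prop,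
              R 0 Fin.elim0 Fin.elim0 ∧
              (∀ j ≤ f n l, ∀ (a : Fin j → Fin n) (b : Fin j → Fin m), R j a b →
                ∀ i i' : Fin j, (a i = a i' ↔ b i = b i') ∧
                  (T.Adj (a i) (a i') ↔ H.Adj (b i) (b i'))) ∧
              (∀ j < f n l, ∀ (a : Fin j → Fin n) (b : Fin j → Fin m), R j a b →
                (∀ v : Fin n, ∃ w : Fin m,
                  R (j + 1) (Fin.snoc (α := fun _ => Fin n) a v)
                    (Fin.snoc (α := fun _ => Fin m) b w)) ∧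
                (∀ w : Fin m, ∃ v : Fin n,
                  R (j + 1) (Fin.snoc (α := fun _ => Fin n) a v)
                    (Fin.snoc (α := fun _ => Fin m) b w)))) →
            Nonempty (T ≃g H)) ∧
         ∀ k < f n l, ¬ (∀ (m : ℕ) (H : SimpleGraph (Fin m)),
            (∃ R : (j : ℕ) → (Fin j → Fin n) → (Fin j → Fin m) → Prop,
              R 0 Fin.elim0 Fin.elim0 ∧
              (∀ j ≤ k, ∀ (a : Fin j → Fin n) (b : Fin j → Fin m), R j a b →
                ∀ i i' : Fin j, (a i = a i' ↔ b i = b i') ∧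
                  (T.Adj (a i) (a i') ↔ H.Adj (b i) (b i'))) ∧
              (∀ j < k, ∀ (a : Fin j → Fin n) (b : Fin j → Fin m), R j a b →
                (∀ v : Fin n, ∃ w : Fin m,
                  R (j + 1) (Fin.snoc (α := fun _ => Fin n) a v)
                    (Fin.snoc (α := fun _ => Fin m) b w)) ∧
                (∀ w : Fin m, ∃ v : Fin n,
                  R (j + 1) (Fin.snoc (α := fun _ => Fin n) a v)
                    (Fin.snoc (α := fun _ => Fin m) b w)))) →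
            Nonempty (T ≃g H)))) := by
  rintro ⟨f, hf, hD⟩
  simp only [Red.rform_iff] at hD
  refine hu (ComputablePred.computable_iff_re_compl_re'.2
    ⟨Red.re_ex hc, (Red.re_cert hc hf hs).of_eq fun n => ⟨fun h hn => ?_, fun hn N _ g _ => ?_⟩⟩)
  · obtain ⟨V, _, T, k, h1, h2, ⟨W, _, G, h3, h4⟩, h5⟩ := hT n hn
    obtain ⟨g, hg, ⟨e⟩⟩ := Red.exists_code' T
    have ht : (Red.Gr _ g).IsTree := e.isTree_iff.1 h1
    obtain ⟨d1, -⟩ := hD _ _ _ ht (Red.lst_spec _ g)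
    have hk : k < f (Nat.card V) (Red.lst (Nat.card V) g) := by
      by_contra hk
      obtain ⟨g', -, ⟨e'⟩⟩ := Red.exists_code' G
      have : E (Red.Gr _ g) (Red.Gr _ g') k [] :=
        E.comp (E.comp (E.of_iso e.symm k [] (by simp)) h3 (l := []) (by simp))
          (E.of_iso e' k [] (by simp)) (by simp)
      obtain ⟨j⟩ := d1 _ _ (this.mono (not_lt.1 hk))
      exact h4.false ((e.trans j).trans e'.symm)
    obtain ⟨⟨m, g', R⟩, (hw | hw) | ⟨⟨w1, w2⟩, w3⟩⟩ := h _ (Nat.lt_succ_of_le h2) g hg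
    · exact hw ((Red.tr_iff _ _).1 ht)
    · omega
    · have hE := ((Red.efc_iff _ _ _ _ _).2 ⟨R, w1⟩).mono (k' := k) (by omega)
      have := h5 (Fin m) (Red.Gr m g') (E.comp (E.of_iso e k [] (by simp)) hE (by simp))
        ⟨fun j => w2 ((Red.iso_iff _ _ _ _).1 ⟨e.symm.trans j⟩)⟩
      rw [Nat.card_fin] at this
      exact w3 this
  · by_cases ht : Red.Tr N g
    · by_cases h0 : f N (Red.lst N g) = 0
      · exact ⟨(0, 0, []), Or.inl (Or.inr h0)⟩
      · obtain ⟨-, d2⟩ := hD _ _ _ ((Red.tr_iff _ _).2 ht) (Red.lst_spec _ g)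
        have := d2 (f N (Red.lst N g) - 1) (by omega)
        push Not at this
        obtain ⟨m, H, h1, h2⟩ := this
        obtain ⟨g', -, rfl⟩ := Red.exists_code H
        obtain ⟨R, hR⟩ := (Red.efc_iff _ _ _ _ _).1 h1
        refine ⟨(m, g', R), Or.inr ⟨⟨hR, fun hi => ?_⟩, fun hh => hn ⟨m, hh⟩⟩⟩
        obtain ⟨j⟩ := (Red.iso_iff _ _ _ _).2 hi
        exact h2.false j
    · exact ⟨(0, 0, []), Or.inl (Or.inl ht)⟩

end Pool.Agent.H655Z.TD

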