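import Pool.Agent.H655Z.TD.Walk
import Pool.Agent.H431Z.LD.Comp

/-! Codes of finite graphs and decidable tests on them. -/

set_option autoImplicit false

namespace Pool.Agent.H655Z.TD.Red

open Pool.Agent.H431Z.LD

lemma bits (B : ℕ) (P : ℕ → Prop) : ∃ ρ < 2 ^ B, ∀ x < B, (ρ.testBit x = true ↔ P x) := by
  classical
  refine ⟨Nat.ofBits (n := B) fun i => decide (P i), Nat.ofBits_lt_two_pow _, fun x hx => ?_⟩
  rw [Nat.testBit_ofBits_lt _ _ hx]
  simp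

lemma pair_lt {i j B : ℕ} (hi : i < B) (hj : j < B) : Nat.pair i j < B * B := by
  have h := Nat.pair_lt_max_add_one_sq i j
  have h2 : max i j + 1 ≤ B := by omega
  calc _ < (max i j + 1) ^ 2 := h
    _ ≤ B ^ 2 := Nat.pow_le_pow_left h2 2
    _ = B * B := sq B

/-- adjacency coded by a number -/
def A (g i j : ℕ) : Prop :=
  i ≠ j ∧ (g.testBit (Nat.pair i j) = true ∨ g.testBit (Nat.pair j i) = true)

lemma A.symm {g i j : ℕ} (h : A g i j) : A g j i := ⟨h.1.symm, h.2.symm⟩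

/-- the coded graph -/
def Gr (N g : ℕ) : SimpleGraph (Fin N) where
  Adj i j := A g i j
  symm := ⟨fun _ _ h => h.symm⟩
  loopless := ⟨fun _ h => h.1 rfl⟩

lemma exists_code {N : ℕ} (T : SimpleGraph (Fin N)) : ∃ g < 2 ^ (N * N), Gr N g = T := by
  obtain ⟨g, h1, h2⟩ := bits (N * N) fun x => ∃ i j : Fin N, x = Nat.pair i j ∧ T.Adj i j
  refine ⟨g, h1, ?_⟩
  have key : ∀ i j : Fin N, g.testBit (Nat.pair i j) = true ↔ T.Adj i j := by
    intro i j
    rw [h2 _ (pair_lt i.2 j.2)]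
    refine ⟨?_, fun h => ⟨i, j, rfl, h⟩⟩
    rintro ⟨i', j', e, h⟩
    obtain ⟨e1, e2⟩ := Nat.pair_eq_pair.1 e
    rw [Fin.ext e1, Fin.ext e2]
    exact h
  ext i j
  change A g i j ↔ _
  unfold A
  rw [key, key]
  exact ⟨fun h => h.2.elim id fun h => h.symm, fun h => ⟨fun e => h.ne (Fin.ext e), Or.inl h⟩⟩

lemma exists_code' {V : Type} [Finite V] (T : SimpleGraph V) :
    ∃ g < 2 ^ (Nat.card V * Nat.card V), Nonempty (T ≃g Gr (Nat.card V) g) := by
  let e := Finite.equivFin V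
  obtain ⟨g, h1, h2⟩ := exists_code (T.comap e.symm)
  exact ⟨g, h1, ⟨h2 ▸ (SimpleGraph.Iso.comap e.symm T).symm⟩⟩

open Classical in
/-- the edge list of a code -/
noncomputable def lst (N g : ℕ) : List (ℕ × ℕ) :=
  ((List.range (N * N)).filter fun x => A g x.unpair.1 x.unpair.2).map Nat.unpair

lemma lst_spec (N g : ℕ) (i j : Fin N) :
    (Gr N g).Adj i j ↔ ((i : ℕ), (j : ℕ)) ∈ lst N g ∨ ((j : ℕ), (i : ℕ)) ∈ lst N g := by
  have key : ∀ i j : Fin N, ((i : ℕ), (j : ℕ)) ∈ lst N g ↔ A g i j := by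
    intro i j
    simp only [lst, List.mem_map, List.mem_filter, List.mem_range, decide_eq_true_eq]
    constructor
    · rintro ⟨x, ⟨-, h⟩, e⟩
      rwa [e] at h
    · intro h
      exact ⟨Nat.pair i j, ⟨pair_lt i.2 j.2, by simpa using h⟩, by simp⟩
  rw [key, key]
  exact ⟨Or.inl, fun h => h.elim id A.symm⟩

/-- reachability test -/
def Rch (N : ℕ) (R : ℕ → ℕ → Prop) (u v : ℕ) : Prop :=
  ∀ S < 2 ^ N, (∀ a < N, ∀ b < N, R a b → S.testBit a = true → S.testBit b = true) →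
    S.testBit u = true → S.testBit v = true

lemma rch_iff {N : ℕ} (G : SimpleGraph (Fin N)) (R : ℕ → ℕ → Prop)
    (hR : ∀ a b : Fin N, G.Adj a b ↔ R a b) (u v : Fin N) : G.Reachable u v ↔ Rch N R u v := by
  constructor
  · rintro ⟨w⟩ S - hS
    induction w with
    | nil => exact id
    | cons h _ ih => exact fun hu => ih (hS _ (Fin.is_lt _) _ (Fin.is_lt _) ((hR _ _).1 h) hu)
  · intro h
    obtain ⟨S, h1, h2⟩ := bits N fun x => ∃ a : Fin N, x = a ∧ G.Reachable u a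
    have key : ∀ a : Fin N, S.testBit a = true ↔ G.Reachable u a := by
      intro a
      rw [h2 _ a.2]
      refine ⟨?_, fun h => ⟨a, rfl, h⟩⟩
      rintro ⟨a', e, h⟩
      rwa [Fin.ext e]
    refine (key v).1 (h S h1 (fun a ha b hb hab hS => ?_) ((key u).2 (.refl _)))
    exact (key ⟨b, hb⟩).2 (((key ⟨a, ha⟩).1 hS).trans ((hR ⟨a, ha⟩ ⟨b, hb⟩).2 hab).reachable)

/-- tree test -/
def Tr (N g : ℕ) : Prop :=
  0 < N ∧ (∀ u < N, ∀ v < N, Rch N (A g) u v) ∧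
    ∀ u < N, ∀ v < N, A g u v →
      ¬ Rch N (fun a b => A g a b ∧ ¬ ((a = u ∧ b = v) ∨ (a = v ∧ b = u))) u v

lemma tr_iff (N g : ℕ) : (Gr N g).IsTree ↔ Tr N g := by
  have k1 := rch_iff (Gr N g) (A g) fun _ _ => Iff.rfl
  have k2 : ∀ u v : Fin N, ((Gr N g).deleteEdges {s(u, v)}).Reachable u v ↔
      Rch N (fun a b => A g a b ∧ ¬ ((a = u ∧ b = v) ∨ (a = v ∧ b = u))) u v := by
    intro u v
    refine rch_iff _ _ (fun a b => ?_) u v
    rw [SimpleGraph.deleteEdges_adj, Set.mem_singleton_iff, Sym2.eq_iff]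
    simp only [Fin.ext_iff]
    rfl
  rw [SimpleGraph.isTree_iff, SimpleGraph.isAcyclic_iff_forall_adj_isBridge,
    SimpleGraph.connected_iff]
  simp only [SimpleGraph.isBridge_iff, k2, SimpleGraph.Preconnected, k1]
  constructor
  · rintro ⟨⟨h1, h2⟩, h3⟩
    exact ⟨Fin.pos_iff_nonempty.2 h2, fun u hu v hv => h1 ⟨u, hu⟩ ⟨v, hv⟩,
      fun u hu v hv h => @h3 ⟨u, hu⟩ ⟨v, hv⟩ h⟩
  · rintro ⟨h1, h2, h3⟩
    exact ⟨⟨fun u v => h2 u u.2 v v.2, Fin.pos_iff_nonempty.1 h1⟩, fun u v h => h3 u u.2 v v.2 h⟩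

/-- isomorphism test -/
def ISO (N g m g' : ℕ) : Prop :=
  ∃ ρ < 2 ^ ((N + m) * (N + m)), (∀ i < N, ∃ j < m, ρ.testBit (Nat.pair i j) = true) ∧
    (∀ j < m, ∃ i < N, ρ.testBit (Nat.pair i j) = true) ∧
    ∀ i < N, ∀ j < m, ∀ i' < N, ∀ j' < m, ρ.testBit (Nat.pair i j) = true →
      ρ.testBit (Nat.pair i' j') = true → (i = i' ↔ j = j') ∧ (A g i i' ↔ A g' j j')

lemma iso_iff (N g m g' : ℕ) : Nonempty (Gr N g ≃g Gr m g') ↔ ISO N g m g' := by
  constructor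
  · rintro ⟨e⟩
    obtain ⟨ρ, h1, h2⟩ := bits ((N + m) * (N + m)) fun x => ∃ i : Fin N, x = Nat.pair i (e i)
    have key : ∀ (i : Fin N) (j : Fin m), ρ.testBit (Nat.pair i j) = true ↔ e i = j := by
      intro i j
      rw [h2 _ (pair_lt (by omega) (by omega))]
      refine ⟨?_, fun h => ⟨i, by rw [h]⟩⟩
      rintro ⟨i', h⟩
      obtain ⟨e1, e2⟩ := Nat.pair_eq_pair.1 h
      rw [Fin.ext e1, Fin.ext e2]
    refine ⟨ρ, h1, fun i hi => ⟨e ⟨i, hi⟩, Fin.is_lt _, (key ⟨i, hi⟩ _).2 rfl⟩, fun j hj =>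
      ⟨e.symm ⟨j, hj⟩, Fin.is_lt _, (key _ ⟨j, hj⟩).2 (e.apply_symm_apply _)⟩,
      fun i hi j hj i' hi' j' hj' a b => ?_⟩
    have a' := (key ⟨i, hi⟩ ⟨j, hj⟩).1 a
    have b' := (key ⟨i', hi'⟩ ⟨j', hj'⟩).1 b
    constructor
    · have := e.injective.eq_iff (a := ⟨i, hi⟩) (b := ⟨i', hi'⟩)
      simp only [Fin.mk.injEq] at this
      rw [← this]
      change e _ = e _ ↔ _
      rw [a', b', Fin.mk.injEq]
    · have := e.map_adj_iff (v := ⟨i, hi⟩) (w := ⟨i', hi'⟩)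
      rw [a', b'] at this
      exact this.symm
  · rintro ⟨ρ, -, h1, h2, h3⟩
    choose f hf1 hf2 using fun i : Fin N => h1 i i.2
    let F : Fin N → Fin m := fun i => ⟨f i, hf1 i⟩
    have hinj : Function.Injective F := fun i i' e =>
      Fin.ext ((h3 i i.2 _ (hf1 i) i' i'.2 _ (hf1 i') (hf2 i) (hf2 i')).1.2 (congrArg Fin.val e))
    have hsurj : Function.Surjective F := by
      intro j
      obtain ⟨i, hi, h⟩ := h2 j j.2
      exact ⟨⟨i, hi⟩, Fin.ext ((h3 i hi _ (hf1 ⟨i, hi⟩) i hi j j.2 (hf2 ⟨i, hi⟩) h).1.1 rfl)⟩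
    exact ⟨⟨Equiv.ofBijective F ⟨hinj, hsurj⟩, fun {i i'} =>
      (h3 i i.2 _ (hf1 i) i' i'.2 _ (hf1 i') (hf2 i) (hf2 i')).2.symm⟩⟩

/-- coded positions that respect equality and adjacency -/
def PIn (g g' : ℕ) (l : List (ℕ × ℕ)) : Prop :=
  ∀ p ∈ l, ∀ q ∈ l, (p.1 = q.1 ↔ p.2 = q.2) ∧ (A g p.1 q.1 ↔ A g' p.2 q.2)

/-- certificate for the game -/
def EFC (N g m g' k : ℕ) (R : List (List (ℕ × ℕ))) : Prop :=
  [] ∈ R ∧ ∀ l ∈ R, PIn g g' l ∧ (l.length < k →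
    (∀ x < N, ∃ y < m, (x, y) :: l ∈ R) ∧ ∀ y < m, ∃ x < N, (x, y) :: l ∈ R)

/-- forget the bounds -/
def dn {N m : ℕ} (l : List (Fin N × Fin m)) : List (ℕ × ℕ) := l.map fun p => (p.1, p.2)

lemma pin_iff {N g m g' : ℕ} (l : List (Fin N × Fin m)) :
    PIn g g' (dn l) ↔ PI (Gr N g) (Gr m g') l := by
  simp only [PIn, dn, List.forall_mem_map, PI, Fin.ext_iff]
  rfl

lemma efc_iff (N g m g' k : ℕ) : E (Gr N g) (Gr m g') k [] ↔ ∃ R, EFC N g m g' k R := by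
  constructor
  · intro h
    have hfin : (dn '' {l : List (Fin N × Fin m) | l.length ≤ k ∧
        E (Gr N g) (Gr m g') (k - l.length) l}).Finite :=
      ((List.finite_length_le (Fin N × Fin m) k).subset fun l hl => hl.1).image _
    have hmem : ∀ l, l ∈ hfin.toFinset.toList ↔ ∃ l' : List (Fin N × Fin m), (l'.length ≤ k ∧
        E (Gr N g) (Gr m g') (k - l'.length) l') ∧ dn l' = l := by
      intro l
      rw [Finset.mem_toList, Set.Finite.mem_toFinset]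
      rfl
    refine ⟨hfin.toFinset.toList, (hmem _).2 ⟨[], ⟨Nat.zero_le _, h⟩, rfl⟩, fun l hl => ?_⟩
    obtain ⟨l', ⟨h1, h2⟩, rfl⟩ := (hmem _).1 hl
    refine ⟨(pin_iff _).2 h2.pi, fun hk => ?_⟩
    have hk' : l'.length < k := by simpa [dn] using hk
    have hlt : k - (l'.length + 1) < k - l'.length := by omega
    constructor
    · intro x hx
      obtain ⟨y, hy⟩ := h2.forth hlt ⟨x, hx⟩
      exact ⟨y, y.2, (hmem _).2 ⟨(⟨x, hx⟩, y) :: l', ⟨hk', hy⟩, rfl⟩⟩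
    · intro y hy
      obtain ⟨x, hx⟩ := h2.back hlt ⟨y, hy⟩
      exact ⟨x, x.2, (hmem _).2 ⟨(x, ⟨y, hy⟩) :: l', ⟨hk', hx⟩, rfl⟩⟩
  · rintro ⟨R, h0, hR⟩
    have key : ∀ (j : ℕ) (l : List (Fin N × Fin m)), l.length + j = k → dn l ∈ R →
        E (Gr N g) (Gr m g') j l := by
      intro j
      induction j with
      | zero => exact fun l _ hl => (pin_iff _).1 (hR _ hl).1
      | succ j ih =>
        intro l e hl
        obtain ⟨h1, h2⟩ := (hR _ hl).2 (by simp [dn]; omega)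
        refine ⟨(pin_iff _).1 (hR _ hl).1, fun x => ?_, fun y => ?_⟩
        · obtain ⟨y, hy, h⟩ := h1 x x.2
          exact ⟨⟨y, hy⟩, ih _ (by simp; omega) h⟩
        · obtain ⟨x, hx, h⟩ := h2 y y.2
          exact ⟨⟨x, hx⟩, ih _ (by simp; omega) h⟩
    exact key k [] (by simp) h0

lemma snoc_iff {V W : Type} {G : SimpleGraph V} {H : SimpleGraph W} {k n : ℕ} (a : Fin n → V)
    (b : Fin n → W) (x : V) (y : W) :
    E G H k (List.ofFn fun i => (Fin.snoc (α := fun _ => V) a x i,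
      Fin.snoc (α := fun _ => W) b y i)) ↔ E G H k ((x, y) :: List.ofFn fun i => (a i, b i)) := by
  refine E_congr fun p => ?_
  simp only [List.mem_ofFn', Set.mem_range, List.mem_cons]
  constructor
  · rintro ⟨i, rfl⟩
    refine Fin.lastCases ?_ (fun i => ?_) i
    · simp
    · simp only [Fin.snoc_castSucc]
      exact Or.inr ⟨i, rfl⟩
  · rintro (rfl | ⟨i, rfl⟩)
    · exact ⟨Fin.last n, by simp⟩
    · exact ⟨i.castSucc, by simp⟩

lemma rform_iff {n m : ℕ} (T : SimpleGraph (Fin n)) (H : SimpleGraph (Fin m)) (k : ℕ) :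
    (∃ R : (j : ℕ) → (Fin j → Fin n) → (Fin j → Fin m) → Prop,
      R 0 Fin.elim0 Fin.elim0 ∧
      (∀ j ≤ k, ∀ (a : Fin j → Fin n) (b : Fin j → Fin m), R j a b →
        ∀ i i' : Fin j, (a i = a i' ↔ b i = b i') ∧
          (T.Adj (a i) (a i') ↔ H.Adj (b i) (b i'))) ∧
      (∀ j < k, ∀ (a : Fin j → Fin n) (b : Fin j → Fin m), R j a b →
        (∀ v : Fin n, ∃ w : Fin m,
          R (j + 1) (Fin.snoc (α := fun _ => Fin n) a v)
            (Fin.snoc (α := fun _ => Fin m) b w)) ∧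
        (∀ w : Fin m, ∃ v : Fin n,
          R (j + 1) (Fin.snoc (α := fun _ => Fin n) a v)
            (Fin.snoc (α := fun _ => Fin m) b w)))) ↔ E T H k [] := by
  constructor
  · rintro ⟨R, h0, h1, h2⟩
    have hpi : ∀ j ≤ k, ∀ (a : Fin j → Fin n) (b : Fin j → Fin m), R j a b →
        PI T H (List.ofFn fun i => (a i, b i)) := by
      intro j hj a b h p hp q hq
      obtain ⟨i, rfl⟩ := (List.mem_ofFn' _ _).1 hp
      obtain ⟨i', rfl⟩ := (List.mem_ofFn' _ _).1 hq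
      exact h1 j hj a b h i i'
    have key : ∀ (i j : ℕ) (a : Fin j → Fin n) (b : Fin j → Fin m), j + i = k → R j a b →
        E T H i (List.ofFn fun t => (a t, b t)) := by
      intro i
      induction i with
      | zero => exact fun j a b e h => hpi j (by omega) a b h
      | succ i ih =>
        intro j a b e h
        obtain ⟨h3, h4⟩ := h2 j (by omega) a b h
        refine ⟨hpi j (by omega) a b h, fun x => ?_, fun y => ?_⟩
        · obtain ⟨y, hy⟩ := h3 x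
          exact ⟨y, (snoc_iff a b x y).1 (ih _ _ _ (by omega) hy)⟩
        · obtain ⟨x, hx⟩ := h4 y
          exact ⟨x, (snoc_iff a b x y).1 (ih _ _ _ (by omega) hx)⟩
    simpa using key k 0 _ _ (by simp) h0
  · intro h
    refine ⟨fun j a b => E T H (k - j) (List.ofFn fun t => (a t, b t)), by simpa using h,
      fun j _ a b hE i i' => hE.pi (a i, b i) ((List.mem_ofFn' _ _).2 ⟨i, rfl⟩) (a i', b i')
        ((List.mem_ofFn' _ _).2 ⟨i', rfl⟩), fun j hj a b hE => ⟨fun x => ?_, fun y => ?_⟩⟩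
    · obtain ⟨y, hy⟩ := hE.forth (k' := k - (j + 1)) (by omega) x
      exact ⟨y, (snoc_iff a b x y).2 hy⟩
    · obtain ⟨x, hx⟩ := hE.back (k' := k - (j + 1)) (by omega) y
      exact ⟨x, (snoc_iff a b x y).2 hx⟩

end Pool.Agent.H655Z.TD.Red
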