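import Pool.Agent.H655Z.TD.Walk

set_option autoImplicit false

namespace Pool.Agent.H655Z.TD

open Pool.Agent.H431Z.LD

namespace RestAux

variable {V W : Type} {G : SimpleGraph V} {H : SimpleGraph W} {d R : ℕ}

lemma da_symm {ρ : ℕ} {x y : V} {x' y' : W} (h : DA G H ρ x y x' y') : DA G H ρ y x y' x' :=
  fun n hn => ⟨fun a => nsymm ((h n hn).1 (nsymm a)), fun a => nsymm ((h n hn).2 (nsymm a))⟩

lemma da_flip {ρ : ℕ} {x y : V} {x' y' : W} (h : DA G H ρ x y x' y') : DA H G ρ x' y' x y :=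
  fun n hn => (h n hn).symm

lemma da_mono {ρ ρ' : ℕ} {x y : V} {x' y' : W} (h : DA G H ρ x y x' y') (hρ : ρ' ≤ ρ) :
    DA G H ρ' x y x' y' := fun n hn => h n (hn.trans hρ)

lemma da_ex {ρ b : ℕ} {x y : V} {x' y' : W} (h : DA G H ρ x y x' y') (hb : b ≤ ρ)
    (e : Ex G b x y) : Ex H b x' y' :=
  ⟨(h b hb).1 e.1, fun m hm => by
    by_contra c
    have := e.2 m ((h m (by omega)).2 hm)
    omega⟩

lemma pi_of_da {ρ : ℕ} (hρ : 1 ≤ ρ) {l : List (V × W)}
    (hd : ∀ p ∈ l, ∀ q ∈ l, DA G H ρ p.1 q.1 p.2 q.2) : PI G H l := by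
  intro p hp q hq
  have h := hd p hp q hq
  refine ⟨h 0 (by omega), fun a => ?_, fun a => ?_⟩
  · exact ex_one.1 (da_ex h hρ (ex_one.2 a))
  · exact ex_one.1 (da_ex (da_flip h) hρ (ex_one.2 a))

lemma near_lev (L : Lev G d R) {n : ℕ} {x y : V} (h : Near G.Adj n x y) :
    min (L.h x) R ≤ L.h y + n := by
  have := near_pot (G := G) (fun v => min (L.h v) R) (fun a b hab => by
    have := L.lip a b hab
    omega) h
  omega

lemma cat_len {g n n' m : ℕ} (hg : NoClosed G g) {u u' : ℕ → V} (h : NBW G u n) (h' : NBW G u' n')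
    (e : u n = u' 0) (hne : 0 < n → 0 < n' → u' 1 ≠ u (n - 1))
    (hm : Near G.Adj m (u 0) (u' n')) (hl : n + n' + m < g) : n + n' ≤ m := by
  obtain ⟨k, hk, ek⟩ := exists_ex hm
  obtain ⟨v, b1, b2, b3, -⟩ := ek.walk
  have hw := h.append h' e hne
  have := (nbu hg (n + n') hw b1 (by simpa using b2.symm) (by
    rw [b3]
    split_ifs with a
    · obtain rfl : n' = 0 := by omega
      simpa using e
    · congr 1; omega) (by omega)).1
  omega

/-- the tree inequality for a point on a geodesic -/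
lemma mid {g i i' m s : ℕ} (hg : NoClosed G g) {x y π z : V} (hxy : Ex G (i + i') x y)
    (h1 : Near G.Adj i x π) (h2 : Near G.Adj i' π y) (hi : i ≤ s) (hi' : i' ≤ s) (hm : m ≤ s)
    (hs : 6 * s < g) (a : Near G.Adj (m + i) x z) (b : Near G.Adj (m + i') y z) :
    Near G.Adj m π z := by
  have e1 : Ex G i x π := ⟨h1, fun k hk => by have := hxy.2 _ (hk.trans h2); omega⟩
  have e2 : Ex G i' y π := ⟨nsymm h2, fun k hk => by have := hxy.2 _ (h1.trans (nsymm hk)); omega⟩
  obtain ⟨α, a1, a2, a3, a4⟩ := e1.walk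
  obtain ⟨β, b1, b2, b3, b4⟩ := e2.walk
  obtain ⟨k, hk, ek⟩ := exists_ex ((nsymm h1).trans a)
  obtain ⟨δ, c1, c2, c3, -⟩ := ek.walk
  by_cases hA : 0 < i → 0 < k → δ 1 ≠ α (i - 1)
  · have := cat_len hg a1 c1 (a3.trans c2.symm) hA (m := m + i) (by rw [a2, c3]; exact a) (by omega)
    exact ek.1.mono (by omega)
  by_cases hB : 0 < i' → 0 < k → δ 1 ≠ β (i' - 1)
  · have := cat_len hg b1 c1 (b3.trans c2.symm) hB (m := m + i') (by rw [b2, c3]; exact b)
      (by omega)
    exact ek.1.mono (by omega)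
  exfalso
  push Not at hA hB
  have f1 := (a4 (i - 1) (by omega)).1.1
  have f2 := (b4 (i' - 1) (by omega)).1.1
  rw [← hA.2.2] at f1
  rw [← hB.2.2] at f2
  have := hxy.2 _ (f1.trans (nsymm f2))
  omega

lemma exists_side (L : Lev G d R) (v : V) (hv : 0 < L.h v) (Q : List V) (hQ : Q.length < d) :
    ∃ i, ∀ q ∈ Q, ¬ L.side v i q := by
  classical
  by_contra c
  push Not at c
  choose f hf hs using c
  have hinj : Function.Injective f := fun i i' e => L.side_disj v i i' _ hv (hs i) (e ▸ hs i')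
  have h1 : (Finset.univ.image f).card = d := by
    rw [Finset.card_image_of_injective _ hinj]; simp
  have h2 : Finset.univ.image f ⊆ Q.toFinset := fun x hx => by
    obtain ⟨i, -, rfl⟩ := Finset.mem_image.1 hx
    exact List.mem_toFinset.2 (hf i)
  have := (Finset.card_le_card h2).trans (List.toFinset_card_le Q)
  omega

lemma descent (L : Lev G d R) (v : V) (i : Fin d) (k : ℕ) (hk : k ≤ L.h v) :
    L.h ((fun x => L.ch x i)^[k] v) + k = L.h v := by
  induction k with
  | zero => simp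
  | succ k ih =>
    have := ih (by omega)
    rw [Function.iterate_succ_apply']
    have := L.ch_h ((fun x => L.ch x i)^[k] v) i (by omega)
    omega

/-- descent through a side that contains no pebble -/
lemma fresh (L : Lev G d R) {g : ℕ} (hg : NoClosed G g) (v : V) (s : ℕ) (hs : s ≤ L.h v)
    (h2 : 2 * s ≤ g) (Q : List V) (hQ : Q.length < d) :
    ∃ w, L.h w + s = L.h v ∧
      ∀ q ∈ Q, ∀ n, Near G.Adj n w q ↔ s ≤ n ∧ Near G.Adj (n - s) v q := by
  rcases Nat.eq_zero_or_pos s with rfl | s0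
  · exact ⟨v, rfl, fun q _ n => by simp⟩
  have hv : 0 < L.h v := by omega
  obtain ⟨i, hi⟩ := exists_side L v hv Q hQ
  let u : ℕ → V := fun k => (fun x => L.ch x i)^[k] v
  have hu : ∀ k ≤ s, L.h (u k) + k = L.h v := fun k hk => descent L v i k (by omega)
  have hsucc : ∀ k, u (k + 1) = L.ch (u k) i := fun k => Function.iterate_succ_apply' _ _ _
  have hw : NBW G u s := by
    refine ⟨fun k hk => ?_, fun k hk e => ?_⟩
    · rw [hsucc]
      exact L.ch_adj _ _ (by have := hu k (by omega); omega)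
    · have a := hu k (by omega)
      have b := hu (k + 2) hk
      rw [e] at b
      omega
  have hside : ∀ k, k + 1 ≤ s → L.side v i (u (k + 1)) := by
    intro k
    induction k with
    | zero => intro _; exact L.side_ch v i hv
    | succ k ih =>
      intro hk
      rcases L.side_cl v i _ _ hv (ih (by omega)) (hw.1 (k + 1) (by omega)) with a | ⟨-, a⟩
      · exact a
      · have b := hu (k + 1 + 1) hk
        rw [a] at b
        omega
  refine ⟨u s, hu s le_rfl, fun q hq n => ⟨fun a => ?_, fun a => ?_⟩⟩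
  · have hD : L.side v i (u s) := by
      have := hside (s - 1) (by omega)
      rwa [show s - 1 + 1 = s by omega] at this
    obtain ⟨n1, n2, c1, c2, c3⟩ := near_cut (L.side v i) (a0 := L.ch v i) (b0 := v)
      (fun a b h1 h2 => L.side_cl v i a b hv h1 h2) hD (hi q hq) a
    have e := (hw.shift 1).ex hg (by omega)
    simp only [add_zero, show 1 + (s - 1) = s by omega] at e
    have := e.2 _ (nsymm c2)
    exact ⟨by omega, c3.mono (by omega)⟩
  · have b : Near G.Adj s v (u s) := hw.near (Nat.zero_le s) le_rfl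
    exact ((nsymm b).trans a.2).mono (by omega)

lemma anc (L : Lev G d R) (x : V) (k : ℕ) (hk : L.h x + k ≤ R) :
    L.h (L.par^[k] x) = L.h x + k ∧ Near G.Adj k x (L.par^[k] x) := by
  induction k with
  | zero => exact ⟨rfl, rfl⟩
  | succ k ih =>
    obtain ⟨a, b⟩ := ih (by omega)
    rw [Function.iterate_succ_apply']
    exact ⟨by rw [L.par_h _ (by omega)]; omega, b.step (L.par_adj _ (by omega))⟩

/-- the ancestors at level `t` coincide -/
def Mt (L : Lev G d R) (t : ℕ) (x y : V) : Prop :=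
  L.h x ≤ t ∧ L.h y ≤ t ∧ L.par^[t - L.h x] x = L.par^[t - L.h y] y

lemma Mt.symm {L : Lev G d R} {t : ℕ} {x y : V} (h : Mt L t x y) : Mt L t y x :=
  ⟨h.2.1, h.1, h.2.2.symm⟩

lemma Mt.trans {L : Lev G d R} {t : ℕ} {x y z : V} (h : Mt L t x y) (h' : Mt L t y z) :
    Mt L t x z := ⟨h.1, h'.2.1, h.2.2.trans h'.2.2⟩

lemma Mt.mono {L : Lev G d R} {t t' : ℕ} {x y : V} (h : Mt L t x y) (ht : t ≤ t') :
    Mt L t' x y := by
  obtain ⟨a, b, c⟩ := h
  refine ⟨by omega, by omega, ?_⟩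
  rw [show t' - L.h x = (t' - t) + (t - L.h x) by omega,
    show t' - L.h y = (t' - t) + (t - L.h y) by omega, Function.iterate_add_apply,
    Function.iterate_add_apply, c]

lemma Mt.near {L : Lev G d R} {t n : ℕ} {x y : V} (h : Mt L t x y) (ht : t ≤ R)
    (hn : 2 * t ≤ n + L.h x + L.h y) : Near G.Adj n x y := by
  obtain ⟨a, b, c⟩ := h
  have h1 := (anc L x (t - L.h x) (by omega)).2
  have h2 := (anc L y (t - L.h y) (by omega)).2
  rw [c] at h1
  exact (h1.trans (nsymm h2)).mono (by omega)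

lemma meet_of_near (L : Lev G d R) {n : ℕ} {x : V} : ∀ {y : V}, Near G.Adj n x y →
    L.h x + n ≤ R → ∃ u s, u + s ≤ n ∧ L.h x + u = L.h y + s ∧ L.par^[u] x = L.par^[s] y := by
  induction n with
  | zero => intro y h _; obtain rfl : x = y := h; exact ⟨0, 0, le_rfl, rfl, rfl⟩
  | succ n ih =>
    rintro y (h | ⟨z, h1, h2⟩) hn
    · obtain ⟨u, s, a, b⟩ := ih h (by omega)
      exact ⟨u, s, by omega, b⟩
    · obtain ⟨u, s, a, b, c⟩ := ih h1 (by omega)
      have hz : L.h z < R := by omega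
      rcases L.nbr z y hz h2 with e | ⟨e, e'⟩
      · have hy : L.h y = L.h z + 1 := by rw [e]; exact L.par_h z hz
        rcases s with _ | s
        · refine ⟨u + 1, 0, by omega, by omega, ?_⟩
          rw [Function.iterate_succ_apply', c, e]; rfl
        · refine ⟨u, s, by omega, by omega, ?_⟩
          rw [c, Function.iterate_succ_apply, e]
      · refine ⟨u, s + 1, by omega, by omega, ?_⟩
        rw [c, Function.iterate_succ_apply, e]

lemma mt_of_near (L : Lev G d R) {n : ℕ} {x y : V} (h : Near G.Adj n x y) (hn : L.h x + n ≤ R) :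
    ∃ t, Mt L t x y ∧ 2 * t ≤ n + L.h x + L.h y := by
  obtain ⟨u, s, a, b, c⟩ := meet_of_near L h hn
  refine ⟨L.h x + u, ⟨by omega, by omega, ?_⟩, by omega⟩
  rw [show L.h x + u - L.h x = u by omega, show L.h x + u - L.h y = s by omega, c]

lemma Mt.transfer {LG : Lev G d R} {LH : Lev H d R} {t ρ : ℕ} {x y : V} {x' y' : W}
    (h : Mt LG t x y) (hd : DA G H ρ x y x' y') (ex : LG.h x = LH.h x') (ey : LG.h y = LH.h y')
    (ht : t ≤ R) (h1 : 2 * t ≤ ρ + LG.h x + LG.h y) (h2 : LG.h x + ρ ≤ R) : Mt LH t x' y' := by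
  have a1 := h.1
  have a2 := h.2.1
  have a := h.near (n := 2 * t - LG.h x - LG.h y) ht (by omega)
  obtain ⟨t', b, c⟩ := mt_of_near LH ((hd _ (by omega)).1 a) (by omega)
  exact b.mono (by omega)

section step

variable (LG : Lev G d R) (LH : Lev H d R) {r : ℕ} (hG : NoClosed G (6 * r + 1))
  (hH : NoClosed H (6 * r + 1)) (hR : 16 * r ≤ R) {l : List (V × W)} (hl : l.length < d)
  (hd : ∀ p ∈ l, ∀ q ∈ l, DA G H (2 * r) p.1 q.1 p.2 q.2)
  (hh : ∀ p ∈ l, LG.h p.1 = LH.h p.2 ∨ (10 * r ≤ LG.h p.1 ∧ 10 * r ≤ LH.h p.2))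

include hH hl in
lemma freshH (v : W) (s : ℕ) (hs : s ≤ LH.h v) (h2 : s ≤ 3 * r) :
    ∃ w, LH.h w + s = LH.h v ∧
      ∀ q ∈ l, ∀ n, Near H.Adj n w q.2 ↔ s ≤ n ∧ Near H.Adj (n - s) v q.2 := by
  obtain ⟨w, a, b⟩ := fresh LH hH v s hs (by omega) (l.map Prod.snd) (by simpa using hl)
  exact ⟨w, a, fun q hq => b _ (List.mem_map_of_mem hq)⟩

include hH hR hl in
lemma step_far (r1 : 1 ≤ r) (w : V) (hw : ∀ p ∈ l, ¬ Near G.Adj r w p.1) :
    ∃ w', (∀ q ∈ l, DA G H r w q.1 w' q.2) ∧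
      (LG.h w = LH.h w' ∨ (5 * r ≤ LG.h w ∧ 5 * r ≤ LH.h w')) := by
  obtain ⟨t, ht⟩ := LH.top
  have i : Fin d := ⟨0, by omega⟩
  have h1 := descent LH t i (LH.h t - (min (LG.h w) (5 * r) + (r + 1))) (by omega)
  obtain ⟨w', a, b⟩ := freshH LH hH hl ((fun x => LH.ch x i)^[LH.h t -
    (min (LG.h w) (5 * r) + (r + 1))] t) (r + 1) (by omega) (by omega)
  refine ⟨w', fun q hq n hn => ⟨fun c => absurd (c.mono hn) (hw q hq), fun c => ?_⟩, by omega⟩
  have := ((b q hq n).1 c).1
  omega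

include hH hR hl hd hh in
lemma step_low (w : V) (hw : ∃ p ∈ l, Near G.Adj r w p.1) (hlow : LG.h w < 9 * r) :
    ∃ w', (∀ q ∈ l, DA G H r w q.1 w' q.2) ∧ LG.h w = LH.h w' := by
  classical
  have hex : ∃ t, ∃ p ∈ l, Mt LG t w p.1 ∧ 2 * t ≤ r + LG.h w + LG.h p.1 := by
    obtain ⟨p, hp, a⟩ := hw
    obtain ⟨t, b⟩ := mt_of_near LG a (by omega)
    exact ⟨t, p, hp, b⟩
  obtain ⟨p, hp, m1, m2⟩ := Nat.find_spec hex
  have hmin : ∀ t, (∃ p ∈ l, Mt LG t w p.1 ∧ 2 * t ≤ r + LG.h w + LG.h p.1) → Nat.find hex ≤ t :=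
    fun t ht => Nat.find_min' hex ht
  generalize Nat.find hex = t at m1 m2 hmin
  have a1 := m1.1
  have a2 := m1.2.1
  have ep : LG.h p.1 = LH.h p.2 := by have := hh p hp; omega
  have hz := (anc LH p.2 (t - LH.h p.2) (by omega)).1
  set z := LH.par^[t - LH.h p.2] p.2 with hzdef
  have hz' : LH.h z = t := by omega
  have mz : Mt LH t z p.2 := ⟨by omega, by omega, by rw [hz', Nat.sub_self]; rfl⟩
  obtain ⟨w', a, b⟩ := freshH LH hH hl z (t - LG.h w) (by omega) (by omega)
  refine ⟨w', fun q hq n hn => ⟨fun c => ?_, fun c => ?_⟩, by omega⟩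
  · obtain ⟨t', c1, c2⟩ := mt_of_near LG c (by omega)
    have c3 := hmin t' ⟨q, hq, c1, by omega⟩
    have d1 := c1.1
    have d2 := c1.2.1
    have eq : LG.h q.1 = LH.h q.2 := by have := hh q hq; omega
    have c4 := ((m1.mono c3).symm.trans c1).transfer (LH := LH) (hd p hp q hq) ep eq (by omega)
      (by omega) (by omega)
    refine (b q hq n).2 ⟨by omega, ?_⟩
    exact ((mz.mono c3).trans c4).near (by omega) (by omega)
  · obtain ⟨c0, c⟩ := (b q hq n).1 c
    obtain ⟨t', c1, c2⟩ := mt_of_near LH c (by omega)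
    have d1 := c1.1
    have d2 := c1.2.1
    have c3 : t ≤ t' := by omega
    have eq : LG.h q.1 = LH.h q.2 := by have := hh q hq; omega
    have c4 := ((mz.mono c3).symm.trans c1).transfer (LH := LG) (da_flip (hd p hp q hq)) ep.symm
      eq.symm (by omega) (by omega) (by omega)
    exact ((m1.mono c3).trans c4).near (by omega) (by omega)

include hG hH hR hl hd hh in
lemma step_high (w : V) (hw : ∃ p ∈ l, Near G.Adj r w p.1) (hhigh : 9 * r ≤ LG.h w) :
    ∃ w', (∀ q ∈ l, DA G H r w q.1 w' q.2) ∧ 5 * r ≤ LH.h w' := by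
  classical
  obtain ⟨p, hp, hpw⟩ := hw
  obtain ⟨a, ha, ea⟩ := exists_ex (nsymm hpw)
  obtain ⟨γ, g1, g2, g3, g4⟩ := ea.walk
  have hex : ∃ t, t ≤ a ∧ ∃ q ∈ l, ∃ c, Ex G (a - t + c) p.1 q.1 ∧
      Near G.Adj c (γ (a - t)) q.1 ∧ c + t ≤ r :=
    ⟨a, le_rfl, p, hp, 0, by simpa using ex_zero.2 rfl, by simpa [g2] using Near.refl 0 _, by omega⟩
  obtain ⟨ta, q0, hq0, c0, e0, n0, l0⟩ := Nat.find_spec hex
  have hmin : ∀ t, (t ≤ a ∧ ∃ q ∈ l, ∃ c, Ex G (a - t + c) p.1 q.1 ∧
      Near G.Adj c (γ (a - t)) q.1 ∧ c + t ≤ r) → Nat.find hex ≤ t :=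
    fun t ht => Nat.find_min' hex ht
  generalize Nat.find hex = t at ta e0 n0 l0 hmin
  have key : ∀ q ∈ l, ∀ c, Ex G c w q.1 → c ≤ r → ∀ k, k ≤ t →
      k ≤ c ∧ Ex G (c - k) (γ (a - k)) q.1 := by
    intro q hq c ec hc k
    induction k with
    | zero => intro _; exact ⟨Nat.zero_le _, by simpa [g3] using ec⟩
    | succ k ih =>
      intro hk
      obtain ⟨i1, i2⟩ := ih (by omega)
      obtain ⟨δ, d1, d2, d3, d4⟩ := i2.walk
      by_cases hA : 0 < a - k → 0 < c - k → δ 1 ≠ γ (a - k - 1)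
      · exfalso
        have hw := (g1.mono (show a - k ≤ a by omega)).append d1 d2.symm hA
        have e := hw.ex hG (by omega)
        simp only [Nat.zero_le, if_true, g2] at e
        have e' : (if a - k + (c - k) ≤ a - k then γ (a - k + (c - k))
            else δ (a - k + (c - k) - (a - k))) = q.1 := by
          split_ifs with h
          · have h0 : c - k = 0 := by omega
            rw [h0] at d3 ⊢
            rw [← d3, d2]; simp
          · rw [← d3]; congr 1; omega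
        rw [e'] at e
        have := hmin k ⟨by omega, q, hq, c - k, e, i2.1, by omega⟩
        omega
      · push Not at hA
        refine ⟨by omega, ?_⟩
        have := (d4 1 (by omega)).2
        rw [hA.2.2] at this
        rwa [show a - (k + 1) = a - k - 1 by omega, show c - (k + 1) = c - k - 1 by omega]
  have e0' := da_ex (hd p hp q0 hq0) (by omega) e0
  obtain ⟨π', p1, p2⟩ := near_split e0'.1
  have hp1 := near_lev LG hpw
  have hp2 : 8 * r ≤ LH.h p.2 := by have := hh p hp; omega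
  have hp3 := near_lev LH p1
  obtain ⟨w', a1, b⟩ := freshH LH hH hl π' t (by omega) (by omega)
  have q1 : Near G.Adj (a - t) p.1 (γ (a - t)) := (g4 (a - t) (by omega)).1.1
  have q2 : Near G.Adj t (γ (a - t)) w := by
    have := (g4 (a - t) (by omega)).2.1
    rwa [show a - (a - t) = t by omega] at this
  refine ⟨w', fun q hq n hn => ⟨fun c => ?_, fun c => ?_⟩, by omega⟩
  · obtain ⟨c', hc', ec⟩ := exists_ex c
    obtain ⟨k1, k2⟩ := key q hq c' ec (by omega) t le_rfl
    have k3 : Near G.Adj (n - t) (γ (a - t)) q.1 := k2.1.mono (by omega)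
    refine (b q hq n).2 ⟨by omega, ?_⟩
    refine mid (s := r - t) hH e0' p1 p2 (by omega) (by omega) (by omega) (by omega) ?_ ?_
    · exact (hd p hp q hq _ (by omega)).1 ((q1.trans k3).mono (by omega))
    · exact (hd q0 hq0 q hq _ (by omega)).1 (((nsymm n0).trans k3).mono (by omega))
  · obtain ⟨c1, c2⟩ := (b q hq n).1 c
    have k3 : Near G.Adj (n - t) (γ (a - t)) q.1 := by
      refine mid (s := r - t) hG e0 q1 n0 (by omega) (by omega) (by omega) (by omega) ?_ ?_
      · exact (hd p hp q hq _ (by omega)).2 ((p1.trans c2).mono (by omega))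
      · exact (hd q0 hq0 q hq _ (by omega)).2 (((nsymm p2).trans c2).mono (by omega))
    exact ((nsymm q2).trans k3).mono (by omega)

include hG hH hR hl hd hh in
lemma step (r1 : 1 ≤ r) (w : V) : ∃ w', (∀ q ∈ l, DA G H r w q.1 w' q.2) ∧
      (LG.h w = LH.h w' ∨ (5 * r ≤ LG.h w ∧ 5 * r ≤ LH.h w')) := by
  by_cases hw : ∃ p ∈ l, Near G.Adj r w p.1
  · by_cases hlow : LG.h w < 9 * r
    · obtain ⟨w', a, b⟩ := step_low LG LH hH hR hl hd hh w hw hlow
      exact ⟨w', a, Or.inl b⟩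
    · obtain ⟨w', a, b⟩ := step_high LG LH hG hH hR hl hd hh w hw (by omega)
      exact ⟨w', a, Or.inr ⟨by omega, b⟩⟩
  · push Not at hw
    exact step_far LG LH hH hR hl r1 w hw

end step

lemma da_cons {r : ℕ} {l : List (V × W)}
    (hd : ∀ p ∈ l, ∀ q ∈ l, DA G H (2 * r) p.1 q.1 p.2 q.2) {w : V} {w' : W}
    (hw : ∀ q ∈ l, DA G H r w q.1 w' q.2) :
    ∀ p ∈ (w, w') :: l, ∀ q ∈ (w, w') :: l, DA G H r p.1 q.1 p.2 q.2 := by
  intro p hp q hq
  rcases List.mem_cons.1 hp with rfl | hp <;> rcases List.mem_cons.1 hq with rfl | hq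
  · exact fun n _ => ⟨fun _ => Near.refl _ _, fun _ => Near.refl _ _⟩
  · exact hw q hq
  · exact da_symm (hw p hp)
  · exact da_mono (hd p hp q hq) (by omega)

end RestAux

open RestAux in
theorem rest {V W : Type} {G : SimpleGraph V} {H : SimpleGraph W} {d R : ℕ} (LG : Lev G d R)
    (LH : Lev H d R) (j : ℕ) (hG : NoClosed G (3 * 2 ^ j + 1)) (hH : NoClosed H (3 * 2 ^ j + 1))
    (hR : 8 * 2 ^ j ≤ R) (l : List (V × W)) (hl : l.length + j < d)
    (hd : ∀ p ∈ l, ∀ q ∈ l, DA G H (2 ^ j) p.1 q.1 p.2 q.2)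
    (hh : ∀ p ∈ l, LG.h p.1 = LH.h p.2 ∨ (5 * 2 ^ j ≤ LG.h p.1 ∧ 5 * 2 ^ j ≤ LH.h p.2)) :
    E G H j l := by
  induction j generalizing l with
  | zero => exact pi_of_da (by simp) hd
  | succ j ih =>
    have r1 : 1 ≤ 2 ^ j := Nat.one_le_two_pow
    have e : 2 ^ (j + 1) = 2 * 2 ^ j := by rw [pow_succ]; ring
    rw [e] at hG hH hR hd hh
    generalize 2 ^ j = r at *
    have hG' : NoClosed G (6 * r + 1) := hG.mono (by omega)
    have hH' : NoClosed H (6 * r + 1) := hH.mono (by omega)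
    have fin : ∀ (w : V) (w' : W), (∀ q ∈ l, DA G H r w q.1 w' q.2) →
        (LG.h w = LH.h w' ∨ (5 * r ≤ LG.h w ∧ 5 * r ≤ LH.h w')) → E G H j ((w, w') :: l) := by
      intro w w' a b
      refine ih (hG.mono (by omega)) (hH.mono (by omega)) (by omega) _ (by simp; omega)
        (da_cons hd a) fun p hp => ?_
      rcases List.mem_cons.1 hp with rfl | hp
      · exact b
      · have := hh p hp; omega
    refine ⟨pi_of_da (by omega) hd, fun w => ?_, fun w' => ?_⟩
    · obtain ⟨w', a, b⟩ := step LG LH hG' hH' (by omega) (l := l) (by omega) hd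
        (fun p hp => by have := hh p hp; omega) r1 w
      exact ⟨w', fin w w' a b⟩
    · obtain ⟨w, a, b⟩ := step LH LG hH' hG' (by omega) (l := l.map Prod.swap) (by simp; omega)
        (fun p hp q hq => by
          obtain ⟨p', hp', rfl⟩ := List.mem_map.1 hp
          obtain ⟨q', hq', rfl⟩ := List.mem_map.1 hq
          exact da_flip (hd p' hp' q' hq'))
        (fun p hp => by
          obtain ⟨p', hp', rfl⟩ := List.mem_map.1 hp
          have := hh p' hp'
          simp only [Prod.fst_swap, Prod.snd_swap]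
          omega) r1 w'
      exact ⟨w, fin w w' (fun q hq => da_flip (a _ (List.mem_map_of_mem hq))) (by omega)⟩

end Pool.Agent.H655Z.TD
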