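import Pool.Agent.H655Z.TD.Walk
import Pool.Agent.H164Z.SrcLoc

set_option autoImplicit false

namespace Pool.Agent.H164Z.Src

open Pool.Agent.Helper948.Erode

/-- four registers -/
abbrev R4 : Type := ℕ × ℕ × ℕ × ℕ

/-- reading a register -/
def get (c : R4) (j : Bool × Bool) : ℕ :=
  bif j.1 then (bif j.2 then c.1 else c.2.1) else (bif j.2 then c.2.2.1 else c.2.2.2)

variable {P : Type} (M : DM P (Bool × Bool))

/-- updated register -/
def upd (q : P × Bool) (c : R4) (j : Bool × Bool) : ℕ :=
  get c j + (M.vec q.1 q.2 j).toNat - (-M.vec q.1 q.2 j).toNat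

/-- a step with known branch -/
def stB (q : P × Bool) (c : R4) : Option P × R4 :=
  (M.nxt q.1 q.2, upd M q c (true, true), upd M q c (true, false), upd M q c (false, true),
    upd M q c (false, false))

/-- one step, on natural numbers -/
def stN (x : Option P × R4) : Option P × R4 :=
  Option.casesOn x.1 x (fun p => stB M (p, decide (0 < get x.2 (M.reg p))) x.2)

/-- the configuration coded -/
def emb (x : Option P × R4) : Option P × (Bool × Bool → ℤ) := (x.1, fun j => (get x.2 j : ℤ))

lemma emb_stN (x : Option P × R4) : emb (stN M x) = M.st (emb x) := by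
  obtain ⟨_ | p, c⟩ := x
  · rfl
  · have h := M.st_nonneg (emb (some p, c)) (fun j => Int.natCast_nonneg _)
    have hb : M.br p (fun j => (get c j : ℤ)) = decide (0 < get c (M.reg p)) := by simp [DM.br]
    change ∀ j, 0 ≤ ((fun j => (get c j : ℤ)) + M.vec p (M.br p (fun j => (get c j : ℤ)))) j at h
    change emb (stB M (p, decide (0 < get c (M.reg p))) c) = (M.nxt p (M.br p fun j => (get c j : ℤ)),
      (fun j => (get c j : ℤ)) + M.vec p (M.br p fun j => (get c j : ℤ)))
    rw [hb] at h ⊢
    refine Prod.ext rfl (funext fun j => ?_)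
    have hj := h j
    have e : get (stB M (p, decide (0 < get c (M.reg p))) c).2 j =
        upd M (p, decide (0 < get c (M.reg p))) c j := by
      obtain ⟨_ | _, _ | _⟩ := j <;> rfl
    simp only [emb, e, upd, Pi.add_apply] at hj ⊢
    omega

lemma emb_iter (k : ℕ) (x : Option P × R4) : emb ((stN M)^[k] x) = M.st^[k] (emb x) := by
  induction k with
  | zero => rfl
  | succ k ih => rw [Function.iterate_succ_apply', Function.iterate_succ_apply', emb_stN, ih]

lemma primrec_get : Primrec₂ get := by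
  have f : Primrec fun p : R4 × Bool × Bool => p.1 := Primrec.fst
  have g : Primrec fun p : R4 × Bool × Bool => p.2 := Primrec.snd
  exact Primrec.cond (Primrec.fst.comp g)
    (Primrec.cond (Primrec.snd.comp g) (Primrec.fst.comp f) (Primrec.fst.comp (Primrec.snd.comp f)))
    (Primrec.cond (Primrec.snd.comp g) (Primrec.fst.comp (Primrec.snd.comp (Primrec.snd.comp f)))
      (Primrec.snd.comp (Primrec.snd.comp (Primrec.snd.comp f))))

lemma primrec_stN [Finite P] [Primcodable P] : Primrec (stN M) := by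
  have hu : ∀ j, Primrec₂ fun q c => upd M q c j := fun j =>
    Primrec.nat_sub.comp (Primrec.nat_add.comp (primrec_get.comp Primrec.snd (Primrec.const j))
      ((Primrec.dom_finite fun q : P × Bool => (M.vec q.1 q.2 j).toNat).comp Primrec.fst))
      ((Primrec.dom_finite fun q : P × Bool => (-M.vec q.1 q.2 j).toNat).comp Primrec.fst)
  have hB : Primrec₂ (stB M) :=
    Primrec.pair ((Primrec.dom_finite fun q : P × Bool => M.nxt q.1 q.2).comp Primrec.fst)
      (Primrec.pair (hu _) (Primrec.pair (hu _) (Primrec.pair (hu _) (hu _))))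
  have h1 : Primrec fun y : (Option P × R4) × P => get y.1.2 (M.reg y.2) :=
    primrec_get.comp (Primrec.snd.comp Primrec.fst) ((Primrec.dom_finite M.reg).comp Primrec.snd)
  have h2 : Primrec fun y : (Option P × R4) × P => decide (0 < get y.1.2 (M.reg y.2)) :=
    (Primrec.nat_lt.comp (Primrec.const 0) h1).decide
  exact Primrec.option_casesOn Primrec.fst Primrec.id
    (hB.comp (Primrec.pair Primrec.snd h2) (Primrec.snd.comp Primrec.fst)).to₂

lemma computable_halt [Finite P] (p0 : P) {N : ℕ → ℕ} (hN : Computable N) :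
    ComputablePred fun y : ℕ × ℕ =>
      (M.st^[y.2] (some p0, Pi.single (false, true) (N y.1 : ℤ))).1 = none := by
  classical
  obtain ⟨κ, ⟨e⟩⟩ := Finite.exists_equiv_fin P
  let _ : Primcodable P := Primcodable.ofEquiv _ e
  have h0 : Primrec fun y : ℕ × ℕ => ((some p0, (0, 0, y.1, 0)) : Option P × R4) :=
    (Primrec.const _).pair ((Primrec.const _).pair ((Primrec.const _).pair
      (Primrec.fst.pair (Primrec.const _))))
  have h1 : Primrec fun y : ℕ × ℕ => (stN M)^[y.2] (some p0, (0, 0, y.1, 0)) :=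
    Primrec.nat_iterate Primrec.snd h0 ((primrec_stN M).comp Primrec.snd).to₂
  have h1' : Primrec fun y : ℕ × ℕ => !((stN M)^[y.2] (some p0, (0, 0, y.1, 0))).1.isSome :=
    Primrec.not.comp (Primrec.option_isSome.comp (Primrec.fst.comp h1))
  have h2 := h1'.to_comp.comp (α := ℕ × ℕ) ((hN.comp Computable.fst).pair Computable.snd)
  refine ⟨inferInstance, h2.of_eq fun y => ?_⟩
  have h3 := congrArg Prod.fst (emb_iter M y.2 (some p0, (0, 0, N y.1, 0)))
  have h4 : emb (some p0, ((0, 0, N y.1, 0) : R4)) =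
      (some p0, Pi.single (false, true) (N y.1 : ℤ)) := by
    refine Prod.ext rfl (funext fun j => ?_)
    obtain ⟨_ | _, _ | _⟩ := j <;> simp [emb, get]
  rw [h4] at h3
  rw [Bool.eq_iff_iff, decide_eq_true_iff]
  dsimp only
  rw [← h3]
  simp [emb]

end Pool.Agent.H164Z.Src

namespace Pool.Agent.H655Z.TD

open Pool.Agent.Helper948.Erode Pool.Agent.H431Z.LD Pool.Agent.H164Z.Src

theorem source : ∃ (Hlt : ℕ → ℕ → Prop) (A : ℕ → ℕ),
    (ComputablePred fun p : ℕ × ℕ => Hlt p.1 p.2) ∧ (∀ n t t', t ≤ t' → Hlt n t → Hlt n t') ∧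
    (¬ ComputablePred fun n => ∃ t, Hlt n t) ∧ Computable A ∧
    ∀ n, (∃ t, Hlt n t) → ∃ (N Col : Type) (_ : Finite N) (_ : Nonempty N) (_ : Finite Col)
      (F : Frame N Col), Nat.card Col ≤ A n ∧ F.Good ∧
      ∀ (N' : Type) [Finite N'] [Nonempty N'] (F' : Frame N' Col), F'.Modelled F →
        Hlt n (Nat.card N') := by
  classical
  obtain ⟨Q, hQ, S, q0, N, -, hN, hu⟩ := exists_sys
  let M := dm S q0 0
  obtain ⟨D, hD⟩ : ∃ D : ℕ, ∀ p b i, vec' M p b i ≤ D + 1 := by
    obtain ⟨B, hB⟩ := (Set.finite_range fun x : Helper948.Erode.RS S × Bool × Option (Bool × Bool) =>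
      vec' M x.1 x.2.1 x.2.2).bddAbove
    refine ⟨B.toNat, fun p b i => ?_⟩
    have := hB ⟨(p, b, i), rfl⟩
    simp only at this
    omega
  let p0 : Helper948.Erode.RS S := .d1 q0 (z0 S)
  refine ⟨fun n t => (M.st^[t] (some p0, Pi.single (false, true) (N n : ℤ))).1 = none,
    fun n => Nat.card (K0 (Helper948.Erode.RS S) (Bool × Bool) D) * (N n + 1) * Nat.card Sh,
    ?_, ?_, ?_, ?_, ?_⟩
  · exact computable_halt M p0 hN
  · intro n t t' h1 h2
    obtain ⟨k, rfl⟩ := Nat.exists_eq_add_of_le' h1
    rw [Function.iterate_add_apply]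
    generalize M.st^[t] (some p0, Pi.single (false, true) (N n : ℤ)) = y at h2
    obtain ⟨o, c⟩ := y
    obtain rfl : o = none := h2
    rw [M.st_iter_none]
  · refine fun h => hu (h.of_eq fun n => ?_)
    rw [← dm_halts_iff S q0 0]
    have : (Pi.single (false, true) (N n : ℤ) : Bool × Bool → ℤ) =
        v4 (ini (N n) true) (ini (N n) false) 0 0 := by
      funext ⟨j1, j2⟩
      cases j1 <;> cases j2 <;> simp [v4, ini]
    rw [← this]
    rfl
  · exact (Primrec.nat_mul.comp (Primrec.nat_mul.comp (Primrec.const _) Primrec.succ)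
      (Primrec.const _)).to_comp.comp hN
  · intro n hn
    obtain ⟨τ, K, h1, F, h2, h3⟩ := frame_of_halts D M p0 (false, true) (N n) hD hn
    exact ⟨_, _, inferInstance, h1, inferInstance, F, by simp [Nat.card_prod], h2, h3⟩

end Pool.Agent.H655Z.TD
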