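import Pool.Agent.H655Z.TD.Walk

/-! The padded systems, the tree `TS` and the graph `HS`. -/

set_option autoImplicit false

namespace Pool.Agent.H655Z.TD

open Pool.Agent.H431Z.LD

/-- labels -/
inductive TL (Lab : Type)
  | core (l : Lab)
  | pad (n a : ℕ) (cb : Bool) (k : ℕ)
  | pln (p n a : ℕ)
  | sig (m : ℕ) (a b : Lab) (X : Set Lab) (l : Lab)
  | root

/-- coarse labels -/
def cz {Lab : Type} : TL Lab → Bool
  | .pad _ _ cb _ => cb
  | .pln _ _ a => decide (a < 3)
  | _ => true

/-- labels of decoys -/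
def okD {Lab : Type} (d : ℕ) : TL Lab → Prop
  | .core _ => True
  | .pad n a _ k => n ≤ 2 ∧ a < d + 3 ∧ k ≤ 2
  | _ => False

/-- the vertices that carry a padding tree -/
inductive Top (B Lab : Type)
  | base (b : B)
  | dec (b : B) (e D : ℕ) (l : TL Lab)
  | sig (b : B)
  | root

/-- antennas (the head of a word is its deepest letter) -/
def ant (e : ℕ) : ℕ → List ℕ
  | 0 => []
  | n + 1 => (if n = 0 then e else 0) :: ant e n

/-- the antenna a word lies on -/
def kind (L : ℕ) (w : List ℕ) : ℕ :=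
  if w.length ≤ 2 * L - 1 ∧ w = ant 1 w.length then 1
  else if w.length ≤ 2 * L - 1 ∧ w = ant 2 w.length then 2 else 0

/-- a labelled graph of bases with signatures and stems -/
structure Sys (B Lab : Type) where
  C : SimpleGraph B
  lb : B → Lab
  hs : B → Prop
  m : B → ℕ
  ia : B → Lab
  ib : B → Lab
  iX : B → Set Lab
  st : B → Prop

/-- raw vertices -/
abbrev Raw (B Lab : Type) : Type := Top B Lab × List ℕ

/-- raw vertices with a parent -/
def np {B Lab : Type} : Raw B Lab → Prop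
  | (.base _, []) => False
  | (.root, []) => False
  | _ => True

/-- the base a top belongs to -/
def bs {B Lab : Type} : Top B Lab → Option B
  | .base b => some b
  | .dec b _ _ _ => some b
  | .sig b => some b
  | .root => none

namespace Sys

variable {B Lab : Type} (X : Sys B Lab) (mdl : Lab → Prop) (L d : ℕ)

/-- the label of a signature -/
def sl (b : B) : TL Lab := .sig (X.m b) (X.ia b) (X.ib b) (X.iX b) (X.lb b)

/-- the tops that occur -/
def okT : Top B Lab → Prop
  | .dec _ e D l => (e = 1 ∨ e = 2) ∧ 2 * L - 2 ≤ D ∧ D ≤ 2 * L ∧ okD d l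
  | .sig b => X.hs b
  | _ => True

/-- the raw vertices that occur -/
def Ok (x : Raw B Lab) : Prop := x.2.length ≤ 10 * L ∧ (∀ a ∈ x.2, a < d + 3) ∧ X.okT L d x.1

/-- vertices -/
def Vx : Type := {x : Raw B Lab // X.Ok L d x}

/-- parent -/
def pp : Raw B Lab → Raw B Lab
  | (t, _ :: w) => (t, w)
  | (.dec b e D _, []) => (.base b, ant e (D - 1))
  | (.sig b, []) => (.base b, ant 1 (X.m b))
  | x => x

/-- potential of a top -/
def ph0 : Top B Lab → ℕ
  | .base _ => 0
  | .dec _ _ D _ => D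
  | .sig b => X.m b + 1
  | .root => 2 * L + 1

/-- potential: the distance to the bases -/
def ph (x : Raw B Lab) : ℕ := X.ph0 L x.1 + x.2.length

/-- adjacency of raw vertices -/
def radj (x y : Raw B Lab) : Prop :=
  (np y ∧ x = X.pp y) ∨ (np x ∧ y = X.pp x) ∨
  (∃ b b', X.C.Adj b b' ∧ x = (.base b, []) ∧ y = (.base b', [])) ∨
  (∃ b, X.st b ∧ x = (.sig b, []) ∧ y = (.root, [])) ∨
  (∃ b, X.st b ∧ y = (.sig b, []) ∧ x = (.root, []))

lemma pp_ne {x : Raw B Lab} (h : np x) : X.pp x ≠ x := by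
  rcases x with ⟨t, _ | ⟨a, w⟩⟩
  · rcases t with b | ⟨b, e, D, l⟩ | b | _ <;> simp [np, pp] at h ⊢
  · simp [pp]

/-- the graph of a system -/
def Gr : SimpleGraph (X.Vx L d) where
  Adj x y := X.radj x.1 y.1
  symm := ⟨fun _ _ h => by
    rcases h with h | h | ⟨b, b', h1, h2, h3⟩ | h | h
    · exact Or.inr (Or.inl h)
    · exact Or.inl h
    · exact Or.inr (Or.inr (Or.inl ⟨b', b, h1.symm, h3, h2⟩))
    · exact Or.inr (Or.inr (Or.inr (Or.inr h)))
    · exact Or.inr (Or.inr (Or.inr (Or.inl h)))⟩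
  loopless := ⟨fun x h => by
    rcases h with h | h | ⟨b, b', h1, h2, h3⟩ | ⟨b, -, h2, h3⟩ | ⟨b, -, h2, h3⟩
    · exact X.pp_ne h.1 h.2.symm
    · exact X.pp_ne h.1 h.2.symm
    · rw [h2] at h3; cases h3; exact h1.ne rfl
    · rw [h2] at h3; cases h3
    · rw [h2] at h3; cases h3⟩

open Classical in
/-- labels of raw vertices -/
noncomputable def rlab : Raw B Lab → TL Lab
  | (.base b, []) => .core (X.lb b)
  | (.dec _ _ _ l, []) => l
  | (.sig b, []) => X.sl b
  | (.root, []) => .root
  | (.base b, a :: w) => .pad (w.length + 1) a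
      (if w = [] then decide (a = 0 ∧ mdl (X.lb b)) else decide (a < 3)) (kind L (a :: w))
  | (t, a :: w) => .pln (X.ph0 L t) (w.length + 1) a

/-- labels of vertices -/
noncomputable def lab (x : X.Vx L d) : TL Lab := X.rlab mdl L x.1

/-- the vertex of a base -/
def bv (b : B) : X.Vx L d := ⟨(.base b, []), by simp [Ok, okT]⟩

/-- the root -/
def rt : X.Vx L d := ⟨(.root, []), by simp [Ok, okT]⟩

/-- well-formed systems -/
structure WF : Prop where
  m_ge : ∀ b, X.hs b → 2 ≤ X.m b
  m_le : ∀ b, X.hs b → X.m b ≤ 2 * L - 1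
  st_hs : ∀ b, X.st b → X.hs b ∧ X.m b = 2 * L - 1
  nbr : ∀ b, ∃ b', X.C.Adj b b'
  d2 : ∀ b b', Near X.C.Adj 2 b b' → X.lb b = X.lb b' → b = b'
  st_inj : ∀ b b', X.st b → X.hs b' → X.sl b = X.sl b' → b = b'

end Sys

section model

variable {U Lab : Type} [Nonempty U] (G : SimpleGraph U) (fc : U → Lab) (mdl : Lab → Prop) (L : ℕ)

/-- the representative of the type of a point -/
noncomputable def rep (w : U) : U :=
  Classical.epsilon fun w' => fc w' = fc w ∧ SK G fc mdl L w' = SK G fc mdl L w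

/-- real bases: a centre and a point kept in its ball -/
def RB : Type := {p : U × U // rep G fc mdl L p.1 = p.1 ∧ Kept G fc mdl L p.1 p.2}

/-- distance -/
noncomputable def ds (w v : U) : ℕ := sInf {n | Near G.Adj n w v}

/-- direction -/
noncomputable def dr (w v : U) : U := Classical.epsilon fun p => Dir G w p v

/-- the stem of a ball -/
noncomputable def stem (w : U) : U :=
  Classical.epsilon fun p => G.Adj w p ∧ Un G fc mdl L (fc w) (fc p)

open Classical in
/-- the system of the tree -/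
noncomputable def TS : Sys (RB G fc mdl L) Lab where
  C := { Adj := fun p q => p.1.1 = q.1.1 ∧ G.Adj p.1.2 q.1.2
         symm := ⟨fun _ _ h => ⟨h.1.symm, h.2.symm⟩⟩
         loopless := ⟨fun _ h => h.2.ne rfl⟩ }
  lb p := fc p.1.2
  hs p := p.1.2 ≠ p.1.1
  m p := 2 * L - ds G p.1.1 p.1.2
  ia p := fc p.1.1
  ib p := fc (dr G p.1.1 p.1.2)
  iX p := if Un G fc mdl L (fc p.1.1) (fc (dr G p.1.1 p.1.2)) then SK G fc mdl L p.1.1
    else SD G fc mdl L p.1.1 (dr G p.1.1 p.1.2)
  st p := p.1.2 = stem G fc mdl L p.1.1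

/-- the system of the tree together with the padded model -/
noncomputable def HS : Sys (RB G fc mdl L ⊕ U) Lab where
  C := (TS G fc mdl L).C ⊕g G
  lb := Sum.elim (TS G fc mdl L).lb fc
  hs := Sum.elim (TS G fc mdl L).hs fun _ => False
  m := Sum.elim (TS G fc mdl L).m fun _ => 0
  ia := Sum.elim (TS G fc mdl L).ia fc
  ib := Sum.elim (TS G fc mdl L).ib fc
  iX := Sum.elim (TS G fc mdl L).iX fun _ => ∅
  st := Sum.elim (TS G fc mdl L).st fun _ => False

end model

/-- no closed non-backtracking walk has length `4L - 1` -/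
def NoOdd {U : Type} (G : SimpleGraph U) (L : ℕ) : Prop :=
  ∀ u, NBW G u (4 * L - 1) → u 0 ≠ u (4 * L - 1)

end Pool.Agent.H655Z.TD
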