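import Pool.Agent.H655Z.TD.Defs

/-! Walks, exact distances, cuts. -/

set_option autoImplicit false

namespace Pool.Agent.H655Z.TD

open Pool.Agent.H431Z.LD

variable {V W : Type} {G : SimpleGraph V}

lemma nsymm {n : ℕ} {x y : V} (h : Near G.Adj n x y) : Near G.Adj n y x :=
  h.symm fun _ _ a => a.symm

lemma near_zero {A : V → V → Prop} {x y : V} : Near A 0 x y ↔ x = y := Iff.rfl

lemma near_adj {x y : V} (h : G.Adj x y) : Near G.Adj 1 x y := (Near.refl 0 x).step h

lemma near_one {x y : V} : Near G.Adj 1 x y ↔ x = y ∨ G.Adj x y :=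
  ⟨fun h => h.elim Or.inl fun ⟨_, a, b⟩ => Or.inr (near_zero.1 a ▸ b),
    fun h => h.elim (fun e => e ▸ Near.refl 1 x) near_adj⟩

lemma near_cons {n : ℕ} {x y z : V} (h : G.Adj x y) (h' : Near G.Adj n y z) :
    Near G.Adj (n + 1) x z := by
  have := (near_adj h).trans h'
  rwa [add_comm] at this

/-- first step of a walk -/
lemma near_head {n : ℕ} {x z : V} (h : Near G.Adj (n + 1) x z) :
    Near G.Adj n x z ∨ ∃ y, G.Adj x y ∧ Near G.Adj n y z := by
  rcases nsymm h with h | ⟨y, a, b⟩
  · exact Or.inl (nsymm h)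
  · exact Or.inr ⟨y, b.symm, nsymm a⟩

lemma near_split {a b : ℕ} {x z : V} (h : Near G.Adj (a + b) x z) :
    ∃ y, Near G.Adj a x y ∧ Near G.Adj b y z := by
  induction b generalizing z with
  | zero => exact ⟨z, h, rfl⟩
  | succ b ih =>
    rcases h with h | ⟨u, h1, h2⟩
    · obtain ⟨y, c, d⟩ := ih h
      exact ⟨y, c, d.succ⟩
    · obtain ⟨y, c, d⟩ := ih h1
      exact ⟨y, c, d.step h2⟩

/-- weak homomorphisms do not increase distances -/
lemma near_map {H : SimpleGraph W} (φ : V → W) (hφ : ∀ a b, G.Adj a b → φ a = φ b ∨ H.Adj (φ a) (φ b))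
    {n : ℕ} {x : V} : ∀ {y : V}, Near G.Adj n x y → Near H.Adj n (φ x) (φ y) := by
  induction n with
  | zero => intro y h; obtain rfl : x = y := h; rfl
  | succ n ih =>
    rintro y (h | ⟨u, h1, h2⟩)
    · exact (ih h).succ
    · rcases hφ _ _ h2 with e | e
      · exact e ▸ (ih h1).succ
      · exact (ih h1).step e

/-- potentials bound distances from below -/
lemma near_pot (Φ : V → ℕ) (hΦ : ∀ a b, G.Adj a b → Φ a ≤ Φ b + 1) {n : ℕ} {x : V} :
    ∀ {y : V}, Near G.Adj n x y → Φ x ≤ Φ y + n := by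
  induction n with
  | zero => intro y h; obtain rfl : x = y := h; simp
  | succ n ih =>
    rintro y (h | ⟨u, h1, h2⟩)
    · have := ih h; omega
    · have := ih h1; have := hΦ _ _ h2; omega

lemma exists_ex {n : ℕ} {x y : V} (h : Near G.Adj n x y) : ∃ m ≤ n, Ex G m x y := by
  classical
  have hex : ∃ m, Near G.Adj m x y := ⟨n, h⟩
  exact ⟨Nat.find hex, Nat.find_min' hex h, Nat.find_spec hex, fun m hm => Nat.find_min' hex hm⟩

lemma Ex.symm {n : ℕ} {x y : V} (h : Ex G n x y) : Ex G n y x :=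
  ⟨nsymm h.1, fun m hm => h.2 m (nsymm hm)⟩

lemma Ex.unique {n m : ℕ} {x y : V} (h : Ex G n x y) (h' : Ex G m x y) : n = m :=
  le_antisymm (h.2 _ h'.1) (h'.2 _ h.1)

lemma Ex.near_iff {n m : ℕ} {x y : V} (h : Ex G n x y) : Near G.Adj m x y ↔ n ≤ m :=
  ⟨h.2 m, fun a => h.1.mono a⟩

lemma ex_zero {x y : V} : Ex G 0 x y ↔ x = y := ⟨fun h => h.1, fun h => ⟨h, fun _ _ => Nat.zero_le _⟩⟩

lemma ex_one {x y : V} : Ex G 1 x y ↔ G.Adj x y := by
  refine ⟨fun h => (near_one.1 h.1).elim (fun e => absurd (h.2 0 e) (by omega)) id,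
    fun h => ⟨near_adj h, fun m hm => ?_⟩⟩
  rcases m with _ | m
  · exact absurd hm h.ne
  · omega

lemma ex_of_not {n : ℕ} {x y : V} (h : Near G.Adj (n + 1) x y) (h' : ¬ Near G.Adj n x y) :
    Ex G (n + 1) x y := ⟨h, fun m hm => by by_contra a; exact h' (hm.mono (by omega))⟩

lemma walk_near {u : ℕ → V} {n : ℕ} (h : ∀ i < n, G.Adj (u i) (u (i + 1))) {i j : ℕ} (hij : i ≤ j)
    (hj : j ≤ n) : Near G.Adj (j - i) (u i) (u j) := by
  induction j, hij using Nat.le_induction with
  | base => simpa using Near.refl 0 _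
  | succ j hij ih =>
    rw [show j + 1 - i = j - i + 1 by omega]
    exact (ih (by omega)).step (h j (by omega))

lemma NBW.near {u : ℕ → V} {n : ℕ} (h : NBW G u n) {i j : ℕ} (hij : i ≤ j) (hj : j ≤ n) :
    Near G.Adj (j - i) (u i) (u j) := walk_near h.1 hij hj

lemma NBW.mono {u : ℕ → V} {n m : ℕ} (h : NBW G u n) (hm : m ≤ n) : NBW G u m :=
  ⟨fun i hi => h.1 i (by omega), fun i hi => h.2 i (by omega)⟩

lemma NBW.shift {u : ℕ → V} {n : ℕ} (h : NBW G u n) (a : ℕ) : NBW G (fun i => u (a + i)) (n - a) :=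
  ⟨fun i hi => h.1 (a + i) (by omega), fun i hi => h.2 (a + i) (by omega)⟩

lemma NBW.rev {u : ℕ → V} {n : ℕ} (h : NBW G u n) : NBW G (fun i => u (n - i)) n := by
  refine ⟨fun i hi => ?_, fun i hi => ?_⟩
  · have := (h.1 (n - (i + 1)) (by omega)).symm
    rwa [show n - (i + 1) + 1 = n - i by omega] at this
  · have := (h.2 (n - (i + 2)) (by omega)).symm
    rwa [show n - (i + 2) + 2 = n - i by omega] at this

/-- concatenation -/
lemma NBW.append {u u' : ℕ → V} {n n' : ℕ} (h : NBW G u n) (h' : NBW G u' n') (e : u n = u' 0)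
    (hne : 0 < n → 0 < n' → u' 1 ≠ u (n - 1)) :
    NBW G (fun i => if i ≤ n then u i else u' (i - n)) (n + n') := by
  have key : ∀ i, n ≤ i → (if i ≤ n then u i else u' (i - n)) = u' (i - n) := by
    intro i hi
    split_ifs with a
    · obtain rfl : i = n := by omega
      simpa using e
    · rfl
  refine ⟨fun i hi => ?_, fun i hi => ?_⟩
  · by_cases a : i < n
    · simp only [if_pos (show i ≤ n by omega), if_pos (show i + 1 ≤ n by omega)]
      exact h.1 i a
    · simp only [key i (by omega), key (i + 1) (by omega)]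
      rw [show i + 1 - n = i - n + 1 by omega]
      exact h'.1 _ (by omega)
  · by_cases a : i + 2 ≤ n
    · simp only [if_pos (show i ≤ n by omega), if_pos a]
      exact h.2 i a
    · by_cases b : n ≤ i
      · simp only [key i b, key (i + 2) (by omega)]
        rw [show i + 2 - n = i - n + 2 by omega]
        exact h'.2 _ (by omega)
      · simp only [if_pos (show i ≤ n by omega), key (i + 2) (by omega)]
        have := hne (by omega) (by omega)
        rwa [show n - 1 = i by omega, show 1 = i + 2 - n by omega] at this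

/-- geodesics -/
lemma Ex.walk {n : ℕ} {x y : V} (h : Ex G n x y) :
    ∃ u, NBW G u n ∧ u 0 = x ∧ u n = y ∧ ∀ i ≤ n, Ex G i x (u i) ∧ Ex G (n - i) (u i) y := by
  have key : ∀ (n : ℕ) (y : V), Ex G n x y →
      ∃ u : ℕ → V, (∀ i < n, G.Adj (u i) (u (i + 1))) ∧ u 0 = x ∧ u n = y := by
    intro n
    induction n with
    | zero => intro y h; exact ⟨fun _ => x, by simp, rfl, h.1⟩
    | succ n ih =>
      intro y h
      rcases h.1 with a | ⟨z, a, b⟩
      · exact absurd (h.2 _ a) (by omega)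
      · obtain ⟨u, h1, h2, h3⟩ := ih z ⟨a, fun m hm => by have := h.2 _ (hm.step b); omega⟩
        refine ⟨fun i => if i ≤ n then u i else y, fun i hi => ?_, by simpa using h2, by simp⟩
        by_cases c : i < n
        · simp only [if_pos (show i ≤ n by omega), if_pos (show i + 1 ≤ n by omega)]
          exact h1 i c
        · obtain rfl : i = n := by omega
          simpa [h3] using b
  obtain ⟨u, h1, h2, h3⟩ := key n y h
  have hex : ∀ i ≤ n, Ex G i x (u i) ∧ Ex G (n - i) (u i) y := by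
    intro i hi
    have a : Near G.Adj i x (u i) := by simpa [h2] using walk_near h1 (Nat.zero_le i) hi
    have b : Near G.Adj (n - i) (u i) y := by simpa [h3] using walk_near h1 hi le_rfl
    exact ⟨⟨a, fun m hm => by have := h.2 _ (hm.trans b); omega⟩,
      ⟨b, fun m hm => by have := h.2 _ (a.trans hm); omega⟩⟩
  refine ⟨u, ⟨h1, fun i hi e => ?_⟩, h2, h3, hex⟩
  have := (hex (i + 2) hi).1.unique (e ▸ (hex i (by omega)).1)
  omega

/-- short non-backtracking walks with the same ends coincide -/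
lemma nbu {g : ℕ} (hg : NoClosed G g) : ∀ (n : ℕ) {n' : ℕ} {u u' : ℕ → V}, NBW G u n → NBW G u' n' →
    u 0 = u' 0 → u n = u' n' → n + n' < g → n = n' ∧ ∀ i ≤ n, u i = u' i := by
  intro n
  induction n with
  | zero =>
    intro n' u u' _ h' e0 e1 hl
    rcases n' with _ | n'
    · exact ⟨rfl, fun i hi => by obtain rfl : i = 0 := by omega
                                 exact e0⟩
    · exact absurd (e0.symm.trans e1) (hg u' _ h' (by omega) (by omega))
  | succ n ih =>
    intro n' u u' h h' e0 e1 hl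
    rcases n' with _ | n'
    · exact absurd (e0.trans e1.symm) (hg u _ h (by omega) (by omega))
    · by_cases e : u 1 = u' 1
      · have := ih (n' := n') (by simpa using h.shift 1) (by simpa using h'.shift 1) e
          (by simpa [add_comm] using e1) (by omega)
        refine ⟨by omega, fun i hi => ?_⟩
        rcases i with _ | i
        · exact e0
        · simpa [add_comm] using this.2 i (by omega)
      · have hw := h.rev.append h' (by simpa using e0) (fun _ _ => by simpa using Ne.symm e)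
        refine absurd ?_ (hg _ _ hw (by omega) (by omega))
        simp only [Nat.zero_le, if_true, Nat.sub_zero]
        rw [if_neg (by omega), e1]
        congr 1
        omega

lemma NBW.ex {g n : ℕ} {u : ℕ → V} (hg : NoClosed G g) (h : NBW G u n) (hn : 2 * n ≤ g) :
    Ex G n (u 0) (u n) := by
  have a : Near G.Adj n (u 0) (u n) := by simpa using h.near (Nat.zero_le n) le_rfl
  obtain ⟨m, hm, e⟩ := exists_ex a
  obtain ⟨u', b1, b2, b3, -⟩ := e.walk
  rcases hm.eq_or_lt with rfl | hm
  · exact e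
  · have := (nbu hg n h b1 b2.symm b3.symm (by omega)).1
    omega

lemma NoClosed.mono {g g' : ℕ} (h : NoClosed G g) (hg : g' ≤ g) : NoClosed G g' :=
  fun u n a b c => h u n a b (by omega)

/-- a walk leaving `D` uses the only edge leaving `D` -/
lemma near_cut (D : V → Prop) {a0 b0 : V} (hD : ∀ v v', D v → G.Adj v v' → D v' ∨ (v = a0 ∧ v' = b0))
    {n : ℕ} {x : V} (hx : D x) : ∀ {y : V}, ¬ D y → Near G.Adj n x y →
      ∃ n1 n2, n1 + 1 + n2 ≤ n ∧ Near G.Adj n1 x a0 ∧ Near G.Adj n2 b0 y := by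
  induction n with
  | zero => intro y hy h; obtain rfl : x = y := h; exact absurd hx hy
  | succ n ih =>
    rintro y hy (h | ⟨u, h1, h2⟩)
    · obtain ⟨n1, n2, a, b⟩ := ih hy h
      exact ⟨n1, n2, by omega, b⟩
    · by_cases hu : D u
      · rcases hD _ _ hu h2 with a | ⟨rfl, rfl⟩
        · exact absurd a hy
        · exact ⟨n, 0, by omega, h1, rfl⟩
      · obtain ⟨n1, n2, a, b, c⟩ := ih hu h1
        exact ⟨n1, n2 + 1, by omega, b, c.step h2⟩

/-- no point closes up an arc whose middle is cut off -/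
lemma noz {Lab : Type} {g : V → Lab} {mdl : Lab → Prop} {L : ℕ} (hL : 3 ≤ L) {u : ℕ → V}
    (hu : ∀ i < 2 * L - 2, G.Adj (u i) (u (i + 1))) (hn : ¬ Near G.Adj (2 * L - 3) (u 0) (u (2 * L - 2)))
    (hm : ¬ mdl (g (u (L - 1))))
    (h2 : ∀ a, G.Adj (u (L - 1)) a → a = u (L - 2) ∨ a = u L)
    (D : V → Prop) (hy : D (u (2 * L - 2))) (hx : ¬ D (u 0))
    (hD : ∀ v v', D v → G.Adj v v' → D v' ∨ (v = u L ∧ v' = u (L - 1))) :
    ¬ Zc G g mdl L (u 0) (u (2 * L - 2)) := by
  have a1 : Near G.Adj (L - 1) (u 0) (u (L - 1)) := by simpa using walk_near hu (Nat.zero_le (L - 1)) (by omega)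
  have a2 : Near G.Adj (L - 2) (u L) (u (2 * L - 2)) := by
    have := walk_near hu (i := L) (j := 2 * L - 2) (by omega) le_rfl
    rwa [show 2 * L - 2 - L = L - 2 by omega] at this
  have a3 : G.Adj (u (L - 1)) (u L) := by
    have := hu (L - 1) (by omega)
    rwa [show L - 1 + 1 = L by omega] at this
  have a4 : Near G.Adj (L - 2) (u 0) (u (L - 2)) := by simpa using walk_near hu (Nat.zero_le (L - 2)) (by omega)
  have b1 : ∀ m, Near G.Adj m (u (L - 1)) (u 0) → L - 1 ≤ m := fun m h => by
    by_contra c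
    exact hn ((((nsymm h).step a3).trans a2).mono (by omega))
  have b2 : ∀ m, Near G.Adj m (u (2 * L - 2)) (u L) → L - 2 ≤ m := fun m h => by
    by_contra c
    exact hn (((a1.step a3).trans (nsymm h)).mono (by omega))
  rintro (⟨z, e1, e2⟩ | ⟨z, e0, e1, e2⟩)
  · by_cases hz : D z
    · obtain ⟨n1, n2, c1, c2, c3⟩ := near_cut D hD hz hx (nsymm e1.1)
      have := b1 _ c3
      obtain rfl : n1 = 0 := by omega
      obtain rfl : z = u L := c2
      have := e2.2 _ (nsymm a2)
      omega
    · obtain ⟨n1, n2, c1, c2, c3⟩ := near_cut D hD hy hz e2.1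
      have := b2 _ c2
      rcases near_one.1 (c3.mono (show n2 ≤ 1 by omega)) with c | c
      · have := e1.2 _ (c ▸ a1); omega
      · rcases h2 _ c with rfl | rfl
        · have := e1.2 _ a4; omega
        · have := e2.2 _ (nsymm a2); omega
  · by_cases hz : D z
    · obtain ⟨n1, n2, c1, c2, c3⟩ := near_cut D hD hz hx (nsymm e1)
      have := b1 _ c3
      omega
    · obtain ⟨n1, n2, c1, c2, c3⟩ := near_cut D hD hy hz e2
      have := b2 _ c2
      obtain rfl : n2 = 0 := by omega
      obtain rfl : u (L - 1) = z := c3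
      exact hm e0

end Pool.Agent.H655Z.TD
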